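import Pool.Agent.H789R2.PE.Defs
import Pool.Agent.H789R2.AN.Man

set_option autoImplicit false

open scoped Manifold ContDiff Topology ENNReal
open Set Filter MeasureTheory Metric

namespace Pool.Agent.H789R2.PE

/-! Lemmas by helpers 133 (T10), 477 (T11). -/

section C

open Pool.Agent.H721R2 Pool.Agent.H789R2.AN

/-! Task T10 of project PE (helper133): attractors are everything if a finite invariant measure
charges all open sets. -/





/-- T10 -/
theorem att_univ {X : Type*} [MetricSpace X] [ConnectedSpace X] [MeasurableSpace X]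
    [BorelSpace X] {g : X ≃ₜ X} {c : ℝ} (h : LP g c) (ν : Measure X) [IsFiniteMeasure ν]
    (hν : ν.map g = ν) (hpos : ∀ U : Set X, IsOpen U → U.Nonempty → ν U ≠ 0) (A : Set X)
    (hA : IsAtt g A) : A = univ := by
  have hmp : MeasurePreserving g ν ν := ⟨g.continuous.measurable, hν⟩
  have hcons : Conservative g ν := hmp.conservative
  obtain ⟨δ, hδ, hnear⟩ := h.near
  have hopen : IsOpen A := by
    rw [Metric.isOpen_iff]
    intro x hx
    refine ⟨δ, hδ, fun y hy => ?_⟩
    rw [Metric.mem_ball] at hy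
    by_contra hyA
    have hη : 0 < infDist y A := (hA.closed.notMem_iff_infDist_pos hA.nonempty).mp hyA
    obtain ⟨W, hW⟩ : ∃ W : Set X, W = {w | ∃ x ∈ A, dist w x < δ} ∩ {w | infDist y A / 2 < infDist w A} :=
      ⟨_, rfl⟩
    have hWo : IsOpen W := by
      rw [hW]
      refine IsOpen.inter ?_ (isOpen_lt continuous_const (continuous_infDist_pt A))
      have : {w : X | ∃ x ∈ A, dist w x < δ} = ⋃ x ∈ A, ball x δ := by
        ext w
        simp [Metric.mem_ball]
      rw [this]
      exact isOpen_biUnion fun x _ => isOpen_ball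
    have hyW : y ∈ W := by
      rw [hW]
      exact ⟨⟨x, hx, hy⟩, by simp only [Set.mem_ofPred_eq]; linarith⟩
    have hW0 : ν W ≠ 0 := hpos W hWo ⟨y, hyW⟩
    have hfreq := hcons.ae_mem_imp_frequently_image_mem hWo.measurableSet.nullMeasurableSet
    have hnot : ∀ w ∈ W, ¬ ∃ᶠ n in atTop, g^[n] w ∈ W := by
      intro w hw hcon
      rw [hW] at hw
      obtain ⟨⟨x', hx', hwx⟩, -⟩ := hw
      obtain ⟨z, hz, hSR⟩ := hnear A hA x' hx' w hwx
      have hlim : Tendsto (fun n : ℕ => c * (1 / 2 : ℝ) ^ n) atTop (𝓝 0) := by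
        have := (tendsto_pow_atTop_nhds_zero_of_lt_one (by norm_num : (0:ℝ) ≤ 1 / 2)
          (by norm_num)).const_mul c
        simpa using this
      have hev := (tendsto_order.mp hlim).2 (infDist y A / 2) (by linarith)
      obtain ⟨n, hn1, hn2⟩ := (hcon.and_eventually hev).exists
      rw [hW] at hn1
      have h1 : infDist (g^[n] w) A ≤ dist (g^[n] w) (g^[n] z) :=
        infDist_le_dist_of_mem ((inv_iter hA.inv n z).mpr hz)
      have h2 := h.cS w z hSR n
      have h3 : infDist y A / 2 < infDist (g^[n] w) A := hn1.2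
      linarith
    apply hW0
    rw [measure_eq_zero_iff_ae_notMem]
    filter_upwards [hfreq] with w hw hwW
    exact hnot w hwW (hw hwW)
  exact IsClopen.eq_univ ⟨hA.closed, hopen⟩ hA.nonempty

theorem T11_abs {X F : Type*} [MetricSpace X] [CompactSpace X] [ConnectedSpace X]
    [MeasurableSpace X] [BorelSpace X] [NormedAddCommGroup F] [NormedSpace ℝ F]
    (S : HypSys X F) (ν : Measure X) [IsFiniteMeasure ν]
    (hν : ν.map S.g = ν) (hpos : ∀ U : Set X, IsOpen U → U.Nonempty → ν U ≠ 0)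
    (U V : Set X) (hU : IsOpen U) (hUn : U.Nonempty) (hV : IsOpen V) (hVn : V.Nonempty) :
    ∃ n : ℕ, (S.g^[n] '' U ∩ V).Nonempty := by
  obtain ⟨c, hc⟩ := exists_LP S
  exact transitive_of_unique hc (fun A hA => att_univ hc ν hν hpos A hA) U V hU hUn hV hVn

/-- T11 (uses T10; like `man_main` in Pool.Agent.H789R2.AN.Man) -/
theorem transitive_of_measure {E : Type*} [NormedAddCommGroup E] [NormedSpace ℝ E]
    [FiniteDimensional ℝ E] {M : Type*} [TopologicalSpace M] [T2Space M] [CompactSpace M]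
    [ConnectedSpace M] [ChartedSpace E M] [IsManifold 𝓘(ℝ, E) ∞ M] [MeasurableSpace M]
    [BorelSpace M] (f : Diffeomorph 𝓘(ℝ, E) 𝓘(ℝ, E) M M 1)
    (Es Eu : ∀ x : M, Submodule ℝ (TangentSpace 𝓘(ℝ, E) x)) (hA : IsAnosov f Es Eu)
    (ν : Measure M) [IsFiniteMeasure ν] (hν : ν.map f = ν)
    (hpos : ∀ U : Set M, IsOpen U → U.Nonempty → ν U ≠ 0) : TopTransitive f := by
  have hfm : Measurable f := f.continuous.measurable
  have hmp : MeasurePreserving f ν ν := ⟨hfm, hν⟩
  obtain ⟨m, e, he, hemb, hinj⟩ := exists_embedding_euclidean_of_compact (I := 𝓘(ℝ, E)) (M := M)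
  let _ : MetricSpace M := hemb.isEmbedding.comapMetricSpace e
  have hiso : ∀ x y : M, dist x y = ‖e x - e y‖ := fun x y => dist_eq_norm (e x) (e y)
  have he1 : ContMDiff 𝓘(ℝ, E) (𝓡 m) 1 e := he.of_le (by simp)
  obtain ⟨n, S, hg, -, -, -⟩ := exists_sys hiso he1 hinj f Es Eu hA
  have hgi : ∀ x, S.g x = f^[n] x := fun x => by
    rw [hg]; rfl
  have hgf : (S.g : M → M) = f^[n] := funext hgi
  have hνg : ν.map S.g = ν := by
    rw [hgf]
    exact (hmp.iterate n).map_eq
  intro U V hU hUn hV hVn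
  obtain ⟨k, hk⟩ := T11_abs S ν hνg hpos U V hU hUn hV hVn
  refine ⟨n * k, ?_⟩
  have h1 : S.g^[k] = f^[n * k] := by
    rw [Function.iterate_mul, hgf]
  rw [h1] at hk
  exact hk

end C

end Pool.Agent.H789R2.PE
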