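import Pool.Agent.H789R2.AN.Def

set_option autoImplicit false

open scoped Manifold ContDiff Topology ENNReal
open Set Filter MeasureTheory

namespace Pool.Agent.H789R2.PE

variable {E : Type*} [NormedAddCommGroup E] [NormedSpace ℂ E]

/-- `u = exp φ` on `U`, where `φ : U → [-∞, ∞)` is plurisubharmonic (or `≡ -∞`): `u ≥ 0` is upper
semicontinuous and, for every closed affine disc `{a + ζ b : |ζ| ≤ 1} ⊆ U` with `u a ≠ 0`, `u` is
nonzero a.e. on its boundary circle and `log u` is integrable there, with mean `≥ log (u a)`. -/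
structure ExpPsh (U : Set E) (u : E → ℝ) : Prop where
  nonneg : ∀ x ∈ U, 0 ≤ u x
  usc : UpperSemicontinuousOn u U
  mean : ∀ a b : E, (∀ ζ : ℂ, ‖ζ‖ ≤ 1 → a + ζ • b ∈ U) → u a ≠ 0 →
    (∀ᵐ t : ℝ, u (a + circleMap 0 1 t • b) ≠ 0) ∧
    CircleIntegrable (fun ζ => Real.log (u (a + ζ • b))) 0 1 ∧
    Real.log (u a) ≤ Real.circleAverage (fun ζ => Real.log (u (a + ζ • b))) 0 1

variable {M : Type*} [TopologicalSpace M] [ChartedSpace E M]

/-- A complex manifold is a smooth manifold. -/
instance (priority := 50) realSmooth [IsManifold 𝓘(ℂ, E) ω M] : IsManifold 𝓘(ℝ, E) ∞ M := by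
  apply isManifold_of_contDiffOn
  intro e e' he he'
  have h := (contDiffGroupoid ω 𝓘(ℂ, E)).compatible (M := M) he he'
  rw [contDiffGroupoid, mem_groupoid_of_pregroupoid] at h
  exact (h.1.restrict_scalars ℝ).of_le le_top

/-- Holomorphic charts of `M`. -/
structure HolChart (e : OpenPartialHomeomorph M E) : Prop where
  hol : ContMDiffOn 𝓘(ℂ, E) 𝓘(ℂ, E) ω e e.source
  hol_symm : ContMDiffOn 𝓘(ℂ, E) 𝓘(ℂ, E) ω e.symm e.target

/-- In every holomorphic chart, the measure `μ` has a density `exp φ` with `φ` plurisubharmonic: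
`μ` is a semipositively curved singular Hermitian metric on the canonical bundle of `M`. -/
def PshDensities (E : Type*) [NormedAddCommGroup E] [NormedSpace ℂ E] [FiniteDimensional ℂ E]
    [MeasurableSpace E] [BorelSpace E] {M : Type*} [TopologicalSpace M] [ChartedSpace E M]
    [MeasurableSpace M] (μ : Measure M) : Prop :=
  ∀ e : OpenPartialHomeomorph M E, HolChart e → ∃ u : E → ℝ, ExpPsh e.target u ∧
    ∀ s ⊆ e.target, MeasurableSet s →
      μ (e.symm '' s) = ∫⁻ x in s, ENNReal.ofReal (u x) ∂Measure.addHaar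

end Pool.Agent.H789R2.PE
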