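import Pool.Agent.H789R2.PE.Supp
import Pool.Agent.H789R2.PE.Ano

set_option autoImplicit false

open scoped Manifold ContDiff Topology ENNReal
open Set Filter MeasureTheory Metric

namespace Pool.Agent.H789R2.PE

section B

variable {E : Type*} [NormedAddCommGroup E] [NormedSpace ℂ E] [FiniteDimensional ℂ E]
  [MeasurableSpace E] [BorelSpace E]
  {M : Type*} [TopologicalSpace M] [ChartedSpace E M] [IsManifold 𝓘(ℂ, E) ω M]
  [MeasurableSpace M] [BorelSpace M]

/-- The supremum of all measures with psh densities and bounded mass is invariant. -/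
theorem exists_invariant [T2Space M] [CompactSpace M] [ConnectedSpace M] {f : M ≃ₜ M}
    (hf : ContMDiff 𝓘(ℂ, E) 𝓘(ℂ, E) ω f) (hf' : ContMDiff 𝓘(ℂ, E) 𝓘(ℂ, E) ω f.symm)
    {μ : Measure M} [IsFiniteMeasure μ] (hne : μ ≠ 0) (h : PshDensities E μ) :
    ∃ ν : Measure M, IsFiniteMeasure ν ∧ ν.map f = ν ∧
      ∀ U : Set M, IsOpen U → U.Nonempty → ν U ≠ 0 := by
  obtain ⟨Λ, hΛ, hb⟩ := exists_bound (E := E) (M := M) (μ univ) (measure_ne_top μ univ)
  set P : Set (Measure M) := {m | PshDensities E m ∧ m univ ≤ μ univ} with hP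
  have hle : sSup P ≤ Λ := sSup_le fun m hm => hb m hm.1 hm.2
  have hmf : Measurable f := f.continuous.measurable
  have hmf' : Measurable f.symm := f.symm.continuous.measurable
  have key : ∀ g : M ≃ₜ M, ContMDiff 𝓘(ℂ, E) 𝓘(ℂ, E) ω g → ContMDiff 𝓘(ℂ, E) 𝓘(ℂ, E) ω g.symm →
      ∀ m ∈ P, m ≤ (sSup P).map g := by
    intro g hg hg' m hm
    have hmg : Measurable g := g.continuous.measurable
    have hmg' : Measurable g.symm := g.symm.continuous.measurable
    have h1 : m.map g.symm ∈ P := by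
      refine ⟨hm.1.map_hol (f := g.symm) hg' hg, ?_⟩
      rw [Measure.map_apply hmg' MeasurableSet.univ, preimage_univ]
      exact hm.2
    have h2 : (m.map g.symm).map g ≤ (sSup P).map g := Measure.map_mono (le_sSup h1) hmg
    have h3 : (m.map g.symm).map g = m := by
      rw [Measure.map_map hmg hmg']
      have : (g ∘ g.symm : M → M) = id := funext fun x => g.apply_symm_apply x
      rw [this, Measure.map_id]
    rwa [h3] at h2
  have h1 : sSup P ≤ (sSup P).map f := sSup_le (key f hf hf')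
  have h2 : sSup P ≤ (sSup P).map f.symm := sSup_le (key f.symm hf' hf)
  have h3 : (sSup P).map f ≤ sSup P := by
    have h4 : (sSup P).map f ≤ ((sSup P).map f.symm).map f := Measure.map_mono h2 hmf
    rw [Measure.map_map hmf hmf'] at h4
    have : (f ∘ f.symm : M → M) = id := funext fun x => f.apply_symm_apply x
    rwa [this, Measure.map_id] at h4
  refine ⟨sSup P, ⟨(hle univ).trans_lt (measure_lt_top Λ univ)⟩, le_antisymm h3 h1, ?_⟩
  intro U hU hUn h0
  have hmem : μ ∈ P := ⟨h, le_rfl⟩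
  have hle' : μ ≤ sSup P := le_sSup hmem
  exact h.full_support hne U hU hUn (le_antisymm ((hle' U).trans h0.le) zero_le)

end B

section C

open Pool.Agent.H721R2 Pool.Agent.H789R2.AN

/-- Holomorphic Anosov diffeomorphisms are transitive when `K_M` is pseudo-effective. -/
theorem main {E : Type*} [NormedAddCommGroup E] [NormedSpace ℂ E] [FiniteDimensional ℂ E]
    [MeasurableSpace E] [BorelSpace E] {M : Type*} [TopologicalSpace M] [T2Space M]
    [CompactSpace M] [ConnectedSpace M] [ChartedSpace E M] [IsManifold 𝓘(ℂ, E) ω M]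
    [MeasurableSpace M] [BorelSpace M] (μ : Measure M) [IsFiniteMeasure μ] (hne : μ ≠ 0)
    (hμ : PshDensities E μ) (f : Diffeomorph 𝓘(ℝ, E) 𝓘(ℝ, E) M M 1)
    (hf : ContMDiff 𝓘(ℂ, E) 𝓘(ℂ, E) ω f) (hf' : ContMDiff 𝓘(ℂ, E) 𝓘(ℂ, E) ω f.symm)
    (Es Eu : ∀ x : M, Submodule ℝ (TangentSpace 𝓘(ℝ, E) x)) (hA : IsAnosov f Es Eu) :
    TopTransitive f := by
  obtain ⟨ν, hν, hinv, hpos⟩ := exists_invariant (f := f.toHomeomorph) hf hf' hne hμ
  exact transitive_of_measure f Es Eu hA ν hinv hpos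

end C

end Pool.Agent.H789R2.PE
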