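import Pool.Agent.H789R2.PE.Defs

set_option autoImplicit false

open scoped Manifold ContDiff Topology ENNReal
open Set Filter MeasureTheory Metric

namespace Pool.Agent.H789R2.PE

/-! Lemmas by helpers 578 (T1), 864 (T2), 339 (T3), 130 (T5). -/

section A

variable {E : Type*} [NormedAddCommGroup E] [NormedSpace ℂ E]

/-- T1 -/
theorem ExpPsh.measurable_ind [MeasurableSpace E] [BorelSpace E] {U : Set E} {u : E → ℝ}
    (h : ExpPsh U u) (hU : IsOpen U) :
    Measurable (U.indicator fun x => ENNReal.ofReal (u x)) := by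
  have hop : ∀ y : ℝ, IsOpen {x | x ∈ U ∧ u x < y} := by
    intro y
    rw [isOpen_iff_mem_nhds]
    rintro x ⟨hx, hxy⟩
    have h1 := h.usc x hx y hxy
    rw [hU.nhdsWithin_eq hx] at h1
    filter_upwards [h1, hU.mem_nhds hx] with z hz1 hz2
    exact ⟨hz2, hz1⟩
  apply measurable_of_Iio
  intro c
  by_cases hc : c = 0
  · subst hc
    have : (U.indicator fun x => ENNReal.ofReal (u x)) ⁻¹' Iio 0 = ∅ := by
      ext x
      simp
    rw [this]
    exact MeasurableSet.empty
  by_cases hct : c = ⊤
  · subst hct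
    have : (U.indicator fun x => ENNReal.ofReal (u x)) ⁻¹' Iio ⊤ = univ := by
      ext x
      simp only [mem_preimage, mem_Iio, mem_univ, iff_true]
      by_cases hx : x ∈ U
      · rw [indicator_of_mem hx]
        exact ENNReal.ofReal_lt_top
      · rw [indicator_of_notMem hx]
        exact ENNReal.zero_lt_top
    rw [this]
    exact MeasurableSet.univ
  have hc0 : 0 < c.toReal := ENNReal.toReal_pos hc hct
  have heq : (U.indicator fun x => ENNReal.ofReal (u x)) ⁻¹' Iio c =
      Uᶜ ∪ {x | x ∈ U ∧ u x < c.toReal} := by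
    ext x
    simp only [mem_preimage, mem_Iio, mem_union, mem_compl_iff, mem_ofPred_eq]
    by_cases hx : x ∈ U
    · rw [indicator_of_mem hx]
      have h2 : c = ENNReal.ofReal c.toReal := (ENNReal.ofReal_toReal hct).symm
      constructor
      · intro h3
        right
        refine ⟨hx, ?_⟩
        rw [h2] at h3
        exact (ENNReal.ofReal_lt_ofReal_iff hc0).1 h3
      · rintro (h3 | ⟨_, h3⟩)
        · exact absurd hx h3
        · rw [h2]
          exact (ENNReal.ofReal_lt_ofReal_iff hc0).2 h3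
    · rw [indicator_of_notMem hx]
      simp only [hx, not_false_eq_true, true_or, iff_true]
      exact pos_iff_ne_zero.2 hc
  rw [heq]
  exact hU.measurableSet.compl.union (hop _).measurableSet

theorem circle_aux_ofReal {α : Type*} [MeasurableSpace α] (ν : Measure α) (f : α → ℝ)
    (hf : Integrable f ν) :
    ENNReal.ofReal (∫ x, f x ∂ν) ≤ ∫⁻ x, ENNReal.ofReal (f x) ∂ν := by
  rw [integral_eq_lintegral_pos_part_sub_lintegral_neg_part hf]
  refine le_trans (ENNReal.ofReal_le_ofReal ?_) ENNReal.ofReal_toReal_le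
  have : 0 ≤ (∫⁻ x, ENNReal.ofReal (-f x) ∂ν).toReal := ENNReal.toReal_nonneg
  linarith

theorem ExpPsh.circle {U : Set E} {u : E → ℝ} (h : ExpPsh U u) {a b : E}
    (hd : ∀ ζ : ℂ, ‖ζ‖ ≤ 1 → a + ζ • b ∈ U) :
    ENNReal.ofReal (2 * Real.pi) * ENNReal.ofReal (u a) ≤
      ∫⁻ t in Ioc 0 (2 * Real.pi), ENNReal.ofReal (u (a + circleMap 0 1 t • b)) := by
  by_cases hu : u a = 0
  · simp [hu]
  obtain ⟨hae, hint, hle⟩ := h.mean a b hd hu
  have haU : a ∈ U := by
    have := hd 0 (by simp)
    simpa using this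
  have hua : 0 < u a := lt_of_le_of_ne (h.nonneg a haU) (Ne.symm hu)
  set L : ℝ → ℝ := fun t => Real.log (u (a + circleMap 0 1 t • b)) with hL
  have hpi : (0:ℝ) ≤ 2 * Real.pi := by positivity
  have hint' : IntegrableOn L (Ioc 0 (2 * Real.pi)) :=
    (intervalIntegrable_iff_integrableOn_Ioc_of_le hpi).1 hint
  set m : ℝ := Real.circleAverage (fun ζ => Real.log (u (a + ζ • b))) 0 1 with hm
  have hm' : ∫ t in Ioc 0 (2 * Real.pi), L t = 2 * Real.pi * m := by
    rw [hm, Real.circleAverage, smul_eq_mul, intervalIntegral.integral_of_le hpi]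
    field_simp
    rfl
  have hcirc : ∀ t : ℝ, a + circleMap 0 1 t • b ∈ U := fun t => hd _ (by simp [circleMap])
  have h1 : ENNReal.ofReal (∫ t in Ioc 0 (2 * Real.pi), Real.exp m * (1 + L t - m)) ≤
      ∫⁻ t in Ioc 0 (2 * Real.pi), ENNReal.ofReal (Real.exp m * (1 + L t - m)) := by
    apply circle_aux_ofReal
    apply Integrable.const_mul
    apply Integrable.sub
    · apply Integrable.add _ hint'
      exact integrable_const _
    · exact integrable_const _
  have h2 : ∫ t in Ioc 0 (2 * Real.pi), Real.exp m * (1 + L t - m) =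
      2 * Real.pi * Real.exp m := by
    rw [integral_const_mul, integral_sub, integral_add, hm']
    · simp only [setIntegral_const, smul_eq_mul, measureReal_def, Real.volume_Ioc, sub_zero,
        mul_one]
      rw [ENNReal.toReal_ofReal hpi]
      ring
    · exact integrable_const _
    · exact hint'
    · apply Integrable.add _ hint'
      exact integrable_const _
    · exact integrable_const _
  have h3 : ∫⁻ t in Ioc 0 (2 * Real.pi), ENNReal.ofReal (Real.exp m * (1 + L t - m)) ≤
      ∫⁻ t in Ioc 0 (2 * Real.pi), ENNReal.ofReal (u (a + circleMap 0 1 t • b)) := by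
    apply lintegral_mono_ae
    filter_upwards [ae_restrict_of_ae hae] with t ht
    apply ENNReal.ofReal_le_ofReal
    have hpos : 0 < u (a + circleMap 0 1 t • b) :=
      lt_of_le_of_ne (h.nonneg _ (hcirc t)) (Ne.symm ht)
    have h4 : Real.exp (L t) = u (a + circleMap 0 1 t • b) := Real.exp_log hpos
    rw [← h4]
    have h5 : Real.exp (L t) = Real.exp m * Real.exp (L t - m) := by
      rw [← Real.exp_add]; congr 1; ring
    rw [h5]
    apply mul_le_mul_of_nonneg_left _ (Real.exp_pos _).le
    have := Real.add_one_le_exp (L t - m)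
    linarith
  rw [← ENNReal.ofReal_mul hpi]
  refine le_trans ?_ (h1.trans h3)
  rw [h2]
  apply ENNReal.ofReal_le_ofReal
  apply mul_le_mul_of_nonneg_left _ hpi
  calc u a = Real.exp (Real.log (u a)) := (Real.exp_log hua).symm
    _ ≤ Real.exp m := Real.exp_le_exp.2 hle

/-- T3 -/
theorem ExpPsh.spread {U : Set E} {u : E → ℝ} (h : ExpPsh U u) {x : E} {r : ℝ}
    (hr : ball x (3 * r) ⊆ U) {W : Set E} (hW : IsOpen W) (hne : (W ∩ ball x r).Nonempty)
    (h0 : ∀ y ∈ W, u y = 0) : ∀ y ∈ ball x r, u y = 0 := by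
  obtain ⟨z, hzW, hz⟩ := hne
  intro y hy
  by_contra hu
  rw [mem_ball] at hz hy
  have hb : ‖z - y‖ ≤ 2 * r := by
    rw [← dist_eq_norm]
    have := dist_triangle z x y
    rw [dist_comm x y] at this
    linarith
  have hU : ∀ ζ : ℂ, ‖ζ‖ ≤ 1 → y + ζ • (z - y) ∈ U := by
    intro ζ hζ
    apply hr
    rw [mem_ball, dist_eq_norm]
    have e : y + ζ • (z - y) - x = (y - x) + ζ • (z - y) := by abel
    rw [e]
    refine (norm_add_le _ _).trans_lt ?_
    rw [norm_smul]
    rw [dist_eq_norm] at hy
    have : ‖ζ‖ * ‖z - y‖ ≤ 1 * (2 * r) :=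
      mul_le_mul hζ hb (norm_nonneg _) (by norm_num)
    linarith
  obtain ⟨hae, -, -⟩ := h.mean y (z - y) hU hu
  have hd := Measure.dense_of_ae hae
  have hc : Continuous fun t : ℝ => y + circleMap 0 1 t • (z - y) :=
    continuous_const.add ((continuous_circleMap 0 1).smul continuous_const)
  have hO : IsOpen {t : ℝ | y + circleMap 0 1 t • (z - y) ∈ W} := hW.preimage hc
  obtain ⟨t, ht1, ht2⟩ := hd.inter_open_nonempty _ hO ⟨0, by
    show y + circleMap 0 1 0 • (z - y) ∈ W
    have : circleMap 0 1 0 = 1 := by simp [circleMap]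
    rw [this, one_smul, add_sub_cancel]
    exact hzW⟩
  exact ht2 (h0 _ ht1)

variable [FiniteDimensional ℂ E] [MeasurableSpace E] [BorelSpace E]

theorem map_rot (z : ℂ) (hz : ‖z‖ = 1) :
    Measure.map (fun x : E => z • x) (Measure.addHaar : Measure E) = Measure.addHaar := by
  have hz0 : z ≠ 0 := by
    intro h; rw [h, norm_zero] at hz; exact zero_ne_one hz
  let e : E ≃ₗ[ℝ] E := (LinearEquiv.smulOfNeZero ℂ E z hz0).restrictScalars ℝ
  have he : ∀ x, e x = z • x := fun x => rfl
  have hdet : LinearMap.det (e : E →ₗ[ℝ] E) ≠ 0 := (LinearEquiv.isUnit_det' e).ne_zero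
  have h1 := Measure.map_linearMap_addHaar_eq_smul_addHaar (μ := (Measure.addHaar : Measure E)) hdet
  have h1' : Measure.map (fun x : E => z • x) (Measure.addHaar : Measure E) =
      ENNReal.ofReal |(LinearMap.det (e : E →ₗ[ℝ] E))⁻¹| • (Measure.addHaar : Measure E) := h1
  have hm : Measurable (fun x : E => z • x) := (continuous_const_smul z).measurable
  have h2 : Measure.map (fun x : E => z • x) (Measure.addHaar : Measure E) (ball 0 1) =
      Measure.addHaar (ball (0 : E) 1) := by
    rw [Measure.map_apply hm measurableSet_ball]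
    congr 1
    ext x
    simp [norm_smul, hz]
  rw [h1', Measure.smul_apply, smul_eq_mul] at h2
  have h3 : (Measure.addHaar (ball (0 : E) 1)) ≠ 0 := (measure_ball_pos _ _ one_pos).ne'
  have h4 : (Measure.addHaar (ball (0 : E) 1)) ≠ ⊤ := measure_ball_lt_top.ne
  have h5 : ENNReal.ofReal |(LinearMap.det (e : E →ₗ[ℝ] E))⁻¹| = 1 := by
    have := (ENNReal.mul_left_inj h3 h4).mp (h2.trans (one_mul _).symm)
    exact this
  rw [h1', h5, one_smul]

/-- T5: the inner integral is invariant under rotations and translations. -/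
theorem rot_ball {G : E → ℝ≥0∞} (hG : Measurable G) (a : E) (r : ℝ) (z : ℂ) (hz : ‖z‖ = 1) :
    ∫⁻ b in ball (0 : E) r, G (a + z • b) ∂Measure.addHaar =
      ∫⁻ x in ball a r, G x ∂Measure.addHaar := by
  rw [← lintegral_indicator measurableSet_ball, ← lintegral_indicator measurableSet_ball]
  have e1 : (ball (0 : E) r).indicator (fun b => G (a + z • b)) =
      fun b => (ball a r).indicator G (a + z • b) := by
    funext b
    have hb : b ∈ ball (0 : E) r ↔ a + z • b ∈ ball a r := by
      rw [mem_ball_zero_iff, mem_ball_iff_norm, add_sub_cancel_left, norm_smul, hz, one_mul]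
    by_cases h : b ∈ ball (0 : E) r
    · rw [indicator_of_mem h, indicator_of_mem (hb.1 h)]
    · rw [indicator_of_notMem h, indicator_of_notMem (fun h' => h (hb.2 h'))]
  rw [e1]
  have hD : Measurable ((ball a r).indicator G) := hG.indicator measurableSet_ball
  have hDa : Measurable fun x : E => (ball a r).indicator G (a + x) :=
    hD.comp (continuous_const.add continuous_id).measurable
  have hz' : Measurable fun x : E => z • x := (continuous_const_smul z).measurable
  calc ∫⁻ b, (ball a r).indicator G (a + z • b) ∂Measure.addHaar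
      = ∫⁻ x, (ball a r).indicator G (a + x) ∂(Measure.map (fun x : E => z • x)
          (Measure.addHaar : Measure E)) := (lintegral_map hDa hz').symm
    _ = ∫⁻ x, (ball a r).indicator G (a + x) ∂Measure.addHaar := by rw [map_rot z hz]
    _ = ∫⁻ x, (ball a r).indicator G x ∂Measure.addHaar :=
        lintegral_add_left_eq_self _ a

/-- T5 (uses T1, T2, T4) -/
theorem ExpPsh.ball_le {U : Set E} {u : E → ℝ} (h : ExpPsh U u) (hU : IsOpen U) {a : E} {r : ℝ}
    (hr : ball a r ⊆ U) :
    ENNReal.ofReal (u a) * Measure.addHaar (ball (0 : E) r) ≤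
      ∫⁻ x in ball a r, ENNReal.ofReal (u x) ∂Measure.addHaar := by
  set G : E → ℝ≥0∞ := U.indicator fun x => ENNReal.ofReal (u x) with hGdef
  have hG : Measurable G := h.measurable_ind hU
  have hpi : (0 : ℝ) < 2 * Real.pi := by positivity
  have hball : ∀ b ∈ ball (0 : E) r, ∀ ζ : ℂ, ‖ζ‖ ≤ 1 → a + ζ • b ∈ U := by
    intro b hb ζ hζ
    apply hr
    rw [mem_ball_iff_norm, add_sub_cancel_left, norm_smul]
    rw [mem_ball_zero_iff] at hb
    exact lt_of_le_of_lt (mul_le_of_le_one_left (norm_nonneg _) hζ) hb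
  have hcirc : ∀ t : ℝ, ‖circleMap 0 1 t‖ = 1 := by
    intro t; simp
  have h1 : ∀ b ∈ ball (0 : E) r, ENNReal.ofReal (2 * Real.pi) * ENNReal.ofReal (u a) ≤
      ∫⁻ t in Ioc 0 (2 * Real.pi), G (a + circleMap 0 1 t • b) := by
    intro b hb
    refine (h.circle (hball b hb)).trans (le_of_eq ?_)
    refine lintegral_congr fun t => ?_
    rw [hGdef, indicator_of_mem (hball b hb _ (hcirc t).le)]
  have h2 : ENNReal.ofReal (2 * Real.pi) * ENNReal.ofReal (u a) *
      Measure.addHaar (ball (0 : E) r) ≤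
      ∫⁻ b in ball (0 : E) r, (∫⁻ t in Ioc 0 (2 * Real.pi), G (a + circleMap 0 1 t • b))
        ∂Measure.addHaar := by
    rw [← setLIntegral_const]
    exact setLIntegral_mono' measurableSet_ball h1
  have hjoint : Measurable fun p : E × ℝ => G (a + circleMap 0 1 p.2 • p.1) := by
    apply hG.comp
    apply Continuous.measurable
    exact continuous_const.add (((continuous_circleMap 0 1).comp continuous_snd).smul
      continuous_fst)
  have h3 : ∫⁻ b in ball (0 : E) r, (∫⁻ t in Ioc 0 (2 * Real.pi), G (a + circleMap 0 1 t • b))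
        ∂Measure.addHaar =
      ∫⁻ t in Ioc 0 (2 * Real.pi), ∫⁻ b in ball (0 : E) r, G (a + circleMap 0 1 t • b)
        ∂Measure.addHaar :=
    lintegral_lintegral_swap hjoint.aemeasurable
  have h4 : ∫⁻ t in Ioc 0 (2 * Real.pi), ∫⁻ b in ball (0 : E) r, G (a + circleMap 0 1 t • b)
        ∂Measure.addHaar =
      (∫⁻ x in ball a r, G x ∂Measure.addHaar) * ENNReal.ofReal (2 * Real.pi) := by
    rw [lintegral_congr fun t => rot_ball hG a r (circleMap 0 1 t) (hcirc t), setLIntegral_const,
      Real.volume_Ioc, sub_zero]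
  have h5 : ∫⁻ x in ball a r, G x ∂Measure.addHaar =
      ∫⁻ x in ball a r, ENNReal.ofReal (u x) ∂Measure.addHaar := by
    refine setLIntegral_congr_fun measurableSet_ball fun x hx => ?_
    rw [hGdef, indicator_of_mem (hr hx)]
  rw [h3, h4, h5, mul_assoc, mul_comm (∫⁻ x in ball a r, ENNReal.ofReal (u x)
    ∂Measure.addHaar)] at h2
  rwa [ENNReal.mul_le_mul_iff_right (by simpa using hpi) ENNReal.ofReal_ne_top] at h2

end A

end Pool.Agent.H789R2.PE
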