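import Pool.Agent.H789R2.PE.Defs
import Pool.Agent.H789R2.AN.Man

set_option autoImplicit false

open scoped Manifold ContDiff Topology ENNReal
open Set Filter MeasureTheory Metric

namespace Pool.Agent.H789R2.PE

section A

variable {E : Type*} [NormedAddCommGroup E] [NormedSpace ℂ E]

/-- T1 -/
theorem ExpPsh.measurable_ind [MeasurableSpace E] [BorelSpace E] {U : Set E} {u : E → ℝ}
    (h : ExpPsh U u) (hU : IsOpen U) :
    Measurable (U.indicator fun x => ENNReal.ofReal (u x)) := by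
  sorry

/-- T2 -/
theorem ExpPsh.circle {U : Set E} {u : E → ℝ} (h : ExpPsh U u) {a b : E}
    (hd : ∀ ζ : ℂ, ‖ζ‖ ≤ 1 → a + ζ • b ∈ U) :
    ENNReal.ofReal (2 * Real.pi) * ENNReal.ofReal (u a) ≤
      ∫⁻ t in Ioc 0 (2 * Real.pi), ENNReal.ofReal (u (a + circleMap 0 1 t • b)) := by
  sorry

/-- T3 -/
theorem ExpPsh.spread {U : Set E} {u : E → ℝ} (h : ExpPsh U u) {x : E} {r : ℝ}
    (hr : ball x (3 * r) ⊆ U) {W : Set E} (hW : IsOpen W) (hne : (W ∩ ball x r).Nonempty)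
    (h0 : ∀ y ∈ W, u y = 0) : ∀ y ∈ ball x r, u y = 0 := by
  sorry

variable [FiniteDimensional ℂ E] [MeasurableSpace E] [BorelSpace E]

/-- T4 -/
theorem map_rot (z : ℂ) (hz : ‖z‖ = 1) :
    Measure.map (fun x : E => z • x) (Measure.addHaar : Measure E) = Measure.addHaar := by
  sorry

/-- T5 (uses T1, T2, T4) -/
theorem ExpPsh.ball_le {U : Set E} {u : E → ℝ} (h : ExpPsh U u) (hU : IsOpen U) {a : E} {r : ℝ}
    (hr : ball a r ⊆ U) :
    ENNReal.ofReal (u a) * Measure.addHaar (ball (0 : E) r) ≤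
      ∫⁻ x in ball a r, ENNReal.ofReal (u x) ∂Measure.addHaar := by
  sorry

end A

section B

variable {E : Type*} [NormedAddCommGroup E] [NormedSpace ℂ E] [FiniteDimensional ℂ E]
  [MeasurableSpace E] [BorelSpace E]
  {M : Type*} [TopologicalSpace M] [ChartedSpace E M] [IsManifold 𝓘(ℂ, E) ω M]
  [MeasurableSpace M] [BorelSpace M]

/-- T6 (uses T3, T5) -/
theorem PshDensities.full_support [T2Space M] [CompactSpace M] [ConnectedSpace M] {μ : Measure M}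
    (h : PshDensities E μ) (hne : μ ≠ 0) (U : Set M) (hU : IsOpen U) (hUn : U.Nonempty) :
    μ U ≠ 0 := by
  sorry

/-- T7 (uses T5) -/
theorem exists_bound [T2Space M] [CompactSpace M] (C : ℝ≥0∞) (hC : C ≠ ⊤) :
    ∃ Λ : Measure M, IsFiniteMeasure Λ ∧ ∀ μ : Measure M, PshDensities E μ → μ univ ≤ C → μ ≤ Λ := by
  sorry

/-- T8 -/
theorem PshDensities.map_hol {f : M ≃ₜ M} (hf : ContMDiff 𝓘(ℂ, E) 𝓘(ℂ, E) ω f)
    (hf' : ContMDiff 𝓘(ℂ, E) 𝓘(ℂ, E) ω f.symm) {μ : Measure M} (h : PshDensities E μ) :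
    PshDensities E (μ.map f) := by
  sorry

/-- T9 (uses T6, T7, T8) -/
theorem exists_invariant [T2Space M] [CompactSpace M] [ConnectedSpace M] {f : M ≃ₜ M}
    (hf : ContMDiff 𝓘(ℂ, E) 𝓘(ℂ, E) ω f) (hf' : ContMDiff 𝓘(ℂ, E) 𝓘(ℂ, E) ω f.symm)
    {μ : Measure M} [IsFiniteMeasure μ] (hne : μ ≠ 0) (h : PshDensities E μ) :
    ∃ ν : Measure M, IsFiniteMeasure ν ∧ ν.map f = ν ∧
      ∀ U : Set M, IsOpen U → U.Nonempty → ν U ≠ 0 := by
  sorry

end B

section C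

open Pool.Agent.H721R2 Pool.Agent.H789R2.AN

/-- T10 -/
theorem att_univ {X : Type*} [MetricSpace X] [ConnectedSpace X] [MeasurableSpace X]
    [BorelSpace X] {g : X ≃ₜ X} {c : ℝ} (h : LP g c) (ν : Measure X) [IsFiniteMeasure ν]
    (hν : ν.map g = ν) (hpos : ∀ U : Set X, IsOpen U → U.Nonempty → ν U ≠ 0) (A : Set X)
    (hA : IsAtt g A) : A = univ := by
  sorry

/-- T11 (uses T10; like `man_main` in Pool.Agent.H789R2.AN.Man) -/
theorem transitive_of_measure {E : Type*} [NormedAddCommGroup E] [NormedSpace ℝ E]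
    [FiniteDimensional ℝ E] {M : Type*} [TopologicalSpace M] [T2Space M] [CompactSpace M]
    [ConnectedSpace M] [ChartedSpace E M] [IsManifold 𝓘(ℝ, E) ∞ M] [MeasurableSpace M]
    [BorelSpace M] (f : Diffeomorph 𝓘(ℝ, E) 𝓘(ℝ, E) M M 1)
    (Es Eu : ∀ x : M, Submodule ℝ (TangentSpace 𝓘(ℝ, E) x)) (hA : IsAnosov f Es Eu)
    (ν : Measure M) [IsFiniteMeasure ν] (hν : ν.map f = ν)
    (hpos : ∀ U : Set M, IsOpen U → U.Nonempty → ν U ≠ 0) : TopTransitive f := by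
  sorry

/-- final -/
theorem main {E : Type*} [NormedAddCommGroup E] [NormedSpace ℂ E] [FiniteDimensional ℂ E]
    [MeasurableSpace E] [BorelSpace E] {M : Type*} [TopologicalSpace M] [T2Space M]
    [CompactSpace M] [ConnectedSpace M] [ChartedSpace E M] [IsManifold 𝓘(ℂ, E) ω M]
    [MeasurableSpace M] [BorelSpace M] (μ : Measure M) [IsFiniteMeasure μ] (hne : μ ≠ 0)
    (hμ : PshDensities E μ) (f : Diffeomorph 𝓘(ℝ, E) 𝓘(ℝ, E) M M 1)
    (hf : ContMDiff 𝓘(ℂ, E) 𝓘(ℂ, E) ω f) (hf' : ContMDiff 𝓘(ℂ, E) 𝓘(ℂ, E) ω f.symm)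
    (Es Eu : ∀ x : M, Submodule ℝ (TangentSpace 𝓘(ℝ, E) x)) (hA : IsAnosov f Es Eu) :
    TopTransitive f := by
  obtain ⟨ν, hν, hinv, hpos⟩ := exists_invariant (f := f.toHomeomorph) hf hf' hne hμ
  exact transitive_of_measure f Es Eu hA ν hinv hpos

end C

end Pool.Agent.H789R2.PE
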