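import Pool.Agent.H789R2.PE.Psh

set_option autoImplicit false

open scoped Manifold ContDiff Topology ENNReal
open Set Filter MeasureTheory Metric

namespace Pool.Agent.H789R2.PE

/-! Lemmas by helpers 627 (T6), 913 (T7), 594 (T8). -/

set_option linter.unusedSectionVars false

section B

variable {E : Type*} [NormedAddCommGroup E] [NormedSpace ℂ E] [FiniteDimensional ℂ E]
  [MeasurableSpace E] [BorelSpace E]
  {M : Type*} [TopologicalSpace M] [ChartedSpace E M] [IsManifold 𝓘(ℂ, E) ω M]
  [MeasurableSpace M] [BorelSpace M]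

/-- T6 (uses T3, T5) -/
theorem PshDensities.full_support [T2Space M] [CompactSpace M] [ConnectedSpace M] {μ : Measure M}
    (h : PshDensities E μ) (hne : μ ≠ 0) (U : Set M) (hU : IsOpen U) (hUn : U.Nonempty) :
    μ U ≠ 0 := by
  intro hU0
  set Z : Set M := {x | ∃ V : Set M, IsOpen V ∧ x ∈ V ∧ μ V = 0} with hZ
  have hZopen : IsOpen Z := by
    rw [isOpen_iff_mem_nhds]
    rintro x ⟨V, hV, hxV, hV0⟩
    filter_upwards [hV.mem_nhds hxV] with y hy
    exact ⟨V, hV, hy, hV0⟩
  have hZclosed : IsClosed Z := by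
    refine isClosed_of_closure_subset fun x hx => ?_
    set e : OpenPartialHomeomorph M E := chartAt E x with he
    have hec : HolChart e := ⟨contMDiffOn_chart, contMDiffOn_chart_symm⟩
    obtain ⟨u, hu, hμ⟩ := h e hec
    have hxs : x ∈ e.source := mem_chart_source E x
    have hxt : e x ∈ e.target := e.map_source hxs
    obtain ⟨r₀, hr₀, hball⟩ := Metric.isOpen_iff.1 e.open_target (e x) hxt
    have hr : 0 < r₀ / 3 := by positivity
    set r : ℝ := r₀ / 3 with hrdef
    have hb3 : ball (e x) (3 * r) ⊆ e.target := by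
      rw [show 3 * r = r₀ by rw [hrdef]; ring]
      exact hball
    have hb1 : ball (e x) r ⊆ e.target :=
      (ball_subset_ball (by linarith)).trans hb3
    have hO : IsOpen (e.source ∩ e ⁻¹' ball (e x) r) := e.isOpen_inter_preimage isOpen_ball
    have hxO : x ∈ e.source ∩ e ⁻¹' ball (e x) r := ⟨hxs, mem_ball_self hr⟩
    obtain ⟨z, hzO, V, hV, hzV, hV0⟩ := mem_closure_iff.1 hx _ hO hxO
    set W : Set E := (e.target ∩ e.symm ⁻¹' V) ∩ ball (e x) r with hW
    have hWo : IsOpen W := (e.isOpen_inter_preimage_symm hV).inter isOpen_ball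
    have hzW : e z ∈ W := by
      refine ⟨⟨e.map_source hzO.1, ?_⟩, hzO.2⟩
      rw [mem_preimage, e.left_inv hzO.1]
      exact hzV
    have hWt : W ⊆ e.target := fun y hy => hy.1.1
    have hWint : ∫⁻ y in W, ENNReal.ofReal (u y) ∂Measure.addHaar = 0 := by
      rw [← hμ W hWt hWo.measurableSet]
      refine measure_mono_null ?_ hV0
      rintro _ ⟨y, hy, rfl⟩
      exact hy.1.2
    have hW0 : ∀ y ∈ W, u y = 0 := by
      intro y hy
      obtain ⟨ρ, hρ, hbρ⟩ := Metric.isOpen_iff.1 hWo y hy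
      have h1 := hu.ball_le e.open_target (hbρ.trans hWt)
      have h2 : ∫⁻ x in ball y ρ, ENNReal.ofReal (u x) ∂Measure.addHaar ≤ 0 := by
        rw [← hWint]
        exact lintegral_mono_set hbρ
      have h3 := le_antisymm (h1.trans h2) zero_le
      have h4 : (Measure.addHaar : Measure E) (ball (0 : E) ρ) ≠ 0 :=
        (measure_ball_pos _ _ hρ).ne'
      have h5 : ENNReal.ofReal (u y) = 0 := by
        rcases mul_eq_zero.1 h3 with h | h
        · exact h
        · exact absurd h h4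
      exact le_antisymm (ENNReal.ofReal_eq_zero.1 h5) (hu.nonneg y (hWt hy))
    have hsp := hu.spread hb3 hWo ⟨e z, hzW, hzW.2⟩ hW0
    refine ⟨e.symm '' ball (e x) r, e.isOpen_image_symm_of_subset_target isOpen_ball hb1,
      ⟨e x, mem_ball_self hr, e.left_inv hxs⟩, ?_⟩
    rw [hμ _ hb1 measurableSet_ball, setLIntegral_congr_fun measurableSet_ball
      (g := fun _ => 0) (fun y hy => by simp [hsp y hy])]
    simp
  rcases isClopen_iff.1 ⟨hZclosed, hZopen⟩ with h1 | h1
  · obtain ⟨x, hx⟩ := hUn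
    have : x ∈ Z := ⟨U, hU, hx, hU0⟩
    rw [h1] at this
    exact this
  · apply hne
    rw [← Measure.measure_univ_eq_zero]
    refine isCompact_univ.measure_zero_of_nhdsWithin fun x _ => ?_
    have hx : x ∈ Z := by rw [h1]; exact mem_univ x
    obtain ⟨V, hV, hxV, hV0⟩ := hx
    exact ⟨V, mem_nhdsWithin_of_mem_nhds (hV.mem_nhds hxV), hV0⟩

/-- T7, one chart -/
theorem bound_chart (C : ℝ≥0∞) (hC : C ≠ ⊤) (x : M) :
    ∃ (W : Set M) (Λ : Measure M), W ∈ 𝓝 x ∧ Λ univ < ⊤ ∧
      ∀ μ : Measure M, PshDensities E μ → μ univ ≤ C → ∀ s : Set M, MeasurableSet s →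
        μ (s ∩ W) ≤ Λ s := by
  set e : OpenPartialHomeomorph M E := chartAt E x with he
  have hec : HolChart e := ⟨contMDiffOn_chart, contMDiffOn_chart_symm⟩
  have hxs : x ∈ e.source := mem_chart_source E x
  have hxt : e x ∈ e.target := e.map_source hxs
  obtain ⟨r₀, hr₀, hball⟩ := Metric.isOpen_iff.1 e.open_target (e x) hxt
  have hr : 0 < r₀ / 2 := by positivity
  set r : ℝ := r₀ / 2 with hrdef
  have hb2 : ball (e x) (2 * r) ⊆ e.target := by
    rw [show 2 * r = r₀ by rw [hrdef]; ring]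
    exact hball
  have hb1 : ball (e x) r ⊆ e.target :=
    (ball_subset_ball (by linarith)).trans hb2
  have hO : IsOpen (e.source ∩ e ⁻¹' ball (e x) r) := e.isOpen_inter_preimage isOpen_ball
  have hxO : x ∈ e.source ∩ e ⁻¹' ball (e x) r := ⟨hxs, mem_ball_self hr⟩
  have hpos : (Measure.addHaar : Measure E) (ball (0 : E) r) ≠ 0 := (measure_ball_pos _ _ hr).ne'
  have hfin : (Measure.addHaar : Measure E) (ball (0 : E) r) ≠ ⊤ := measure_ball_lt_top.ne
  have hcont : ContinuousOn e.symm (ball (e x) r) := e.continuousOn_symm.mono hb1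
  have hae : AEMeasurable e.symm ((Measure.addHaar : Measure E).restrict (ball (e x) r)) :=
    hcont.aemeasurable measurableSet_ball
  refine ⟨e.source ∩ e ⁻¹' ball (e x) r,
    (C / (Measure.addHaar : Measure E) (ball (0 : E) r)) •
      Measure.map e.symm ((Measure.addHaar : Measure E).restrict (ball (e x) r)),
    hO.mem_nhds hxO, ?_, ?_⟩
  · rw [Measure.smul_apply, smul_eq_mul]
    refine ENNReal.mul_lt_top (ENNReal.div_lt_top hC hpos) ?_
    rw [Measure.map_apply_of_aemeasurable hae MeasurableSet.univ, preimage_univ,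
      Measure.restrict_apply_univ]
    exact measure_ball_lt_top
  · intro μ hμp hμC s hs
    obtain ⟨u, hu, hμ⟩ := hμp e hec
    have hsub : s ∩ (e.source ∩ e ⁻¹' ball (e x) r) ⊆
        e.symm '' (ball (e x) r ∩ e.symm ⁻¹' s) := by
      rintro y ⟨hys, hy1, hy2⟩
      refine ⟨e y, ⟨hy2, ?_⟩, e.left_inv hy1⟩
      rw [mem_preimage, e.left_inv hy1]
      exact hys
    have hmeas : MeasurableSet (ball (e x) r ∩ e.symm ⁻¹' s) := by
      have h1 : Measurable ((ball (e x) r).domRestrict e.symm) :=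
        (continuousOn_iff_continuous_domRestrict.1 hcont).measurable
      have h2 := measurableSet_ball.subtype_image (h1 hs)
      convert h2 using 1
      ext y
      simp only [mem_inter_iff, mem_preimage, mem_image, Subtype.exists,
        exists_and_right, exists_eq_right]
      constructor
      · rintro ⟨h3, h4⟩
        exact ⟨h3, h4⟩
      · rintro ⟨h3, h4⟩
        exact ⟨h3, h4⟩
    have hle : ∀ y ∈ ball (e x) r ∩ e.symm ⁻¹' s, ENNReal.ofReal (u y) ≤
        C / (Measure.addHaar : Measure E) (ball (0 : E) r) := by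
      rintro y ⟨hy, -⟩
      have hby : ball y r ⊆ e.target := by
        refine Subset.trans ?_ hb2
        refine (ball_subset_ball' ?_)
        have := mem_ball.1 hy
        linarith
      rw [ENNReal.le_div_iff_mul_le (Or.inl hpos) (Or.inl hfin)]
      refine (hu.ball_le e.open_target hby).trans ?_
      rw [← hμ _ hby measurableSet_ball]
      exact (measure_mono (subset_univ _)).trans hμC
    calc μ (s ∩ (e.source ∩ e ⁻¹' ball (e x) r))
        ≤ μ (e.symm '' (ball (e x) r ∩ e.symm ⁻¹' s)) := measure_mono hsub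
      _ = ∫⁻ y in ball (e x) r ∩ e.symm ⁻¹' s, ENNReal.ofReal (u y) ∂Measure.addHaar :=
          hμ _ (inter_subset_left.trans hb1) hmeas
      _ ≤ ∫⁻ _ in ball (e x) r ∩ e.symm ⁻¹' s,
          (C / (Measure.addHaar : Measure E) (ball (0 : E) r)) ∂Measure.addHaar :=
          setLIntegral_mono' hmeas hle
      _ = (C / (Measure.addHaar : Measure E) (ball (0 : E) r)) *
          (Measure.addHaar : Measure E) (ball (e x) r ∩ e.symm ⁻¹' s) := setLIntegral_const _ _
      _ = _ := by
          rw [Measure.smul_apply, smul_eq_mul, Measure.map_apply_of_aemeasurable hae hs,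
            Measure.restrict_apply' measurableSet_ball, inter_comm]

/-- T7 (uses T5) -/
theorem exists_bound [T2Space M] [CompactSpace M] (C : ℝ≥0∞) (hC : C ≠ ⊤) :
    ∃ Λ : Measure M, IsFiniteMeasure Λ ∧ ∀ μ : Measure M, PshDensities E μ → μ univ ≤ C → μ ≤ Λ := by
  choose W L hW hL h using fun x : M => bound_chart (E := E) C hC x
  obtain ⟨t, ht⟩ := CompactSpace.elim_nhds_subcover W hW
  refine ⟨∑ x ∈ t, L x, ⟨?_⟩, ?_⟩
  · rw [Measure.finsetSum_apply]
    exact ENNReal.sum_lt_top.2 fun x _ => hL x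
  · intro μ hμ hμC
    rw [Measure.le_iff]
    intro s hs
    have hcov : s ⊆ ⋃ x ∈ t, s ∩ W x := by
      intro y hy
      have : y ∈ ⋃ x ∈ t, W x := by rw [ht]; trivial
      simp only [mem_iUnion, exists_prop] at this ⊢
      obtain ⟨x, hx, hyx⟩ := this
      exact ⟨x, hx, hy, hyx⟩
    calc μ s ≤ μ (⋃ x ∈ t, s ∩ W x) := measure_mono hcov
      _ ≤ ∑ x ∈ t, μ (s ∩ W x) := measure_biUnion_finset_le t _
      _ ≤ ∑ x ∈ t, L x s := Finset.sum_le_sum fun x _ => h x μ hμ hμC s hs
      _ = (∑ x ∈ t, L x) s := (Measure.finsetSum_apply _ _ _).symm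

/-- T8 -/
theorem PshDensities.map_hol {f : M ≃ₜ M} (hf : ContMDiff 𝓘(ℂ, E) 𝓘(ℂ, E) ω f)
    (hf' : ContMDiff 𝓘(ℂ, E) 𝓘(ℂ, E) ω f.symm) {μ : Measure M} (h : PshDensities E μ) :
    PshDensities E (μ.map f) := by
  intro e he
  set e2 : OpenPartialHomeomorph M E := f.toOpenPartialHomeomorph.trans e with he2
  have htgt : e2.target = e.target := by
    rw [he2, OpenPartialHomeomorph.trans_target]
    simp
  have hsrc : e2.source = f ⁻¹' e.source := by
    rw [he2, OpenPartialHomeomorph.trans_source]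
    simp
  have hc : HolChart e2 := by
    constructor
    · have h1 : ContMDiffOn 𝓘(ℂ, E) 𝓘(ℂ, E) ω (e ∘ f) (f ⁻¹' e.source) :=
        he.hol.comp hf.contMDiffOn (fun x hx => hx)
      rw [hsrc]
      exact h1
    · have h1 : ContMDiffOn 𝓘(ℂ, E) 𝓘(ℂ, E) ω (f.symm ∘ e.symm) e.target :=
        hf'.comp_contMDiffOn he.hol_symm
      rw [htgt]
      exact h1
  obtain ⟨u, hu, hm⟩ := h e2 hc
  refine ⟨u, htgt ▸ hu, ?_⟩
  intro s hs hsm
  rw [← hm s (htgt ▸ hs) hsm]
  have e1 : (μ.map f) (e.symm '' s) = μ (f ⁻¹' (e.symm '' s)) :=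
    f.toMeasurableEquiv.map_apply _
  rw [e1]
  congr 1
  have e3 : e2.symm '' s = f.symm '' (e.symm '' s) := by
    rw [← image_comp]
    rfl
  rw [e3]
  exact (f.symm.image_eq_preimage_symm _).symm

end B

end Pool.Agent.H789R2.PE
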