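import Pool.Agent.H789R2.PE.Supp

set_option autoImplicit false

open scoped Manifold ContDiff Topology ENNReal
open Set Filter MeasureTheory Metric

namespace Pool.Agent.H789R2.PE

/-! Lemma by helper 627 (T6), without compactness. -/

set_option linter.unusedSectionVars false

section B

variable {E : Type*} [NormedAddCommGroup E] [NormedSpace ℂ E] [FiniteDimensional ℂ E]
  [MeasurableSpace E] [BorelSpace E]
  {M : Type*} [TopologicalSpace M] [ChartedSpace E M] [IsManifold 𝓘(ℂ, E) ω M]
  [MeasurableSpace M] [BorelSpace M]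

/-- T6 without compactness. -/
theorem PshDensities.full_support_sc [SecondCountableTopology M] [ConnectedSpace M] {μ : Measure M}
    (h : PshDensities E μ) (hne : μ ≠ 0) (U : Set M) (hU : IsOpen U) (hUn : U.Nonempty) :
    μ U ≠ 0 := by
  intro hU0
  set Z : Set M := {x | ∃ V : Set M, IsOpen V ∧ x ∈ V ∧ μ V = 0} with hZ
  have hZopen : IsOpen Z := by
    rw [isOpen_iff_mem_nhds]
    rintro x ⟨V, hV, hxV, hV0⟩
    filter_upwards [hV.mem_nhds hxV] with y hy
    exact ⟨V, hV, hy, hV0⟩
  have hZclosed : IsClosed Z := by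
    refine isClosed_of_closure_subset fun x hx => ?_
    set e : OpenPartialHomeomorph M E := chartAt E x with he
    have hec : HolChart e := ⟨contMDiffOn_chart, contMDiffOn_chart_symm⟩
    obtain ⟨u, hu, hμ⟩ := h e hec
    have hxs : x ∈ e.source := mem_chart_source E x
    have hxt : e x ∈ e.target := e.map_source hxs
    obtain ⟨r₀, hr₀, hball⟩ := Metric.isOpen_iff.1 e.open_target (e x) hxt
    have hr : 0 < r₀ / 3 := by positivity
    set r : ℝ := r₀ / 3 with hrdef
    have hb3 : ball (e x) (3 * r) ⊆ e.target := by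
      rw [show 3 * r = r₀ by rw [hrdef]; ring]
      exact hball
    have hb1 : ball (e x) r ⊆ e.target :=
      (ball_subset_ball (by linarith)).trans hb3
    have hO : IsOpen (e.source ∩ e ⁻¹' ball (e x) r) := e.isOpen_inter_preimage isOpen_ball
    have hxO : x ∈ e.source ∩ e ⁻¹' ball (e x) r := ⟨hxs, mem_ball_self hr⟩
    obtain ⟨z, hzO, V, hV, hzV, hV0⟩ := mem_closure_iff.1 hx _ hO hxO
    set W : Set E := (e.target ∩ e.symm ⁻¹' V) ∩ ball (e x) r with hW
    have hWo : IsOpen W := (e.isOpen_inter_preimage_symm hV).inter isOpen_ball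
    have hzW : e z ∈ W := by
      refine ⟨⟨e.map_source hzO.1, ?_⟩, hzO.2⟩
      rw [mem_preimage, e.left_inv hzO.1]
      exact hzV
    have hWt : W ⊆ e.target := fun y hy => hy.1.1
    have hWint : ∫⁻ y in W, ENNReal.ofReal (u y) ∂Measure.addHaar = 0 := by
      rw [← hμ W hWt hWo.measurableSet]
      refine measure_mono_null ?_ hV0
      rintro _ ⟨y, hy, rfl⟩
      exact hy.1.2
    have hW0 : ∀ y ∈ W, u y = 0 := by
      intro y hy
      obtain ⟨ρ, hρ, hbρ⟩ := Metric.isOpen_iff.1 hWo y hy
      have h1 := hu.ball_le e.open_target (hbρ.trans hWt)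
      have h2 : ∫⁻ x in ball y ρ, ENNReal.ofReal (u x) ∂Measure.addHaar ≤ 0 := by
        rw [← hWint]
        exact lintegral_mono_set hbρ
      have h3 := le_antisymm (h1.trans h2) zero_le
      have h4 : (Measure.addHaar : Measure E) (ball (0 : E) ρ) ≠ 0 :=
        (measure_ball_pos _ _ hρ).ne'
      have h5 : ENNReal.ofReal (u y) = 0 := by
        rcases mul_eq_zero.1 h3 with h | h
        · exact h
        · exact absurd h h4
      exact le_antisymm (ENNReal.ofReal_eq_zero.1 h5) (hu.nonneg y (hWt hy))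
    have hsp := hu.spread hb3 hWo ⟨e z, hzW, hzW.2⟩ hW0
    refine ⟨e.symm '' ball (e x) r, e.isOpen_image_symm_of_subset_target isOpen_ball hb1,
      ⟨e x, mem_ball_self hr, e.left_inv hxs⟩, ?_⟩
    rw [hμ _ hb1 measurableSet_ball, setLIntegral_congr_fun measurableSet_ball
      (g := fun _ => 0) (fun y hy => by simp [hsp y hy])]
    simp
  rcases isClopen_iff.1 ⟨hZclosed, hZopen⟩ with h1 | h1
  · obtain ⟨x, hx⟩ := hUn
    have : x ∈ Z := ⟨U, hU, hx, hU0⟩
    rw [h1] at this
    exact this
  · apply hne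
    rw [← Measure.measure_univ_eq_zero]
    refine measure_null_of_locally_null _ fun x _ => ?_
    have hx : x ∈ Z := by rw [h1]; exact mem_univ x
    obtain ⟨V, hV, hxV, hV0⟩ := hx
    exact ⟨V, mem_nhdsWithin_of_mem_nhds (hV.mem_nhds hxV), hV0⟩

end B

end Pool.Agent.H789R2.PE
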