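import Pool.Agent.H789R2.AN.Top

/-! Task T10 of project PE (helper133): attractors are everything if a finite invariant measure
charges all open sets. -/

set_option autoImplicit false

open Set Filter MeasureTheory Metric Topology

namespace Pool.Agent.H789R2.PE

open Pool.Agent.H789R2.AN

/-- T10 -/
theorem att_univ {X : Type*} [MetricSpace X] [ConnectedSpace X] [MeasurableSpace X]
    [BorelSpace X] {g : X ≃ₜ X} {c : ℝ} (h : LP g c) (ν : Measure X) [IsFiniteMeasure ν]
    (hν : ν.map g = ν) (hpos : ∀ U : Set X, IsOpen U → U.Nonempty → ν U ≠ 0) (A : Set X)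
    (hA : IsAtt g A) : A = univ := by
  have hmp : MeasurePreserving g ν ν := ⟨g.continuous.measurable, hν⟩
  have hcons : Conservative g ν := hmp.conservative
  obtain ⟨δ, hδ, hnear⟩ := h.near
  have hopen : IsOpen A := by
    rw [Metric.isOpen_iff]
    intro x hx
    refine ⟨δ, hδ, fun y hy => ?_⟩
    rw [Metric.mem_ball] at hy
    by_contra hyA
    have hη : 0 < infDist y A := (hA.closed.notMem_iff_infDist_pos hA.nonempty).mp hyA
    obtain ⟨W, hW⟩ : ∃ W : Set X, W = {w | ∃ x ∈ A, dist w x < δ} ∩ {w | infDist y A / 2 < infDist w A} :=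
      ⟨_, rfl⟩
    have hWo : IsOpen W := by
      rw [hW]
      refine IsOpen.inter ?_ (isOpen_lt continuous_const (continuous_infDist_pt A))
      have : {w : X | ∃ x ∈ A, dist w x < δ} = ⋃ x ∈ A, ball x δ := by
        ext w
        simp [Metric.mem_ball]
      rw [this]
      exact isOpen_biUnion fun x _ => isOpen_ball
    have hyW : y ∈ W := by
      rw [hW]
      exact ⟨⟨x, hx, hy⟩, by simp only [Set.mem_ofPred_eq]; linarith⟩
    have hW0 : ν W ≠ 0 := hpos W hWo ⟨y, hyW⟩
    have hfreq := hcons.ae_mem_imp_frequently_image_mem hWo.measurableSet.nullMeasurableSet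
    have hnot : ∀ w ∈ W, ¬ ∃ᶠ n in atTop, g^[n] w ∈ W := by
      intro w hw hcon
      rw [hW] at hw
      obtain ⟨⟨x', hx', hwx⟩, -⟩ := hw
      obtain ⟨z, hz, hSR⟩ := hnear A hA x' hx' w hwx
      have hlim : Tendsto (fun n : ℕ => c * (1 / 2 : ℝ) ^ n) atTop (𝓝 0) := by
        have := (tendsto_pow_atTop_nhds_zero_of_lt_one (by norm_num : (0:ℝ) ≤ 1 / 2)
          (by norm_num)).const_mul c
        simpa using this
      have hev := (tendsto_order.mp hlim).2 (infDist y A / 2) (by linarith)
      obtain ⟨n, hn1, hn2⟩ := (hcon.and_eventually hev).exists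
      rw [hW] at hn1
      have h1 : infDist (g^[n] w) A ≤ dist (g^[n] w) (g^[n] z) :=
        infDist_le_dist_of_mem ((inv_iter hA.inv n z).mpr hz)
      have h2 := h.cS w z hSR n
      have h3 : infDist y A / 2 < infDist (g^[n] w) A := hn1.2
      linarith
    apply hW0
    rw [measure_eq_zero_iff_ae_notMem]
    filter_upwards [hfreq] with w hw hwW
    exact hnot w hwW (hw hwW)
  exact IsClopen.eq_univ ⟨hA.closed, hopen⟩ hA.nonempty

end Pool.Agent.H789R2.PE
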