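import Mathlib

/-! Task T4: the Haar measure of a complex vector space is invariant under rotations. -/

set_option autoImplicit false

open scoped Topology ENNReal
open Set Filter MeasureTheory Metric

namespace Pool.Agent.H789R2.PE

variable {E : Type*} [NormedAddCommGroup E] [NormedSpace ℂ E]
variable [FiniteDimensional ℂ E] [MeasurableSpace E] [BorelSpace E]

/-- T4 -/
theorem map_rot (z : ℂ) (hz : ‖z‖ = 1) :
    Measure.map (fun x : E => z • x) (Measure.addHaar : Measure E) = Measure.addHaar := by
  have hz0 : z ≠ 0 := by
    rintro rfl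
    rw [norm_zero] at hz
    exact zero_ne_one hz
  haveI : FiniteDimensional ℝ E := FiniteDimensional.complexToReal E
  let f : E →ₗ[ℝ] E :=
    { toFun := fun x => z • x
      map_add' := fun x y => smul_add z x y
      map_smul' := fun c x => smul_comm z c x }
  have hfe : (fun x : E => z • x) = f := rfl
  have hinj : Function.Injective f := smul_right_injective E hz0
  have hdet : LinearMap.det f ≠ 0 := by
    have h1 : LinearMap.ker f = ⊥ := LinearMap.ker_eq_bot.mpr hinj
    intro h
    have := (LinearMap.bot_lt_ker_of_det_eq_zero h).ne'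
    exact this h1
  have hmap := Measure.map_linearMap_addHaar_eq_smul_addHaar (μ := (Measure.addHaar : Measure E)) hdet
  rw [hfe, hmap]
  have hmeas : Measurable f := by
    have : Continuous f := (continuous_const_smul z)
    exact this.measurable
  have hball : f ⁻¹' (ball (0 : E) 1) = ball (0 : E) 1 := by
    ext x
    rw [mem_preimage, mem_ball_zero_iff, mem_ball_zero_iff]
    show ‖z • x‖ < 1 ↔ _
    rw [norm_smul, hz, one_mul]
  have h2 := congrArg (fun μ : Measure E => μ (ball (0 : E) 1)) hmap
  rw [Measure.map_apply hmeas measurableSet_ball, hball, Measure.smul_apply, smul_eq_mul] at h2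
  have hpos : (Measure.addHaar : Measure E) (ball (0 : E) 1) ≠ 0 :=
    (measure_ball_pos _ _ one_pos).ne'
  have hfin : (Measure.addHaar : Measure E) (ball (0 : E) 1) ≠ ∞ := measure_ball_lt_top.ne
  have h3 : ENNReal.ofReal |(LinearMap.det f)⁻¹| = 1 := by
    have h4 : 1 * (Measure.addHaar : Measure E) (ball (0 : E) 1) =
        ENNReal.ofReal |(LinearMap.det f)⁻¹| * (Measure.addHaar : Measure E) (ball (0 : E) 1) := by
      rw [one_mul]; exact h2
    exact ((ENNReal.mul_left_inj hpos hfin).mp h4).symm
  rw [h3, one_smul]

end Pool.Agent.H789R2.PE
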