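import Pool.Agent.H789R2.PE.TRDefs

set_option autoImplicit false

open scoped Manifold ContDiff Topology ENNReal
open Set Filter MeasureTheory Metric

namespace Pool.Agent.H789R2.PE

/-! Lemmas by helpers 325 (R3), 955 (R4b), 131 (R4c), 881 (R5). -/

set_option linter.unusedSectionVars false

section B

lemma det_real_aux {n : ℕ} (L : (Fin n → ℂ) →L[ℂ] (Fin n → ℂ))
    (A : (Fin n → ℝ) →L[ℝ] (Fin n → ℝ)) (h : ∀ v, L (cx v) = cx (A v)) :
    LinearMap.det (L : (Fin n → ℂ) →ₗ[ℂ] (Fin n → ℂ)) = ((A.det : ℝ) : ℂ) := by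
  have hA : A.det = (LinearMap.toMatrix' (A : (Fin n → ℝ) →ₗ[ℝ] (Fin n → ℝ))).det :=
    (LinearMap.det_toMatrix' _).symm
  rw [hA, ← LinearMap.det_toMatrix', ← Complex.ofRealHom_eq_coe, RingHom.map_det]
  congr 1
  ext i j
  have h1 : (Pi.single j 1 : Fin n → ℂ) = cx (Pi.single j 1) := by
    funext k
    unfold cx
    by_cases hk : k = j
    · subst hk; simp
    · simp [Pi.single_eq_of_ne hk]
  rw [LinearMap.toMatrix'_apply, RingHom.mapMatrix_apply, Matrix.map_apply,
    LinearMap.toMatrix'_apply]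
  have h2 := congrFun (h (Pi.single j 1)) i
  rw [← h1] at h2
  exact h2

/-- R3 -/
theorem det_real {n : ℕ} (L : (Fin n → ℂ) →L[ℂ] (Fin n → ℂ)) (A : (Fin n → ℝ) →L[ℝ] (Fin n → ℝ))
    (h : ∀ v, L (cx v) = cx (A v)) : |(L.restrictScalars ℝ).det| = A.det ^ 2 := by
  have h1 : (L.restrictScalars ℝ).det =
      Algebra.norm ℝ (LinearMap.det (L : (Fin n → ℂ) →ₗ[ℂ] (Fin n → ℂ))) :=
    LinearMap.det_restrictScalars
  rw [h1, det_real_aux L A h, Algebra.norm_complex_apply, Complex.normSq_ofReal, abs_mul_self]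
  ring

end B

theorem one_sub_ne_R4b {z : ℂ} (hz : ‖z‖ < 1) : (1 : ℂ) - z ≠ 0 := by
  intro h
  have : z = 1 := (sub_eq_zero.1 h).symm
  rw [this, norm_one] at hz
  exact lt_irrefl _ hz

theorem quot_re_im_R4b {z : ℂ} (hz : ‖z‖ < 1) (him : 0 < z.im) :
    0 < ((1 + z) / (1 - z)).re ∧ 0 < ((1 + z) / (1 - z)).im := by
  have h1 := one_sub_ne_R4b hz
  have hn : 0 < Complex.normSq (1 - z) := Complex.normSq_pos.2 h1
  have hzz : z.re ^ 2 + z.im ^ 2 < 1 := by
    have h2 : ‖z‖ ^ 2 < 1 := by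
      have := norm_nonneg z
      nlinarith
    rw [Complex.sq_norm, Complex.normSq_apply] at h2
    nlinarith
  constructor
  · rw [Complex.div_re]
    rw [← add_div]
    apply div_pos _ hn
    simp only [Complex.add_re, Complex.one_re, Complex.sub_re, Complex.add_im, Complex.one_im,
      Complex.sub_im]
    nlinarith
  · rw [Complex.div_im]
    rw [← sub_div]
    apply div_pos _ hn
    simp only [Complex.add_re, Complex.one_re, Complex.sub_re, Complex.add_im, Complex.one_im,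
      Complex.sub_im]
    nlinarith

theorem ghi_maps {z : ℂ} (hz : ‖z‖ < 1) (hz' : 0 < z.im) : ‖ghi z‖ < 1 ∧ gh (ghi z) = z := by
  have h1 := one_sub_ne_R4b hz
  obtain ⟨hre, him'⟩ := quot_re_im_R4b hz hz'
  set q : ℂ := (1 + z) / (1 - z) with hq
  have hsim : 0 < (q ^ 2).im := by
    rw [sq, Complex.mul_im]
    nlinarith [mul_pos hre him']
  have hsI : q ^ 2 + Complex.I ≠ 0 := by
    intro h
    have := congrArg Complex.im h
    simp only [Complex.add_im, Complex.I_im, Complex.zero_im] at this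
    linarith
  have hlt : ‖q ^ 2 - Complex.I‖ < ‖q ^ 2 + Complex.I‖ := by
    have h2 : ‖q ^ 2 - Complex.I‖ ^ 2 < ‖q ^ 2 + Complex.I‖ ^ 2 := by
      rw [Complex.sq_norm, Complex.sq_norm, Complex.normSq_apply, Complex.normSq_apply]
      simp only [Complex.add_re, Complex.sub_re, Complex.I_re, Complex.add_im, Complex.sub_im,
        Complex.I_im]
      nlinarith
    exact lt_of_pow_lt_pow_left₀ 2 (norm_nonneg _) h2
  have hdef : ghi z = (q ^ 2 - Complex.I) / (q ^ 2 + Complex.I) := rfl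
  refine ⟨?_, ?_⟩
  · rw [hdef, norm_div, div_lt_one (norm_pos_iff.2 hsI)]
    exact hlt
  · have e1 : Complex.I * (1 + ghi z) / (1 - ghi z) = q ^ 2 := by
      have hI : (1 : ℂ) - ghi z ≠ 0 := by
        rw [hdef]
        have : (1 : ℂ) - (q ^ 2 - Complex.I) / (q ^ 2 + Complex.I) = 2 * Complex.I / (q ^ 2 + Complex.I) := by
          field_simp
          ring
        rw [this]
        exact div_ne_zero (mul_ne_zero two_ne_zero Complex.I_ne_zero) hsI
      rw [div_eq_iff hI, hdef]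
      field_simp
      ring
    have e2 : gq (ghi z) = q := by
      rw [gq, e1]
      have := Complex.sq_cpow_two_inv (x := q) hre
      rw [one_div]
      exact this
    rw [gh, e2, hq]
    have h2 : (1 + z) / (1 - z) + 1 = 2 / (1 - z) := by
      field_simp
      ring
    have h3 : (1 + z) / (1 - z) - 1 = 2 * z / (1 - z) := by
      field_simp
      ring
    rw [h2, h3]
    field_simp

section R4c

open Complex

theorem r4c_ne (z : ℂ) (hz : ‖z‖ < 1) : (1 : ℂ) - z ≠ 0 := by
  intro h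
  have : z = 1 := (sub_eq_zero.1 h).symm
  rw [this] at hz
  simp at hz

theorem r4c_re (z : ℂ) (hz : ‖z‖ < 1) : 0 < ((1 + z) / (1 - z)).re := by
  have h1 := r4c_ne z hz
  have hn : 0 < normSq (1 - z) := normSq_pos.2 h1
  have h2 : z.re * z.re + z.im * z.im < 1 := by
    have : normSq z < 1 := by
      rw [normSq_eq_norm_sq]
      have := norm_nonneg z
      nlinarith
    rw [normSq_apply] at this
    exact this
  rw [div_re, ← add_div]
  apply div_pos _ hn
  simp only [add_re, one_re, sub_re, add_im, one_im, sub_im]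
  nlinarith

theorem r4c_im (z : ℂ) (hz : ‖z‖ < 1) (hi : 0 < z.im) : 0 < ((1 + z) / (1 - z)).im := by
  have h1 := r4c_ne z hz
  have hn : 0 < normSq (1 - z) := normSq_pos.2 h1
  rw [div_im, ← sub_div]
  apply div_pos _ hn
  simp only [add_re, one_re, sub_re, add_im, one_im, sub_im]
  nlinarith

theorem r4c_s_im (z : ℂ) (hz : ‖z‖ < 1) : 0 < (I * (1 + z) / (1 - z)).im := by
  rw [mul_div_assoc, I_mul_im]
  exact r4c_re z hz

theorem r4c_slit (z : ℂ) (hz : ‖z‖ < 1) : (I * (1 + z) / (1 - z)) ∈ slitPlane := by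
  rw [mem_slitPlane_iff]
  right
  exact (r4c_s_im z hz).ne'

theorem r4c_q_re (z : ℂ) (hz : ‖z‖ < 1) : 0 < (gq z).re := by
  unfold gq
  set s := I * (1 + z) / (1 - z) with hs
  have hsim : 0 < s.im := r4c_s_im z hz
  have hs0 : s ≠ 0 := by
    intro h
    rw [h] at hsim
    simp at hsim
  rw [cpow_def_of_ne_zero hs0, exp_re]
  apply mul_pos (Real.exp_pos _)
  have h1 : (log s * (1 / 2 : ℂ)).im = arg s / 2 := by
    rw [mul_im, log_im]
    have e1 : (1 / 2 : ℂ).re = 1 / 2 := by norm_num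
    have e2 : (1 / 2 : ℂ).im = 0 := by norm_num
    rw [e1, e2]
    ring
  rw [h1]
  apply Real.cos_pos_of_mem_Ioo
  have h2 := neg_pi_lt_arg s
  have h3 := arg_le_pi s
  have h4 : arg s ≠ Real.pi := by
    intro h
    rw [arg_eq_pi_iff] at h
    exact hsim.ne' h.2
  have h5 : arg s < Real.pi := lt_of_le_of_ne h3 h4
  constructor <;> linarith

theorem gh_diff : DifferentiableOn ℂ gh (Metric.ball 0 1) := by
  have hq : DifferentiableOn ℂ gq (Metric.ball 0 1) := by
    intro z hz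
    rw [mem_ball_zero_iff] at hz
    have h1 := r4c_ne z hz
    have h2 : DifferentiableAt ℂ (fun z : ℂ => I * (1 + z) / (1 - z)) z := by
      apply DifferentiableAt.div
      · fun_prop
      · fun_prop
      · exact h1
    exact (h2.cpow_const (r4c_slit z hz)).differentiableWithinAt
  apply DifferentiableOn.div (hq.sub_const 1) (hq.add_const 1)
  intro z hz h
  rw [mem_ball_zero_iff] at hz
  have h1 := r4c_q_re z hz
  have h2 : (gq z + 1).re = 0 := by rw [h]; rfl
  rw [add_re, one_re] at h2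
  linarith

theorem ghi_diff : DifferentiableOn ℂ ghi {z | ‖z‖ < 1 ∧ 0 < z.im} := by
  intro z hz
  have h1 := r4c_ne z hz.1
  have h2 : DifferentiableAt ℂ (fun z : ℂ => ((1 + z) / (1 - z)) ^ 2) z := by
    apply DifferentiableAt.pow
    apply DifferentiableAt.div
    · fun_prop
    · fun_prop
    · exact h1
  apply DifferentiableAt.differentiableWithinAt
  apply DifferentiableAt.div (h2.sub_const I) (h2.add_const I)
  intro h
  have h3 := r4c_re z hz.1
  have h4 := r4c_im z hz.1 hz.2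
  have h5 : (((1 + z) / (1 - z)) ^ 2 + I).im = 0 := by rw [h]; rfl
  rw [add_im, I_im, pow_two, mul_im] at h5
  nlinarith [mul_pos h3 h4]

theorem gh_zero : (gh 0).re = 0 ∧ 0 < (gh 0).im := by
  have h0 : gq 0 = exp ((Real.pi / 4 : ℝ) * I) := by
    unfold gq
    rw [add_zero, sub_zero, mul_one, div_one, cpow_def_of_ne_zero I_ne_zero, log_I]
    congr 1
    push_cast
    ring
  have h1 : (gq 0).re = Real.cos (Real.pi / 4) := by
    rw [h0, exp_ofReal_mul_I_re]
  have h2 : (gq 0).im = Real.sin (Real.pi / 4) := by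
    rw [h0, exp_ofReal_mul_I_im]
  have h3 := Real.sin_sq_add_cos_sq (Real.pi / 4)
  have h4 : 0 < Real.sin (Real.pi / 4) := by
    apply Real.sin_pos_of_pos_of_lt_pi <;> linarith [Real.pi_pos]
  have h5 : 0 < Real.cos (Real.pi / 4) := by
    apply Real.cos_pos_of_mem_Ioo
    constructor <;> linarith [Real.pi_pos]
  have hn : 0 < normSq (gq 0 + 1) := by
    rw [normSq_pos]
    intro h
    have h6 : (gq 0 + 1).re = 0 := by rw [h]; rfl
    rw [add_re, one_re, h1] at h6
    linarith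
  unfold gh
  constructor
  · rw [div_re, ← add_div, div_eq_zero_iff]
    left
    simp only [sub_re, one_re, add_re, sub_im, one_im, add_im, h1, h2]
    nlinarith
  · rw [div_im, ← sub_div]
    apply div_pos _ hn
    simp only [sub_re, one_re, add_re, sub_im, one_im, add_im, h1, h2]
    nlinarith

end R4c

theorem r4a_q_im (z : ℂ) (hz : ‖z‖ < 1) : 0 < (gq z).im := by
  unfold gq
  set s := Complex.I * (1 + z) / (1 - z) with hs
  have hsim : 0 < s.im := r4c_s_im z hz
  have hs0 : s ≠ 0 := by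
    intro h
    rw [h] at hsim
    simp at hsim
  rw [Complex.cpow_def_of_ne_zero hs0, Complex.exp_im]
  apply mul_pos (Real.exp_pos _)
  have h1 : (Complex.log s * (1 / 2 : ℂ)).im = Complex.arg s / 2 := by
    rw [Complex.mul_im, Complex.log_im]
    have e1 : (1 / 2 : ℂ).re = 1 / 2 := by norm_num
    have e2 : (1 / 2 : ℂ).im = 0 := by norm_num
    rw [e1, e2]
    ring
  rw [h1]
  have h3 := Complex.arg_le_pi s
  have h6 : 0 < Complex.arg s := by
    have h7 : 0 ≤ Complex.arg s := Complex.arg_nonneg_iff.2 hsim.le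
    rcases h7.lt_or_eq with h | h
    · exact h
    · exfalso
      have := (Complex.arg_eq_zero_iff.1 h.symm).2
      exact hsim.ne' this
  apply Real.sin_pos_of_pos_of_lt_pi
  · linarith
  · linarith [Real.pi_pos]

/-- R4a -/
theorem gh_maps {ζ : ℂ} (hζ : ‖ζ‖ < 1) : ‖gh ζ‖ < 1 ∧ 0 < (gh ζ).im ∧ ghi (gh ζ) = ζ := by
  have hre := r4c_q_re ζ hζ
  have him := r4a_q_im ζ hζ
  have h1 := r4c_ne ζ hζ
  have hq1 : gq ζ + 1 ≠ 0 := by
    intro h
    have h2 : (gq ζ + 1).re = 0 := by rw [h]; rfl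
    rw [Complex.add_re, Complex.one_re] at h2
    linarith
  have hsq : gq ζ ^ 2 = Complex.I * (1 + ζ) / (1 - ζ) := by
    unfold gq
    rw [← Complex.cpow_nat_mul]
    simp
  refine ⟨?_, ?_, ?_⟩
  · rw [gh, norm_div, div_lt_one (norm_pos_iff.2 hq1)]
    have h2 : ‖gq ζ - 1‖ ^ 2 < ‖gq ζ + 1‖ ^ 2 := by
      rw [Complex.sq_norm, Complex.sq_norm, Complex.normSq_apply, Complex.normSq_apply]
      simp only [Complex.add_re, Complex.sub_re, Complex.one_re, Complex.add_im, Complex.sub_im,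
        Complex.one_im]
      nlinarith
    exact lt_of_pow_lt_pow_left₀ 2 (norm_nonneg _) h2
  · have hn : 0 < Complex.normSq (gq ζ + 1) := Complex.normSq_pos.2 hq1
    rw [gh, Complex.div_im, ← sub_div]
    apply div_pos _ hn
    simp only [Complex.add_re, Complex.one_re, Complex.sub_re, Complex.add_im, Complex.one_im,
      Complex.sub_im]
    nlinarith
  · have h3 : (1 + gh ζ) / (1 - gh ζ) = gq ζ := by
      have h4 : 1 + gh ζ = 2 * gq ζ / (gq ζ + 1) := by
        rw [gh]
        field_simp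
        ring
      have h5 : 1 - gh ζ = 2 / (gq ζ + 1) := by
        rw [gh]
        field_simp
        ring
      rw [h4, h5]
      field_simp
    have hsI : Complex.I * (1 + ζ) / (1 - ζ) + Complex.I = 2 * Complex.I / (1 - ζ) := by
      field_simp
      ring
    have hsI' : Complex.I * (1 + ζ) / (1 - ζ) - Complex.I = 2 * Complex.I * ζ / (1 - ζ) := by
      field_simp
      ring
    have hI := Complex.I_ne_zero
    rw [ghi, h3, hsq, hsI, hsI']
    field_simp

/-- the real number `i (1 + ζ) / (1 - ζ)` for `ζ = exp (i t)` -/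
noncomputable def r5s (t : ℝ) : ℝ := -Real.cos (t / 2) / Real.sin (t / 2)

theorem r5_sin {t : ℝ} (ht : t ∈ Ioo Real.pi (2 * Real.pi)) : 0 < Real.sin (t / 2) := by
  have := Real.pi_pos
  exact Real.sin_pos_of_pos_of_lt_pi (by linarith [ht.1]) (by linarith [ht.2])

theorem r5_cos {t : ℝ} (ht : t ∈ Ioo Real.pi (2 * Real.pi)) : Real.cos (t / 2) < 0 := by
  have := Real.pi_pos
  exact Real.cos_neg_of_pi_div_two_lt_of_lt (by linarith [ht.1]) (by linarith [ht.2])

theorem r5s_pos {t : ℝ} (ht : t ∈ Ioo Real.pi (2 * Real.pi)) : 0 < r5s t :=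
  div_pos (by linarith [r5_cos ht]) (r5_sin ht)

theorem r5_zeta (t : ℝ) : circleMap 0 1 t =
    ((Real.cos (t / 2) : ℂ) + (Real.sin (t / 2) : ℂ) * Complex.I) ^ 2 := by
  unfold circleMap
  have h1 : Complex.exp ((t : ℂ) * Complex.I) =
      Complex.exp (((t / 2 : ℝ) : ℂ) * Complex.I) ^ 2 := by
    rw [← Complex.exp_nat_mul]
    congr 1
    push_cast
    ring
  rw [h1, Complex.exp_mul_I, ← Complex.ofReal_cos, ← Complex.ofReal_sin]
  push_cast
  ring

theorem r5_one_sub {t : ℝ} (ht : t ∈ Ioo Real.pi (2 * Real.pi)) : 1 - circleMap 0 1 t ≠ 0 := by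
  intro h
  have h1 : (1 - circleMap 0 1 t).re = 0 := by rw [h]; rfl
  rw [r5_zeta] at h1
  have h2 : ∀ c s : ℝ, (1 - ((c : ℂ) + (s : ℂ) * Complex.I) ^ 2).re = 1 - (c ^ 2 - s ^ 2) := by
    intro c s
    rw [sq, Complex.sub_re, Complex.mul_re]
    simp
    ring
  rw [h2] at h1
  have h3 := Real.sin_sq_add_cos_sq (t / 2)
  have h4 := r5_sin ht
  nlinarith

theorem r5_val {t : ℝ} (ht : t ∈ Ioo Real.pi (2 * Real.pi)) :
    Complex.I * (1 + circleMap 0 1 t) / (1 - circleMap 0 1 t) = ((r5s t : ℝ) : ℂ) := by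
  rw [div_eq_iff (r5_one_sub ht), r5_zeta]
  unfold r5s
  have hs : ((Real.sin (t / 2) : ℝ) : ℂ) ≠ 0 := by exact_mod_cast (r5_sin ht).ne'
  have h3 : ((Real.sin (t / 2) : ℝ) : ℂ) ^ 2 + ((Real.cos (t / 2) : ℝ) : ℂ) ^ 2 = 1 := by
    exact_mod_cast Real.sin_sq_add_cos_sq (t / 2)
  rw [Complex.ofReal_div, Complex.ofReal_neg]
  set s : ℂ := ((Real.sin (t / 2) : ℝ) : ℂ)
  set c : ℂ := ((Real.cos (t / 2) : ℝ) : ℂ)
  rw [div_mul_eq_mul_div, eq_div_iff hs]
  have hI : Complex.I ^ 2 = -1 := Complex.I_sq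
  linear_combination (-(Complex.I * s) - c) * h3 + (Complex.I * s ^ 3 + 2 * c * s ^ 2 - s ^ 2 * c) * hI

theorem r5_gq {t : ℝ} (ht : t ∈ Ioo Real.pi (2 * Real.pi)) :
    gq (circleMap 0 1 t) = ((Real.sqrt (r5s t) : ℝ) : ℂ) := by
  unfold gq
  rw [r5_val ht, Real.sqrt_eq_rpow, Complex.ofReal_cpow (r5s_pos ht).le]
  push_cast
  rfl

/-- the boundary value -/
noncomputable def r5t (t : ℝ) : ℝ := (Real.sqrt (r5s t) - 1) / (Real.sqrt (r5s t) + 1)

theorem r5t_mem {t : ℝ} (ht : t ∈ Ioo Real.pi (2 * Real.pi)) : r5t t ∈ Ioo (-1 : ℝ) 1 := by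
  have h := Real.sqrt_pos.2 (r5s_pos ht)
  unfold r5t
  constructor
  · rw [lt_div_iff₀ (by linarith)]
    linarith
  · rw [div_lt_iff₀ (by linarith)]
    linarith

/-- the inverse function -/
noncomputable def r5k (τ : ℝ) : ℝ := 2 * Real.pi - 2 * Real.arctan (((1 - τ) / (1 + τ)) ^ 2)

theorem r5k_t {t : ℝ} (ht : t ∈ Ioo Real.pi (2 * Real.pi)) : r5k (r5t t) = t := by
  have h := Real.sqrt_pos.2 (r5s_pos ht)
  have h1 : (1 - r5t t) / (1 + r5t t) = 1 / Real.sqrt (r5s t) := by
    unfold r5t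
    set q := Real.sqrt (r5s t)
    have hq : q + 1 ≠ 0 := by positivity
    have e1 : 1 - (q - 1) / (q + 1) = 2 / (q + 1) := by
      field_simp
      ring
    have e2 : 1 + (q - 1) / (q + 1) = 2 * q / (q + 1) := by
      field_simp
      ring
    rw [e1, e2]
    field_simp
  have h2 : (1 / Real.sqrt (r5s t)) ^ 2 = 1 / r5s t := by
    rw [div_pow, one_pow, Real.sq_sqrt (r5s_pos ht).le]
  unfold r5k
  rw [h1, h2]
  have h3 : 1 / r5s t = Real.tan (Real.pi - t / 2) := by
    rw [Real.tan_eq_sin_div_cos, Real.sin_pi_sub, Real.cos_pi_sub]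
    unfold r5s
    rw [one_div_div]
  have hpi := Real.pi_pos
  rw [h3, Real.arctan_tan (by linarith [ht.2]) (by linarith [ht.1])]
  ring

theorem r5k_diff : DifferentiableOn ℝ r5k (Ioo (-1 : ℝ) 1) := by
  intro x hx
  have h1 : (1 : ℝ) + x ≠ 0 := by linarith [hx.1]
  unfold r5k
  apply DifferentiableAt.differentiableWithinAt
  have h2 : DifferentiableAt ℝ (fun τ : ℝ => ((1 - τ) / (1 + τ)) ^ 2) x := by
    refine DifferentiableAt.pow ?_ 2
    refine DifferentiableAt.div ?_ ?_ h1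
    · exact (differentiableAt_const _).sub differentiableAt_id
    · exact (differentiableAt_const _).add differentiableAt_id
  exact (differentiableAt_const _).sub ((h2.arctan).const_mul 2)

theorem gh_boundary {N : Set ℝ} (hN : volume N = 0) :
    ∀ᵐ t : ℝ, t ∈ Ioo Real.pi (2 * Real.pi) → ∃ τ ∈ Ioo (-1 : ℝ) 1, τ ∉ N ∧
      Tendsto (fun ρ : ℝ => gh (circleMap 0 ρ t)) (𝓝[<] 1) (𝓝 (τ : ℂ)) := by
  have hnull : volume (r5k '' (N ∩ Ioo (-1 : ℝ) 1)) = 0 := by
    apply MeasureTheory.addHaar_image_eq_zero_of_differentiableOn_of_addHaar_eq_zero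
    · exact r5k_diff.mono inter_subset_right
    · exact measure_mono_null inter_subset_left hN
  filter_upwards [compl_mem_ae_iff.2 hnull] with t ht hmem
  refine ⟨r5t t, r5t_mem hmem, ?_, ?_⟩
  · intro hn
    exact ht ⟨r5t t, ⟨hn, r5t_mem hmem⟩, r5k_t hmem⟩
  · have hq := r5_gq hmem
    have hs := Real.sqrt_pos.2 (r5s_pos hmem)
    have hg : gh (circleMap 0 1 t) = (r5t t : ℂ) := by
      unfold gh r5t
      rw [hq]
      push_cast
      rfl
    have hc0 : ContinuousAt (fun ζ : ℂ => Complex.I * (1 + ζ) / (1 - ζ)) (circleMap 0 1 t) := by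
      refine ContinuousAt.div ?_ ?_ (r5_one_sub hmem)
      · fun_prop
      · fun_prop
    have hc1 : ContinuousAt gq (circleMap 0 1 t) := by
      unfold gq
      have hsp : Complex.I * (1 + circleMap 0 1 t) / (1 - circleMap 0 1 t) ∈
          Complex.slitPlane := by
        rw [r5_val hmem]
        exact Complex.ofReal_mem_slitPlane.2 (r5s_pos hmem)
      exact hc0.cpow continuousAt_const hsp
    have hc2 : ContinuousAt gh (circleMap 0 1 t) := by
      unfold gh
      refine ContinuousAt.div (hc1.sub continuousAt_const) (hc1.add continuousAt_const) ?_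
      rw [hq]
      have : (0 : ℝ) < Real.sqrt (r5s t) + 1 := by linarith
      exact_mod_cast this.ne'
    have hc3 : Continuous (fun ρ : ℝ => circleMap 0 ρ t) := by
      unfold circleMap
      fun_prop
    have hc4 : Tendsto (fun ρ : ℝ => gh (circleMap 0 ρ t)) (𝓝 1) (𝓝 (gh (circleMap 0 1 t))) :=
      ContinuousAt.comp (f := fun ρ : ℝ => circleMap 0 ρ t) (g := gh) (x := (1 : ℝ)) hc2
        hc3.continuousAt
    rw [hg] at hc4
    exact hc4.mono_left nhdsWithin_le_nhds


end Pool.Agent.H789R2.PE
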