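import Pool.Agent.H789R2.PE.TR1

set_option autoImplicit false

open scoped Manifold ContDiff Topology ENNReal
open Set Filter MeasureTheory Metric

namespace Pool.Agent.H789R2.PE

/-! Lemmas by helpers 231 (R1), 325 (R2, R8), 503 (R6), 77 (R7). -/

set_option linter.unusedSectionVars false

section A

variable {E : Type*} [NormedAddCommGroup E] [NormedSpace ℂ E] [FiniteDimensional ℂ E]
  [MeasurableSpace E] [BorelSpace E]
  {X : Type*} [TopologicalSpace X] [ChartedSpace E X] [IsManifold 𝓘(ℂ, E) ω X]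
  [MeasurableSpace X]

theorem R1_contDiffOn {e e' : OpenPartialHomeomorph X E} (he : HolChart e) (he' : HolChart e') :
    ContDiffOn ℂ ω (e ∘ e'.symm) (e'.target ∩ e'.symm ⁻¹' e.source) := by
  have h1 : ContMDiffOn 𝓘(ℂ, E) 𝓘(ℂ, E) ω (e ∘ e'.symm) (e'.target ∩ e'.symm ⁻¹' e.source) :=
    he.hol.comp (he'.hol_symm.mono inter_subset_left) (fun x hx => hx.2)
  exact contMDiffOn_iff_contDiffOn.1 h1

theorem R1_core {μ : Measure X} {e e' : OpenPartialHomeomorph X E} (he : HolChart e)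
    (he' : HolChart e') {u u' : E → ℝ} (hu : ExpPsh e.target u)
    (hμ : ∀ s ⊆ e.target, MeasurableSet s →
      μ (e.symm '' s) = ∫⁻ x in s, ENNReal.ofReal (u x) ∂Measure.addHaar)
    (hu' : ExpPsh e'.target u')
    (hμ' : ∀ s ⊆ e'.target, MeasurableSet s →
      μ (e'.symm '' s) = ∫⁻ x in s, ENNReal.ofReal (u' x) ∂Measure.addHaar)
    {p : X} (hp : p ∈ e.source) (hp' : p ∈ e'.source) :
    u' (e' p) ≤ |(fderiv ℝ (e ∘ e'.symm) (e' p)).det| * u (e p) := by
  set T : E → E := e ∘ e'.symm with hT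
  set O : Set E := e'.target ∩ e'.symm ⁻¹' e.source with hO
  set b : E := e' p with hb
  have hbt : b ∈ e'.target := e'.map_source hp'
  have hsb : e'.symm b = p := e'.left_inv hp'
  have hTb : T b = e p := by rw [hT, Function.comp_apply, hsb]
  have hOo : IsOpen O := e'.isOpen_inter_preimage_symm e.open_source
  have hbO : b ∈ O := ⟨hbt, by rw [mem_preimage, hsb]; exact hp⟩
  have hcd := R1_contDiffOn he he'
  have hcda : ContDiffAt ℝ ω T b := (hcd.restrict_scalars ℝ).contDiffAt (hOo.mem_nhds hbO)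
  set A : E →L[ℝ] E := fderiv ℝ T b with hA
  have hstrict : HasStrictFDerivAt T A b := hcda.hasStrictFDerivAt (by simp)
  have ha : e p ∈ e.target := e.map_source hp
  have hTcont : ContinuousAt T b := hstrict.continuousAt
  have hTO : ∀ x ∈ O, T x ∈ e.target := fun x hx => e.map_source hx.2
  have key : ∀ ε : ℝ, 0 < ε → u' b ≤ (|A.det| + ε) * (u (e p) + ε) := by
    intro ε hε
    have hm : ENNReal.ofReal |A.det| < ((Real.toNNReal (|A.det| + ε) : NNReal) : ℝ≥0∞) :=
      (ENNReal.ofReal_lt_ofReal_iff (by positivity)).2 (by linarith)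
    obtain ⟨δ, hδ1, hδ0⟩ :=
      ((addHaar_image_le_mul_of_det_lt (Measure.addHaar : Measure E) A hm).and
        self_mem_nhdsWithin).exists
    obtain ⟨s, hs, hapx⟩ := hstrict.approximates_deriv_on_nhds (c := δ) (Or.inr hδ0)
    have husc : ∀ᶠ x in 𝓝 b, u (T x) < u (e p) + ε := by
      have h1 : ∀ᶠ y in 𝓝[e.target] (e p), u y < u (e p) + ε :=
        hu.usc (e p) ha (u (e p) + ε) (by linarith)
      rw [e.open_target.nhdsWithin_eq ha, ← hTb] at h1
      have := hTcont.eventually h1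
      rwa [hTb] at this
    obtain ⟨r, hr, hball⟩ := Metric.mem_nhds_iff.1
      (inter_mem (inter_mem hs (hOo.mem_nhds hbO)) husc)
    have hbs : ball b r ⊆ s := fun x hx => (hball hx).1.1
    have hbO' : ball b r ⊆ O := fun x hx => (hball hx).1.2
    have hbu : ∀ x ∈ ball b r, u (T x) < u (e p) + ε := fun x hx => (hball hx).2
    have hbt' : ball b r ⊆ e'.target := fun x hx => (hbO' hx).1
    have himgo : IsOpen (T '' ball b r) := by
      have h1 : IsOpen ((e'.symm.trans e) '' ball b r) := by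
        refine (e'.symm.trans e).isOpen_image_of_subset_source isOpen_ball ?_
        rw [OpenPartialHomeomorph.trans_source]
        exact hbO'
      exact h1
    have himgt : T '' ball b r ⊆ e.target := by
      rintro _ ⟨x, hx, rfl⟩
      exact hTO x (hbO' hx)
    have himg : e.symm '' (T '' ball b r) = e'.symm '' ball b r := by
      rw [← image_comp]
      refine image_congr fun x hx => ?_
      exact e.left_inv (hbO' hx).2
    have hvol : (Measure.addHaar : Measure E) (ball b r) = Measure.addHaar (ball (0 : E) r) :=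
      Measure.addHaar_ball_center _ _ _
    have hu0 : 0 ≤ u (e p) := hu.nonneg _ ha
    have h3 : ENNReal.ofReal (u' b) * Measure.addHaar (ball (0 : E) r) ≤
        ENNReal.ofReal ((|A.det| + ε) * (u (e p) + ε)) * Measure.addHaar (ball (0 : E) r) := by
      calc ENNReal.ofReal (u' b) * Measure.addHaar (ball (0 : E) r)
          ≤ ∫⁻ x in ball b r, ENNReal.ofReal (u' x) ∂Measure.addHaar :=
            hu'.ball_le e'.open_target hbt'
        _ = μ (e'.symm '' ball b r) := (hμ' _ hbt' measurableSet_ball).symm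
        _ = μ (e.symm '' (T '' ball b r)) := by rw [himg]
        _ = ∫⁻ x in T '' ball b r, ENNReal.ofReal (u x) ∂Measure.addHaar :=
            hμ _ himgt himgo.measurableSet
        _ ≤ ∫⁻ _ in T '' ball b r, ENNReal.ofReal (u (e p) + ε) ∂Measure.addHaar := by
            refine setLIntegral_mono' himgo.measurableSet ?_
            rintro _ ⟨x, hx, rfl⟩
            exact ENNReal.ofReal_le_ofReal (hbu x hx).le
        _ = ENNReal.ofReal (u (e p) + ε) * Measure.addHaar (T '' ball b r) :=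
            setLIntegral_const _ _
        _ ≤ ENNReal.ofReal (u (e p) + ε) *
            (ENNReal.ofReal (|A.det| + ε) * Measure.addHaar (ball b r)) := by
            gcongr
            exact hδ1 (ball b r) T (hapx.mono_set hbs)
        _ = _ := by
            rw [hvol, ← mul_assoc, ← ENNReal.ofReal_mul (by positivity), mul_comm (u (e p) + ε)]
    have hpos : (Measure.addHaar : Measure E) (ball (0 : E) r) ≠ 0 :=
      (measure_ball_pos _ _ hr).ne'
    have hfin : (Measure.addHaar : Measure E) (ball (0 : E) r) ≠ ⊤ := measure_ball_lt_top.ne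
    have h4 := (ENNReal.mul_le_mul_iff_left hpos hfin).1 h3
    exact (ENNReal.ofReal_le_ofReal_iff (by positivity)).1 h4
  have hlim : Tendsto (fun ε : ℝ => (|A.det| + ε) * (u (e p) + ε)) (𝓝[>] 0)
      (𝓝 (|A.det| * u (e p))) := by
    have : Tendsto (fun ε : ℝ => (|A.det| + ε) * (u (e p) + ε)) (𝓝 0)
        (𝓝 ((|A.det| + 0) * (u (e p) + 0))) := by
      exact (Continuous.tendsto (by fun_prop) 0)
    rw [add_zero, add_zero] at this
    exact this.mono_left nhdsWithin_le_nhds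
  exact ge_of_tendsto hlim (eventually_nhdsWithin_of_forall fun ε hε => key ε hε)

/-- R1 -/
theorem dens_le {μ : Measure X} {e e' : OpenPartialHomeomorph X E} (he : HolChart e)
    (he' : HolChart e') {u u' : E → ℝ} (hu : Dens μ e u) (hu' : Dens μ e' u') {p : X}
    (hp : p ∈ e.source) (hp' : p ∈ e'.source) :
    ENNReal.ofReal (u' (e' p)) ≤
      ENNReal.ofReal |(fderiv ℝ (e ∘ e'.symm) (e' p)).det| * ENNReal.ofReal (u (e p)) := by
  rw [← ENNReal.ofReal_mul (abs_nonneg _)]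
  exact ENNReal.ofReal_le_ofReal
    (R1_core he he' hu.psh hu.meas hu'.psh hu'.meas hp hp')

end A

section A

variable {E : Type*} [NormedAddCommGroup E] [NormedSpace ℂ E] [FiniteDimensional ℂ E]
  [MeasurableSpace E] [BorelSpace E]
  {X : Type*} [TopologicalSpace X] [ChartedSpace E X] [IsManifold 𝓘(ℂ, E) ω X]
  [MeasurableSpace X]


omit [FiniteDimensional ℂ E] [MeasurableSpace E] [BorelSpace E] [MeasurableSpace X]
  [IsManifold 𝓘(ℂ, E) ω X] in
lemma dens_eq_diff {e e' : OpenPartialHomeomorph X E} (he : HolChart e)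
    (he' : HolChart e') {p : X} (hp : p ∈ e.source) (hp' : p ∈ e'.source) :
    DifferentiableAt ℝ (e ∘ e'.symm) (e' p) := by
  have h1 : ContMDiffAt 𝓘(ℂ, E) 𝓘(ℂ, E) ω e (e'.symm (e' p)) := by
    rw [e'.left_inv hp']
    exact (he.hol p hp).contMDiffAt (e.open_source.mem_nhds hp)
  have h2 : ContMDiffAt 𝓘(ℂ, E) 𝓘(ℂ, E) ω e'.symm (e' p) :=
    (he'.hol_symm _ (e'.map_source hp')).contMDiffAt (e'.open_target.mem_nhds (e'.map_source hp'))
  have h3 : ContMDiffAt 𝓘(ℂ, E) 𝓘(ℂ, E) ω (e ∘ e'.symm) (e' p) := h1.comp (e' p) h2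
  have h4 : ContDiffAt ℂ ω (e ∘ e'.symm) (e' p) := contMDiffAt_iff_contDiffAt.1 h3
  exact (h4.differentiableAt (by simp)).restrictScalars ℝ

omit [FiniteDimensional ℂ E] [MeasurableSpace E] [BorelSpace E] [MeasurableSpace X]
  [IsManifold 𝓘(ℂ, E) ω X] in
lemma dens_eq_det {e e' : OpenPartialHomeomorph X E} (he : HolChart e)
    (he' : HolChart e') {p : X} (hp : p ∈ e.source) (hp' : p ∈ e'.source) :
    (fderiv ℝ (e ∘ e'.symm) (e' p)).det * (fderiv ℝ (e' ∘ e.symm) (e p)).det = 1 := by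
  have h1 := dens_eq_diff he he' hp hp'
  have h2 := dens_eq_diff he' he hp' hp
  have e1 : (e' ∘ e.symm) (e p) = e' p := by
    simp only [Function.comp_apply]
    rw [e.left_inv hp]
  have h1' : DifferentiableAt ℝ (e ∘ e'.symm) ((e' ∘ e.symm) (e p)) := by rw [e1]; exact h1
  have h3 := fderiv_comp (e p) h1' h2
  have h4 : ((e ∘ e'.symm) ∘ (e' ∘ e.symm)) =ᶠ[𝓝 (e p)] id := by
    have ha : ∀ᶠ y in 𝓝 (e p), y ∈ e.target := e.open_target.mem_nhds (e.map_source hp)
    have hb : ∀ᶠ y in 𝓝 (e p), e.symm y ∈ e'.source := by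
      have hc : ContinuousAt e.symm (e p) := e.symm.continuousAt (e.map_source hp)
      apply hc.eventually
      rw [e.left_inv hp]
      exact e'.open_source.mem_nhds hp'
    filter_upwards [ha, hb] with y hy hy'
    simp only [Function.comp_apply, id_eq]
    rw [e'.left_inv hy', e.right_inv hy]
  rw [h4.fderiv_eq, fderiv_id, e1] at h3
  have h5 : ((fderiv ℝ (e ∘ e'.symm) (e' p)).comp (fderiv ℝ (e' ∘ e.symm) (e p))).det =
      (fderiv ℝ (e ∘ e'.symm) (e' p)).det * (fderiv ℝ (e' ∘ e.symm) (e p)).det :=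
    LinearMap.det_comp _ _
  rw [← h5, ← h3]
  exact LinearMap.det_id

/-- R2 (uses R1) -/
theorem dens_eq {μ : Measure X} {e e' : OpenPartialHomeomorph X E} (he : HolChart e)
    (he' : HolChart e') {u u' : E → ℝ} (hu : Dens μ e u) (hu' : Dens μ e' u') {p : X}
    (hp : p ∈ e.source) (hp' : p ∈ e'.source) :
    u' (e' p) = |(fderiv ℝ (e ∘ e'.symm) (e' p)).det| * u (e p) := by
  have h1 := dens_le he he' hu hu' hp hp'
  have h2 := dens_le he' he hu' hu hp' hp
  have h3 := dens_eq_det he he' hp hp'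
  have n1 : 0 ≤ u (e p) := hu.psh.nonneg _ (e.map_source hp)
  have n2 : 0 ≤ u' (e' p) := hu'.psh.nonneg _ (e'.map_source hp')
  set d := |(fderiv ℝ (e ∘ e'.symm) (e' p)).det| with hd
  set d' := |(fderiv ℝ (e' ∘ e.symm) (e p)).det| with hd'
  have hdd : d * d' = 1 := by rw [hd, hd', ← abs_mul, h3, abs_one]
  have d0 : 0 ≤ d := abs_nonneg _
  have d0' : 0 ≤ d' := abs_nonneg _
  rw [← ENNReal.ofReal_mul d0, ENNReal.ofReal_le_ofReal_iff (mul_nonneg d0 n1)] at h1
  rw [← ENNReal.ofReal_mul d0', ENNReal.ofReal_le_ofReal_iff (mul_nonneg d0' n2)] at h2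
  apply le_antisymm h1
  calc d * u (e p) ≤ d * (d' * u' (e' p)) := mul_le_mul_of_nonneg_left h2 d0
    _ = u' (e' p) := by rw [← mul_assoc, hdd, one_mul]

end A

section R6aux

variable {E : Type*} [NormedAddCommGroup E] [NormedSpace ℂ E]

/-- the straightening map -/
noncomputable def strF (l : E →L[ℂ] ℂ) (x y : E) (g : ℂ → ℂ) (z : E) : E :=
  x + z + (g (l z) - l z) • y

/-- the inverse of the straightening map -/
noncomputable def strG (l : E →L[ℂ] ℂ) (x y : E) (gi : ℂ → ℂ) (w : E) : E :=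
  (w - x) + (gi (l (w - x)) - l (w - x)) • y

theorem l_strF (l : E →L[ℂ] ℂ) (x y : E) (hl : l y = 1) (g : ℂ → ℂ) (z : E) :
    l (strF l x y g z - x) = g (l z) := by
  have e : strF l x y g z - x = z + (g (l z) - l z) • y := by
    unfold strF; abel
  rw [e, map_add, map_smul, hl, smul_eq_mul, mul_one]
  ring

theorem l_strG (l : E →L[ℂ] ℂ) (x y : E) (hl : l y = 1) (gi : ℂ → ℂ) (w : E) :
    l (strG l x y gi w) = gi (l (w - x)) := by
  unfold strG
  rw [map_add, map_smul, hl, smul_eq_mul, mul_one]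
  ring

theorem strG_strF (l : E →L[ℂ] ℂ) (x y : E) (hl : l y = 1) (g gi : ℂ → ℂ) (z : E)
    (h : gi (g (l z)) = l z) : strG l x y gi (strF l x y g z) = z := by
  have h1 := l_strF l x y hl g z
  have e : strF l x y g z - x = z + (g (l z) - l z) • y := by
    unfold strF; abel
  unfold strG
  rw [h1, h, e, add_assoc, ← add_smul]
  simp

theorem strF_strG (l : E →L[ℂ] ℂ) (x y : E) (hl : l y = 1) (g gi : ℂ → ℂ) (w : E)
    (h : g (gi (l (w - x))) = l (w - x)) : strF l x y g (strG l x y gi w) = w := by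
  have h1 := l_strG l x y hl gi w
  unfold strF
  rw [h1, h]
  unfold strG
  rw [show x + (w - x + (gi (l (w - x)) - l (w - x)) • y) + (l (w - x) - gi (l (w - x))) • y =
    w + ((gi (l (w - x)) - l (w - x)) • y + (l (w - x) - gi (l (w - x))) • y) by abel, ← add_smul]
  simp

theorem strF_contDiffOn (l : E →L[ℂ] ℂ) (x y : E) (g : ℂ → ℂ) (D : Set ℂ) (hD : IsOpen D)
    (dg : DifferentiableOn ℂ g D) : ContDiffOn ℂ ω (strF l x y g) {z | l z ∈ D} := by
  have h1 : ContDiffOn ℂ ω g D := (dg.analyticOnNhd hD).contDiffOn_of_completeSpace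
  have h2 : ContDiffOn ℂ ω (fun z : E => g (l z)) {z | l z ∈ D} :=
    h1.comp l.contDiff.contDiffOn fun z hz => hz
  unfold strF
  exact (contDiffOn_const.add contDiffOn_id).add ((h2.sub l.contDiff.contDiffOn).smul
    contDiffOn_const)

theorem strG_contDiffOn (l : E →L[ℂ] ℂ) (x y : E) (gi : ℂ → ℂ) (H : Set ℂ) (hH : IsOpen H)
    (dgi : DifferentiableOn ℂ gi H) : ContDiffOn ℂ ω (strG l x y gi) {w | l (w - x) ∈ H} := by
  have h1 : ContDiffOn ℂ ω gi H := (dgi.analyticOnNhd hH).contDiffOn_of_completeSpace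
  have h0 : ContDiffOn ℂ ω (fun w : E => w - x) {w | l (w - x) ∈ H} :=
    contDiffOn_id.sub contDiffOn_const
  have h3 : ContDiffOn ℂ ω (fun w : E => l (w - x)) {w | l (w - x) ∈ H} :=
    l.contDiff.comp_contDiffOn h0
  have h2 : ContDiffOn ℂ ω (fun w : E => gi (l (w - x))) {w | l (w - x) ∈ H} :=
    h1.comp h3 fun w hw => hw
  unfold strG
  exact h0.add ((h2.sub h3).smul contDiffOn_const)

/-- the straightening map as a partial homeomorphism -/
noncomputable def strP (l : E →L[ℂ] ℂ) (x y : E) (hl : l y = 1) (g gi : ℂ → ℂ) (D H : Set ℂ)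
    (hD : IsOpen D) (hH : IsOpen H) (hg : ∀ z ∈ D, g z ∈ H) (hgi : ∀ z ∈ H, gi z ∈ D)
    (h1 : ∀ z ∈ D, gi (g z) = z) (h2 : ∀ z ∈ H, g (gi z) = z)
    (dg : DifferentiableOn ℂ g D) (dgi : DifferentiableOn ℂ gi H) :
    OpenPartialHomeomorph E E where
  toFun := strF l x y g
  invFun := strG l x y gi
  source := {z | l z ∈ D}
  target := {w | l (w - x) ∈ H}
  map_source' := fun z hz => by
    show l (strF l x y g z - x) ∈ H
    rw [l_strF l x y hl g z]
    exact hg _ hz
  map_target' := fun w hw => by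
    show l (strG l x y gi w) ∈ D
    rw [l_strG l x y hl gi w]
    exact hgi _ hw
  left_inv' := fun z hz => strG_strF l x y hl g gi z (h1 _ hz)
  right_inv' := fun w hw => strF_strG l x y hl g gi w (h2 _ hw)
  open_source := hD.preimage l.continuous
  open_target := hH.preimage (l.continuous.comp (continuous_id.sub continuous_const))
  continuousOn_toFun := (strF_contDiffOn l x y g D hD dg).continuousOn
  continuousOn_invFun := (strG_contDiffOn l x y gi H hH dgi).continuousOn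

theorem strF_hasFDerivAt (l : E →L[ℂ] ℂ) (x y : E) (g : ℂ → ℂ) (z : E)
    (hg : DifferentiableAt ℂ g (l z)) :
    HasFDerivAt (strF l x y g)
      (ContinuousLinearMap.id ℂ E + ((deriv g (l z) - 1) • l).smulRight y) z := by
  have h1 : HasFDerivAt (fun z : E => g (l z)) (deriv g (l z) • (l : E →L[ℂ] ℂ)) z :=
    hg.hasDerivAt.comp_hasFDerivAt z l.hasFDerivAt
  have h2 : HasFDerivAt (fun z : E => g (l z) - l z) (deriv g (l z) • l - l) z :=
    h1.sub l.hasFDerivAt
  have h3 := ((hasFDerivAt_id (𝕜 := ℂ) z).const_add x).add (h2.smul_const y)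
  have e : ContinuousLinearMap.id ℂ E + ((deriv g (l z) - 1) • l).smulRight y =
      ContinuousLinearMap.id ℂ E + (deriv g (l z) • l - l).smulRight y := by
    ext v
    simp [sub_smul, sub_mul]
  rw [e]
  exact h3

theorem det_str [FiniteDimensional ℂ E] (l : E →L[ℂ] ℂ) (y : E) (hl : l y = 1) (c : ℂ) :
    ((ContinuousLinearMap.id ℂ E + ((c - 1) • l).smulRight y).restrictScalars ℝ).det =
      ‖c‖ ^ 2 := by
  have h1 : ((ContinuousLinearMap.id ℂ E + ((c - 1) • l).smulRight y : E →L[ℂ] E) :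
      E →ₗ[ℂ] E) = LinearMap.transvection (((c - 1) • l : E →L[ℂ] ℂ) : E →ₗ[ℂ] ℂ) y := by
    ext v
    simp [LinearMap.transvection]
  have h2 : (ContinuousLinearMap.id ℂ E + ((c - 1) • l).smulRight y : E →L[ℂ] E).toLinearMap.det =
      c := by
    rw [h1, LinearMap.transvection.det]
    simp [hl]
  have h3 := LinearMap.det_restrictScalars (R := ℝ)
    (f := (ContinuousLinearMap.id ℂ E + ((c - 1) • l).smulRight y : E →L[ℂ] E).toLinearMap)
  rw [h2, Algebra.norm_complex_apply, Complex.normSq_eq_norm_sq] at h3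
  exact h3

end R6aux

/-- R6 -/
theorem straighten {E : Type*} [NormedAddCommGroup E] [NormedSpace ℂ E] [FiniteDimensional ℂ E]
    [MeasurableSpace E] [BorelSpace E]
    {X : Type*} [TopologicalSpace X] [ChartedSpace E X] [IsManifold 𝓘(ℂ, E) ω X]
    [MeasurableSpace X] {e : OpenPartialHomeomorph X E} (he : HolChart e) {x y : E} (hy : y ≠ 0)
    (hd : ∀ z : ℂ, ‖z‖ ≤ 1 → 0 ≤ z.im → x + z • y ∈ e.target) :
    ∃ e' : OpenPartialHomeomorph X E, HolChart e' ∧ ∀ ζ : ℂ, ‖ζ‖ < 1 → ζ • y ∈ e'.target ∧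
      e'.symm (ζ • y) = e.symm (x + gh ζ • y) ∧
      |(fderiv ℝ (e ∘ e'.symm) (ζ • y)).det| = ‖deriv gh ζ‖ ^ 2 := by
  obtain ⟨l0, hl0⟩ := SeparatingDual.exists_eq_one (R := ℂ) hy
  have hH : IsOpen {z : ℂ | ‖z‖ < 1 ∧ 0 < z.im} :=
    (isOpen_lt continuous_norm continuous_const).inter
      (isOpen_lt continuous_const Complex.continuous_im)
  have hb : ∀ z : ℂ, z ∈ ball (0 : ℂ) 1 ↔ ‖z‖ < 1 := fun z => mem_ball_zero_iff
  set P : OpenPartialHomeomorph E E := strP l0 x y hl0 gh ghi (ball 0 1)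
    {z : ℂ | ‖z‖ < 1 ∧ 0 < z.im} isOpen_ball hH
    (fun z hz => ⟨(gh_maps ((hb z).1 hz)).1, (gh_maps ((hb z).1 hz)).2.1⟩)
    (fun z hz => (hb _).2 (ghi_maps hz.1 hz.2).1)
    (fun z hz => (gh_maps ((hb z).1 hz)).2.2)
    (fun z hz => (ghi_maps hz.1 hz.2).2) gh_diff ghi_diff with hP
  have hPF : ∀ z, P z = strF l0 x y gh z := fun z => rfl
  have hPs : ContMDiffOn 𝓘(ℂ, E) 𝓘(ℂ, E) ω P P.source :=
    (strF_contDiffOn l0 x y gh (ball 0 1) isOpen_ball gh_diff).contMDiffOn
  have hPt : ContMDiffOn 𝓘(ℂ, E) 𝓘(ℂ, E) ω P.symm P.target :=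
    (strG_contDiffOn l0 x y ghi _ hH ghi_diff).contMDiffOn
  refine ⟨e.trans P.symm, ⟨?_, ?_⟩, fun ζ hζ => ?_⟩
  · have h1 : (e.trans P.symm).source ⊆ e.source := fun p hp => by
      rw [OpenPartialHomeomorph.trans_source] at hp
      exact hp.1
    have h2 : (e.trans P.symm).source ⊆ e ⁻¹' P.target := fun p hp => by
      rw [OpenPartialHomeomorph.trans_source] at hp
      exact hp.2
    have h3 : ContMDiffOn 𝓘(ℂ, E) 𝓘(ℂ, E) ω (P.symm ∘ e) (e.trans P.symm).source :=
      ContMDiffOn.comp hPt (he.hol.mono h1) h2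
    exact h3
  · have h1 : (e.trans P.symm).target ⊆ P.source := fun p hp => by
      rw [OpenPartialHomeomorph.trans_target] at hp
      exact hp.1
    have h2 : (e.trans P.symm).target ⊆ P ⁻¹' e.target := fun p hp => by
      rw [OpenPartialHomeomorph.trans_target] at hp
      exact hp.2
    have h3 : ContMDiffOn 𝓘(ℂ, E) 𝓘(ℂ, E) ω (e.symm ∘ P) (e.trans P.symm).target :=
      ContMDiffOn.comp he.hol_symm (hPs.mono h1) h2
    exact h3
  · have hlζ : l0 (ζ • y) = ζ := by rw [map_smul, hl0, smul_eq_mul, mul_one]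
    have hPζ : P (ζ • y) = x + gh ζ • y := by
      rw [hPF]
      unfold strF
      rw [hlζ, add_assoc, ← add_smul]
      congr 2
      ring
    have hsrc : ζ • y ∈ P.source := by
      show l0 (ζ • y) ∈ ball (0 : ℂ) 1
      rw [hlζ]
      exact (hb _).2 hζ
    have htg : P (ζ • y) ∈ e.target := by
      rw [hPζ]
      exact hd _ (gh_maps hζ).1.le (gh_maps hζ).2.1.le
    have hmem : ζ • y ∈ (e.trans P.symm).target := by
      rw [OpenPartialHomeomorph.trans_target]
      exact ⟨hsrc, htg⟩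
    refine ⟨hmem, ?_, ?_⟩
    · show e.symm (P (ζ • y)) = _
      rw [hPζ]
    · have hev : (e ∘ (e.trans P.symm).symm) =ᶠ[𝓝 (ζ • y)] strF l0 x y gh := by
        filter_upwards [(e.trans P.symm).open_target.mem_nhds hmem] with z hz
        rw [OpenPartialHomeomorph.trans_target] at hz
        have h5 : P z ∈ e.target := hz.2
        show e (e.symm (P z)) = _
        rw [e.right_inv h5]
        rfl
      have hdg : DifferentiableAt ℂ gh (l0 (ζ • y)) := by
        rw [hlζ]
        exact gh_diff.differentiableAt (isOpen_ball.mem_nhds ((hb _).2 hζ))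
      have hf := (strF_hasFDerivAt l0 x y gh (ζ • y) hdg).restrictScalars ℝ
      rw [hev.fderiv_eq, hf.fderiv, det_str l0 y hl0, hlζ]
      exact abs_of_nonneg (by positivity)

/-! R7 -/

theorem R7_core {E : Type*} [NormedAddCommGroup E] [NormedSpace ℂ E] (U : Set E) (u' : E → ℝ) (hu : ExpPsh U u') (y : E) (g : ℂ → ℂ)
    (hg : DifferentiableOn ℂ g (ball 0 1)) (hg0 : ∀ ζ ∈ ball (0 : ℂ) 1, deriv g ζ ≠ 0)
    (hU : ∀ ζ ∈ ball (0 : ℂ) 1, ζ • y ∈ U) (v : ℂ → ℝ)
    (hv : ∀ ζ ∈ ball (0 : ℂ) 1, u' (ζ • y) = ‖deriv g ζ‖ ^ 2 * v ζ) (hv0 : v 0 ≠ 0)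
    (ρ : ℝ) (hρ0 : 0 < ρ) (hρ1 : ρ < 1) :
    (∀ᵐ t : ℝ, v (circleMap 0 ρ t) ≠ 0) ∧
    CircleIntegrable (fun ζ => Real.log (v ζ)) 0 ρ ∧
    Real.log (v 0) ≤ Real.circleAverage (fun ζ => Real.log (v ζ)) 0 ρ := by
  have hin : ∀ t : ℝ, circleMap 0 ρ t ∈ ball (0 : ℂ) 1 := by
    intro t
    rw [mem_ball_zero_iff, norm_circleMap_zero, abs_of_pos hρ0]
    exact hρ1
  have h0in : (0 : ℂ) ∈ ball (0 : ℂ) 1 := mem_ball_self one_pos
  have hcm : ∀ t : ℝ, circleMap 0 1 t • ((ρ : ℂ) • y) = circleMap 0 ρ t • y := by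
    intro t
    rw [smul_smul]
    congr 1
    simp [circleMap, mul_comm]
  have hu0 : u' 0 = ‖deriv g 0‖ ^ 2 * v 0 := by
    have := hv 0 h0in
    rwa [zero_smul] at this
  have hd0 : 0 < ‖deriv g 0‖ := norm_pos_iff.2 (hg0 0 h0in)
  have hu0' : u' 0 ≠ 0 := by
    rw [hu0]
    exact mul_ne_zero (pow_ne_zero _ hd0.ne') hv0
  obtain ⟨h1, h2, h3⟩ := hu.mean 0 ((ρ : ℂ) • y) (by
    intro ζ hζ
    rw [zero_add, smul_smul]
    refine hU _ ?_
    rw [mem_ball_zero_iff, norm_mul, Complex.norm_real, Real.norm_of_nonneg hρ0.le]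
    calc ‖ζ‖ * ρ ≤ 1 * ρ := mul_le_mul_of_nonneg_right hζ hρ0.le
      _ < 1 := by linarith) hu0'
  have e1 : ∀ t : ℝ, u' (0 + circleMap 0 1 t • ((ρ : ℂ) • y)) =
      ‖deriv g (circleMap 0 ρ t)‖ ^ 2 * v (circleMap 0 ρ t) := by
    intro t
    rw [zero_add, hcm, hv _ (hin t)]
  have hne : ∀ᵐ t : ℝ, v (circleMap 0 ρ t) ≠ 0 := by
    filter_upwards [h1] with t ht h0
    rw [e1, h0, mul_zero] at ht
    exact ht rfl
  -- the function `log ‖g'‖`
  have hana : AnalyticOnNhd ℂ (deriv g) (ball 0 1) := (hg.analyticOnNhd isOpen_ball).deriv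
  have hcl : closedBall (0 : ℂ) |ρ| ⊆ ball 0 1 := by
    rw [abs_of_pos hρ0]
    exact closedBall_subset_ball hρ1
  have havg := AnalyticOnNhd.circleAverage_log_norm_of_ne_zero (hana.mono hcl)
    (fun ζ hζ => hg0 ζ (hcl hζ))
  have hcont : ContinuousOn (fun t : ℝ => Real.log ‖deriv g (circleMap 0 ρ t)‖) univ := by
    rw [continuousOn_univ, continuous_iff_continuousAt]
    intro t
    refine ContinuousAt.log ?_ (norm_ne_zero_iff.2 (hg0 _ (hin t)))
    refine ContinuousAt.norm ?_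
    exact ((hana _ (hin t)).continuousAt.comp (continuous_circleMap 0 ρ).continuousAt)
  have hint : IntervalIntegrable (fun t : ℝ => Real.log ‖deriv g (circleMap 0 ρ t)‖) volume 0
      (2 * Real.pi) := (continuousOn_univ.1 hcont).intervalIntegrable _ _
  have hlog : ∀ᵐ t : ℝ, Real.log (u' (0 + circleMap 0 1 t • ((ρ : ℂ) • y))) -
      2 * Real.log ‖deriv g (circleMap 0 ρ t)‖ = Real.log (v (circleMap 0 ρ t)) := by
    filter_upwards [hne] with t ht
    rw [e1, Real.log_mul (pow_ne_zero _ (norm_ne_zero_iff.2 (hg0 _ (hin t)))) ht, Real.log_pow]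
    push_cast
    ring
  have hint2 : IntervalIntegrable (fun t : ℝ =>
      Real.log (u' (0 + circleMap 0 1 t • ((ρ : ℂ) • y))) -
      2 * Real.log ‖deriv g (circleMap 0 ρ t)‖) volume 0 (2 * Real.pi) :=
    IntervalIntegrable.sub h2 (hint.const_mul 2)
  refine ⟨hne, ?_, ?_⟩
  · exact hint2.congr_ae (ae_restrict_of_ae hlog)
  · have e2 : Real.circleAverage (fun ζ => Real.log (v ζ)) 0 ρ =
        Real.circleAverage (fun ζ => Real.log (u' (0 + ζ • ((ρ : ℂ) • y)))) 0 1 -
          2 * Real.circleAverage (fun ζ => Real.log ‖deriv g ζ‖) 0 ρ := by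
      simp only [Real.circleAverage_def, smul_eq_mul]
      have e3 : (∫ t in (0 : ℝ)..2 * Real.pi, Real.log (v (circleMap 0 ρ t))) =
          ∫ t in (0 : ℝ)..2 * Real.pi, (Real.log (u' (0 + circleMap 0 1 t • ((ρ : ℂ) • y))) -
            2 * Real.log ‖deriv g (circleMap 0 ρ t)‖) := by
        refine intervalIntegral.integral_congr_ae ?_
        filter_upwards [hlog] with t ht _
        exact ht.symm
      rw [e3, intervalIntegral.integral_sub h2 (hint.const_mul 2),
        intervalIntegral.integral_const_mul]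
      ring
    rw [e2, havg]
    have e4 : Real.log (v 0) = Real.log (u' 0) - 2 * Real.log ‖deriv g 0‖ := by
      rw [hu0, Real.log_mul (pow_ne_zero _ hd0.ne') hv0, Real.log_pow]
      push_cast
      ring
    rw [e4]
    linarith

theorem R7_deriv_ne {ζ : ℂ} (hζ : ζ ∈ ball (0 : ℂ) 1) : deriv gh ζ ≠ 0 := by
  have hopen : IsOpen {z : ℂ | ‖z‖ < 1 ∧ 0 < z.im} :=
    (isOpen_lt continuous_norm continuous_const).inter
      (isOpen_lt continuous_const Complex.continuous_im)
  have hm : gh ζ ∈ {z : ℂ | ‖z‖ < 1 ∧ 0 < z.im} := by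
    obtain ⟨h1, h2, -⟩ := gh_maps (mem_ball_zero_iff.1 hζ)
    exact ⟨h1, h2⟩
  have d1 : HasDerivAt gh (deriv gh ζ) ζ :=
    (gh_diff.differentiableAt (isOpen_ball.mem_nhds hζ)).hasDerivAt
  have d2 : HasDerivAt ghi (deriv ghi (gh ζ)) (gh ζ) :=
    (ghi_diff.differentiableAt (hopen.mem_nhds hm)).hasDerivAt
  have d3 : HasDerivAt (ghi ∘ gh) (deriv ghi (gh ζ) * deriv gh ζ) ζ := d2.comp ζ d1
  have d4 : HasDerivAt (ghi ∘ gh) 1 ζ := by
    refine (hasDerivAt_id ζ).congr_of_eventuallyEq ?_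
    filter_upwards [isOpen_ball.mem_nhds hζ] with w hw
    exact (gh_maps (mem_ball_zero_iff.1 hw)).2.2
  have h5 := d3.unique d4
  intro h0
  rw [h0, mul_zero] at h5
  exact zero_ne_one h5

section A

variable {E : Type*} [NormedAddCommGroup E] [NormedSpace ℂ E] [FiniteDimensional ℂ E]
  [MeasurableSpace E] [BorelSpace E]
  {X : Type*} [TopologicalSpace X] [ChartedSpace E X] [IsManifold 𝓘(ℂ, E) ω X]
  [MeasurableSpace X]

/-- R7 (uses R2, R4, R6) -/
theorem halfdisc_submean {μ : Measure X} (hμ : PshDensities E μ)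
    {e : OpenPartialHomeomorph X E} (he : HolChart e) {u : E → ℝ} (hu : Dens μ e u) {x y : E}
    (hy : y ≠ 0) (hd : ∀ z : ℂ, ‖z‖ ≤ 1 → 0 ≤ z.im → x + z • y ∈ e.target) {ρ : ℝ} (hρ : 0 < ρ)
    (hρ1 : ρ < 1) (h0 : u (x + gh 0 • y) ≠ 0) :
    (∀ᵐ t : ℝ, u (x + gh (circleMap 0 ρ t) • y) ≠ 0) ∧
    CircleIntegrable (fun ζ => Real.log (u (x + gh ζ • y))) 0 ρ ∧
    Real.log (u (x + gh 0 • y)) ≤
      Real.circleAverage (fun ζ => Real.log (u (x + gh ζ • y))) 0 ρ := by
  obtain ⟨e', he', hst⟩ := straighten he hy hd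
  obtain ⟨u', hu1, hu2⟩ := hμ e' he'
  have hu' : Dens μ e' u' := ⟨hu1, hu2⟩
  refine R7_core e'.target u' hu1 y gh gh_diff (fun ζ hζ => R7_deriv_ne hζ)
    (fun ζ hζ => (hst ζ (mem_ball_zero_iff.1 hζ)).1) (fun ζ => u (x + gh ζ • y)) ?_ h0 ρ hρ hρ1
  intro ζ hζ
  have hζ' := mem_ball_zero_iff.1 hζ
  obtain ⟨h1, h2, h3⟩ := hst ζ hζ'
  obtain ⟨h4, h5, -⟩ := gh_maps hζ'
  have h6 : x + gh ζ • y ∈ e.target := hd _ h4.le h5.le
  have h7 : e'.symm (ζ • y) ∈ e.source := by
    rw [h2]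
    exact e.map_target h6
  have h8 := dens_eq he he' hu hu' h7 (e'.map_target h1)
  rw [e'.right_inv h1, h3, h2, e.right_inv h6] at h8
  exact h8

end A

section A

variable {E : Type*} [NormedAddCommGroup E] [NormedSpace ℂ E] [FiniteDimensional ℂ E]
  [MeasurableSpace E] [BorelSpace E]
  {X : Type*} [TopologicalSpace X] [ChartedSpace E X] [IsManifold 𝓘(ℂ, E) ω X]
  [MeasurableSpace X]


/-- an abstract one variable statement -/
lemma halfdisc_zero_aux (F : ℝ → ℝ → ℝ) (C L0 : ℝ) (hC : 1 ≤ C)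
    (hF0 : ∀ ρ t, 0 < ρ → ρ < 1 → 0 ≤ F ρ t) (hFC : ∀ ρ t, 0 < ρ → ρ < 1 → F ρ t ≤ C)
    (hnz : ∀ ρ, 0 < ρ → ρ < 1 → ∀ᵐ t : ℝ, F ρ t ≠ 0)
    (hint : ∀ ρ, 0 < ρ → ρ < 1 →
      IntervalIntegrable (fun t => Real.log (F ρ t)) volume 0 (2 * Real.pi))
    (hle : ∀ ρ, 0 < ρ → ρ < 1 → 2 * Real.pi * L0 ≤ ∫ t in (0 : ℝ)..(2 * Real.pi), Real.log (F ρ t))
    (hlim : ∀ᵐ t : ℝ, t ∈ Ioo Real.pi (2 * Real.pi) →
      Tendsto (fun ρ : ℝ => F ρ t) (𝓝[<] 1) (𝓝 0)) : False := by
  have hπ := Real.pi_pos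
  -- measurability
  have hm : ∀ ρ, 0 < ρ → ρ < 1 →
      AEStronglyMeasurable (F ρ) (volume.restrict (Ioc 0 (2 * Real.pi))) := by
    intro ρ h1 h2
    have ha := (hint ρ h1 h2).1.aestronglyMeasurable
    have hb : AEStronglyMeasurable (fun t => Real.exp (Real.log (F ρ t)))
        (volume.restrict (Ioc 0 (2 * Real.pi))) :=
      Real.continuous_exp.comp_aestronglyMeasurable ha
    refine hb.congr ?_
    filter_upwards [ae_restrict_of_ae (hnz ρ h1 h2)] with t ht
    exact Real.exp_log (lt_of_le_of_ne (hF0 ρ t h1 h2) (Ne.symm ht))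
  -- the key inequality for all `k`
  have key : ∀ k : ℕ, 1 ≤ k → 2 * Real.pi * L0 ≤ Real.pi * Real.log (C + 1) -
      Real.pi * Real.log k := by
    intro k hk
    have hk0 : (0 : ℝ) < k := by exact_mod_cast hk
    have hk1 : (1 : ℝ) / k ≤ 1 := by
      rw [div_le_one hk0]
      exact_mod_cast hk
    have hkp : (0 : ℝ) < 1 / k := by positivity
    set G : ℝ → ℝ → ℝ := fun ρ t => Real.log (F ρ t + 1 / k) with hG
    set B : ℝ := |Real.log (1 / k)| + Real.log (C + 1) with hB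
    have hlogC : 0 ≤ Real.log (C + 1) := Real.log_nonneg (by linarith)
    have hGb : ∀ ρ t, 0 < ρ → ρ < 1 → |G ρ t| ≤ B := by
      intro ρ t h1 h2
      have a1 := hF0 ρ t h1 h2
      have a2 := hFC ρ t h1 h2
      have b1 : Real.log (1 / k) ≤ G ρ t := Real.log_le_log hkp (by linarith)
      have b2 : G ρ t ≤ Real.log (C + 1) := Real.log_le_log (by linarith) (by linarith)
      rw [abs_le, hB]
      have := neg_abs_le (Real.log (1 / k))
      have := abs_nonneg (Real.log (1 / k))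
      constructor <;> linarith
    have hGm : ∀ ρ, 0 < ρ → ρ < 1 →
        AEStronglyMeasurable (G ρ) (volume.restrict (Ioc 0 (2 * Real.pi))) := by
      intro ρ h1 h2
      have h3 := (hm ρ h1 h2).aemeasurable.add_const (1 / (k : ℝ))
      exact (Real.measurable_log.comp_aemeasurable h3).aestronglyMeasurable
    have hGi : ∀ ρ, 0 < ρ → ρ < 1 → IntegrableOn (G ρ) (Ioc 0 (2 * Real.pi)) := by
      intro ρ h1 h2
      refine Integrable.mono' (integrable_const B) (hGm ρ h1 h2) ?_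
      exact Eventually.of_forall fun t => hGb ρ t h1 h2
    have hsub1 : Ioc 0 Real.pi ⊆ Ioc 0 (2 * Real.pi) := Ioc_subset_Ioc le_rfl (by linarith)
    have hsub2 : Ioc Real.pi (2 * Real.pi) ⊆ Ioc 0 (2 * Real.pi) := Ioc_subset_Ioc hπ.le le_rfl
    have hstep : ∀ ρ, 0 < ρ → ρ < 1 → 2 * Real.pi * L0 ≤ Real.pi * Real.log (C + 1) +
        ∫ t in Ioc Real.pi (2 * Real.pi), G ρ t := by
      intro ρ h1 h2
      have c1 : ∫ t in (0 : ℝ)..(2 * Real.pi), Real.log (F ρ t) ≤
          ∫ t in Ioc 0 (2 * Real.pi), G ρ t := by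
        rw [intervalIntegral.integral_of_le (by linarith)]
        apply integral_mono_ae (hint ρ h1 h2).1 (hGi ρ h1 h2)
        filter_upwards [ae_restrict_of_ae (hnz ρ h1 h2)] with t ht
        have := lt_of_le_of_ne (hF0 ρ t h1 h2) (Ne.symm ht)
        exact Real.log_le_log this (by linarith)
      have c2 : ∫ t in Ioc 0 (2 * Real.pi), G ρ t =
          (∫ t in Ioc 0 Real.pi, G ρ t) + ∫ t in Ioc Real.pi (2 * Real.pi), G ρ t := by
        rw [← setIntegral_union (Ioc_disjoint_Ioc_of_le le_rfl) measurableSet_Ioc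
          ((hGi ρ h1 h2).mono_set hsub1) ((hGi ρ h1 h2).mono_set hsub2),
          Ioc_union_Ioc_eq_Ioc hπ.le (by linarith)]
      have c3 : ∫ t in Ioc 0 Real.pi, G ρ t ≤ Real.pi * Real.log (C + 1) := by
        calc ∫ t in Ioc 0 Real.pi, G ρ t ≤ ∫ t in Ioc 0 Real.pi, Real.log (C + 1) := by
              apply setIntegral_mono_on ((hGi ρ h1 h2).mono_set hsub1) (integrable_const _)
                measurableSet_Ioc
              intro t _
              have a1 := hF0 ρ t h1 h2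
              have a2 := hFC ρ t h1 h2
              exact Real.log_le_log (by linarith) (by linarith)
          _ = Real.pi * Real.log (C + 1) := by
              rw [setIntegral_const, Real.volume_real_Ioc_of_le hπ.le, smul_eq_mul, sub_zero]
      have c4 := hle ρ h1 h2
      linarith
    -- dominated convergence
    set r : ℕ → ℝ := fun j => 1 - 1 / ((j : ℝ) + 2) with hr
    have hr0 : ∀ j, 0 < r j := by
      intro j
      have : 1 / ((j : ℝ) + 2) < 1 := by
        rw [div_lt_one (by positivity)]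
        have : (0 : ℝ) ≤ j := Nat.cast_nonneg j
        linarith
      simp only [hr]; linarith
    have hr1 : ∀ j, r j < 1 := by
      intro j
      have : 0 < 1 / ((j : ℝ) + 2) := by positivity
      simp only [hr]; linarith
    have hrt : Tendsto r atTop (𝓝[<] 1) := by
      apply tendsto_nhdsWithin_iff.2
      refine ⟨?_, Eventually.of_forall hr1⟩
      have h1 : Tendsto (fun j : ℕ => 1 / ((j : ℝ) + 2)) atTop (𝓝 0) := by
        have h2 := (tendsto_one_div_add_atTop_nhds_zero_nat (𝕜 := ℝ)).comp (tendsto_add_atTop_nat 1)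
        refine h2.congr fun j => ?_
        simp only [Function.comp_apply]
        push_cast
        ring_nf
      have := tendsto_const_nhds (x := (1 : ℝ)).sub h1
      simpa [hr] using this
    have hdom : Tendsto (fun j => ∫ t in Ioc Real.pi (2 * Real.pi), G (r j) t) atTop
        (𝓝 (∫ t in Ioc Real.pi (2 * Real.pi), Real.log (1 / k))) := by
      apply tendsto_integral_of_dominated_convergence (fun _ => B)
      · intro j
        exact (hGm (r j) (hr0 j) (hr1 j)).mono_measure (Measure.restrict_mono hsub2 le_rfl)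
      · exact integrable_const _
      · intro j
        exact Eventually.of_forall fun t => hGb (r j) t (hr0 j) (hr1 j)
      · have h1 : ∀ᵐ t : ℝ ∂(volume.restrict (Ioc Real.pi (2 * Real.pi))),
            t ∈ Ioo Real.pi (2 * Real.pi) := by
          rw [← restrict_Ioo_eq_restrict_Ioc]
          exact ae_restrict_mem measurableSet_Ioo
        filter_upwards [ae_restrict_of_ae hlim, h1] with t ht ht'
        have h2 := (ht ht').comp hrt
        have h3 : Tendsto (fun j => F (r j) t + 1 / (k : ℝ)) atTop (𝓝 (0 + 1 / (k : ℝ))) :=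
          h2.add tendsto_const_nhds
        rw [zero_add] at h3
        exact (Real.continuousAt_log hkp.ne').tendsto.comp h3
    have hval : ∫ t in Ioc Real.pi (2 * Real.pi), Real.log (1 / k) = -(Real.pi * Real.log k) := by
      rw [setIntegral_const, Real.volume_real_Ioc_of_le (by linarith), smul_eq_mul, one_div,
        Real.log_inv]
      ring
    rw [hval] at hdom
    have hfin : 2 * Real.pi * L0 ≤ Real.pi * Real.log (C + 1) + -(Real.pi * Real.log k) :=
      ge_of_tendsto' (tendsto_const_nhds.add hdom) fun j => hstep (r j) (hr0 j) (hr1 j)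
    linarith
  -- contradiction
  have ht : Tendsto (fun k : ℕ => Real.log k) atTop atTop :=
    Real.tendsto_log_atTop.comp tendsto_natCast_atTop_atTop
  obtain ⟨k, hk1, hk2⟩ := ((ht.eventually_gt_atTop (Real.log (C + 1) - 2 * L0)).and
    (eventually_ge_atTop 1)).exists
  have h1 := key k hk2
  nlinarith

/-- R8 (uses R4, R5, R7) -/
theorem halfdisc_zero {μ : Measure X} (hμ : PshDensities E μ)
    {e : OpenPartialHomeomorph X E} (he : HolChart e) {u : E → ℝ} (hu : Dens μ e u) {x y : E}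
    (hy : y ≠ 0) (hd : ∀ z : ℂ, ‖z‖ ≤ 1 → 0 ≤ z.im → x + z • y ∈ e.target)
    (h0 : ∀ᵐ t : ℝ, t ∈ Ioo (-1 : ℝ) 1 → u (x + (t : ℂ) • y) = 0) : u (x + gh 0 • y) = 0 := by
  by_contra hne
  -- compact set
  set D : Set ℂ := {z | ‖z‖ ≤ 1 ∧ 0 ≤ z.im} with hD
  have hDc : IsCompact D := by
    have : D = closedBall 0 1 ∩ {z : ℂ | 0 ≤ z.im} := by
      ext z
      simp only [hD, mem_setOf_eq, mem_inter_iff, mem_closedBall, dist_zero_right]
    rw [this]
    exact (isCompact_closedBall 0 1).inter_right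
      (isClosed_le continuous_const Complex.continuous_im)
  have hcont : Continuous (fun z : ℂ => x + z • y) := by fun_prop
  have hK : IsCompact ((fun z : ℂ => x + z • y) '' D) := hDc.image hcont
  have hKt : ((fun z : ℂ => x + z • y) '' D) ⊆ e.target := by
    rintro _ ⟨z, ⟨h1, h2⟩, rfl⟩
    exact hd z h1 h2
  have husc : UpperSemicontinuousOn u ((fun z : ℂ => x + z • y) '' D) := hu.psh.usc.mono hKt
  obtain ⟨C0, hC0⟩ : BddAbove (u '' ((fun z : ℂ => x + z • y) '' D)) :=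
    husc.bddAbove_of_isCompact hK
  have hcm : ∀ (ρ t : ℝ), 0 < ρ → ρ < 1 → ‖circleMap 0 ρ t‖ < 1 := by
    intro ρ t h1 h2
    rw [norm_circleMap_zero, abs_of_pos h1]
    exact h2
  have hmem : ∀ (ρ t : ℝ), 0 < ρ → ρ < 1 → gh (circleMap 0 ρ t) ∈ D := by
    intro ρ t h1 h2
    obtain ⟨a, b, -⟩ := gh_maps (hcm ρ t h1 h2)
    exact ⟨a.le, b.le⟩
  refine halfdisc_zero_aux (fun ρ t => u (x + gh (circleMap 0 ρ t) • y)) (max C0 1)
    (Real.log (u (x + gh 0 • y))) (le_max_right _ _) ?_ ?_ ?_ ?_ ?_ ?_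
  · intro ρ t h1 h2
    exact hu.psh.nonneg _ (hKt ⟨_, hmem ρ t h1 h2, rfl⟩)
  · intro ρ t h1 h2
    exact (hC0 ⟨_, ⟨_, hmem ρ t h1 h2, rfl⟩, rfl⟩).trans (le_max_left _ _)
  · intro ρ h1 h2
    exact (halfdisc_submean hμ he hu hy hd h1 h2 hne).1
  · intro ρ h1 h2
    exact (halfdisc_submean hμ he hu hy hd h1 h2 hne).2.1
  · intro ρ h1 h2
    have h3 := (halfdisc_submean hμ he hu hy hd h1 h2 hne).2.2
    rw [Real.circleAverage_def, smul_eq_mul] at h3
    have hπ : 0 < 2 * Real.pi := by positivity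
    calc 2 * Real.pi * Real.log (u (x + gh 0 • y)) ≤ 2 * Real.pi * ((2 * Real.pi)⁻¹ *
          ∫ θ in (0 : ℝ)..(2 * Real.pi), Real.log (u (x + gh (circleMap 0 ρ θ) • y))) :=
          mul_le_mul_of_nonneg_left h3 hπ.le
      _ = _ := by rw [← mul_assoc, mul_inv_cancel₀ hπ.ne', one_mul]
  · have hN : volume {t : ℝ | ¬ (t ∈ Ioo (-1 : ℝ) 1 → u (x + (t : ℂ) • y) = 0)} = 0 := h0
    filter_upwards [gh_boundary hN] with t ht ht'
    obtain ⟨τ, hτ, hτN, hlim⟩ := ht ht'
    have hτN' : τ ∈ Ioo (-1 : ℝ) 1 → u (x + (τ : ℂ) • y) = 0 := by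
      by_contra hcon
      exact hτN hcon
    have hu0 := hτN' hτ
    have hτD : (τ : ℂ) ∈ D := by
      refine ⟨?_, by simp⟩
      rw [Complex.norm_real, Real.norm_eq_abs, abs_le]
      exact ⟨hτ.1.le, hτ.2.le⟩
    have hτt : x + (τ : ℂ) • y ∈ e.target := hKt ⟨_, hτD, rfl⟩
    have hρ : ∀ᶠ ρ : ℝ in 𝓝[<] 1, 0 < ρ ∧ ρ < 1 := by
      have h1 : ∀ᶠ ρ : ℝ in 𝓝[<] 1, 0 < ρ :=
        mem_nhdsWithin_of_mem_nhds (lt_mem_nhds (by norm_num))
      filter_upwards [h1, self_mem_nhdsWithin] with ρ h2 h3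
      exact ⟨h2, h3⟩
    have hin : Tendsto (fun ρ : ℝ => x + gh (circleMap 0 ρ t) • y) (𝓝[<] 1)
        (𝓝[e.target] (x + (τ : ℂ) • y)) := by
      rw [tendsto_nhdsWithin_iff]
      refine ⟨(hcont.tendsto _).comp hlim, ?_⟩
      filter_upwards [hρ] with ρ h1
      exact hKt ⟨_, hmem ρ t h1.1 h1.2, rfl⟩
    rw [Metric.tendsto_nhds]
    intro ε hε
    have h1 := hin.eventually (hu.psh.usc _ hτt ε (by show u (x + (τ : ℂ) • y) < ε; rw [hu0]; exact hε))
    filter_upwards [h1, hρ] with ρ h2 h3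
    rw [Real.dist_eq, sub_zero, abs_of_nonneg]
    · exact h2
    · exact hu.psh.nonneg _ (hKt ⟨_, hmem ρ t h3.1 h3.2, rfl⟩)

end A


end Pool.Agent.H789R2.PE
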