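import Pool.Agent.H789R2.PE.TR2
import Pool.Agent.H789R2.PE.SuppSC

set_option autoImplicit false

open scoped Manifold ContDiff Topology ENNReal
open Set Filter MeasureTheory Metric

namespace Pool.Agent.H789R2.PE

/-! Lemmas by helpers 512 (R9), 831 (R10), 862 (R11), 90 (R12), 794 (R13), 142 (R14). -/

set_option linter.unusedSectionVars false

section C

variable {n : ℕ} {X : Type*} [TopologicalSpace X] [ChartedSpace (Fin n → ℂ) X]
  [IsManifold 𝓘(ℂ, Fin n → ℂ) ω X] [MeasurableSpace X] [BorelSpace X]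

/-! ### auxiliary lemmas for R9 -/

theorem r9_cx_cont (n : ℕ) : Continuous (cx : (Fin n → ℝ) → (Fin n → ℂ)) := by
  unfold cx
  fun_prop

theorem r9_cx_add {n : ℕ} (x y : Fin n → ℝ) : cx (x + y) = cx x + cx y := by
  funext i; simp [cx]

theorem r9_cx_smul {n : ℕ} (t : ℝ) (x : Fin n → ℝ) : cx (t • x) = (t : ℂ) • cx x := by
  funext i; simp [cx]

theorem r9_cx_norm {n : ℕ} (x : Fin n → ℝ) : ‖cx x‖ = ‖x‖ := by
  apply le_antisymm
  · refine (pi_norm_le_iff_of_nonneg (norm_nonneg x)).2 fun i => ?_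
    have : ‖cx x i‖ = ‖x i‖ := by simp [cx]
    rw [this]
    exact norm_le_pi_norm x i
  · refine (pi_norm_le_iff_of_nonneg (norm_nonneg _)).2 fun i => ?_
    have : ‖x i‖ = ‖cx x i‖ := by simp [cx]
    rw [this]
    exact norm_le_pi_norm (cx x) i

/-- the real linear isomorphism `(y, x) ↦ cx x + g • cx y` for `g = i c`, `c ≠ 0` -/
noncomputable def r9_L (n : ℕ) (g : ℂ) (h : g.im ≠ 0) :
    ((Fin n → ℝ) × (Fin n → ℝ)) ≃ₗ[ℝ] (Fin n → ℂ) where
  toFun p := cx p.2 + g • cx p.1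
  map_add' p q := by
    funext i
    simp [cx]
    ring
  map_smul' c p := by
    funext i
    simp [cx]
    ring
  invFun w := (fun i => (w i).im / g.im, fun i => (w i).re - g.re * ((w i).im / g.im))
  left_inv p := by
    refine Prod.ext ?_ ?_
    · funext i
      simp [cx]
      field_simp
    · funext i
      simp [cx]
      field_simp
      ring
  right_inv w := by
    funext i
    apply Complex.ext
    · simp [cx]
    · simp [cx]
      field_simp

/-- R9 (uses R4, R8) -/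
theorem not_ae_zero [NeZero n] {μ : Measure X} (hμ : PshDensities (Fin n → ℂ) μ)
    (hfull : ∀ U : Set X, IsOpen U → U.Nonempty → μ U ≠ 0)
    {e : OpenPartialHomeomorph X (Fin n → ℂ)} (he : HolChart e) {u : (Fin n → ℂ) → ℝ}
    (hu : Dens μ e u) {B : Set (Fin n → ℝ)} (hB : IsOpen B) (hBn : B.Nonempty)
    (hBe : ∀ x ∈ B, cx x ∈ e.target) : ¬ ∀ᵐ x : Fin n → ℝ, x ∈ B → u (cx x) = 0 := by
  intro hzero
  obtain ⟨x₀, hx₀⟩ := hBn
  -- radii
  obtain ⟨r₁, hr₁, hball₁⟩ := Metric.isOpen_iff.1 hB x₀ hx₀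
  obtain ⟨r₂, hr₂, hball₂⟩ := Metric.isOpen_iff.1 e.open_target (cx x₀) (hBe x₀ hx₀)
  set r : ℝ := min r₁ r₂ / 4 with hr
  have hrpos : 0 < r := by positivity
  have hr1 : 4 * r ≤ r₁ := by rw [hr]; linarith [min_le_left r₁ r₂]
  have hr2 : 4 * r ≤ r₂ := by rw [hr]; linarith [min_le_right r₁ r₂]
  -- indicator
  set G : (Fin n → ℂ) → ℝ≥0∞ := e.target.indicator fun x => ENNReal.ofReal (u x) with hGdef
  have hG : Measurable G := hu.psh.measurable_ind e.open_target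
  have hGz : ∀ w ∈ e.target, (G w = 0 ↔ u w = 0) := by
    intro w hw
    rw [hGdef, indicator_of_mem hw, ENNReal.ofReal_eq_zero]
    exact ⟨fun h => le_antisymm h (hu.psh.nonneg w hw), fun h => h.le⟩
  -- the half plane point
  have hg0 := gh_zero
  set g : ℂ := gh 0 with hg
  -- points near x₀
  have hin : ∀ x ∈ ball x₀ r, ∀ y ∈ ball (0 : Fin n → ℝ) r, ∀ z : ℂ, ‖z‖ ≤ 1 →
      cx x + z • cx y ∈ e.target := by
    intro x hx y hy z hz
    apply hball₂
    rw [mem_ball_iff_norm] at hx ⊢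
    rw [mem_ball_zero_iff] at hy
    have h1 : cx x + z • cx y - cx x₀ = cx (x - x₀) + z • cx y := by
      have : cx x = cx (x - x₀) + cx x₀ := by rw [← r9_cx_add, sub_add_cancel]
      rw [this]; abel
    rw [h1]
    have h2 : ‖z • cx y‖ ≤ ‖y‖ := by
      rw [norm_smul, r9_cx_norm]
      exact mul_le_of_le_one_left (norm_nonneg _) hz
    have h3 := norm_add_le (cx (x - x₀)) (z • cx y)
    rw [r9_cx_norm] at h3
    linarith
  -- the null set
  set N : Set (Fin n → ℝ) := {x | x ∈ B ∧ G (cx x) ≠ 0} with hNdef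
  have hNm : MeasurableSet N := by
    have h1 : MeasurableSet {x : Fin n → ℝ | G (cx x) ≠ 0} :=
      (hG.comp (r9_cx_cont n).measurable) (measurableSet_singleton 0).compl
    exact hB.measurableSet.inter h1
  have hN0 : volume N = 0 := by
    refine measure_mono_null ?_ (ae_iff.1 hzero)
    rintro x ⟨hxB, hx⟩
    simp only [mem_ofPred_eq, Classical.not_imp]
    exact ⟨hxB, fun h => hx ((hGz _ (hBe x hxB)).2 h)⟩
  -- the values on the half discs
  have hB2 : ∀ x ∈ ball x₀ r, ∀ y ∈ ball (0 : Fin n → ℝ) r, ∀ t : ℝ, |t| ≤ 1 →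
      x + t • y ∈ B := by
    intro x hx y hy t ht
    apply hball₁
    rw [mem_ball_iff_norm] at hx ⊢
    rw [mem_ball_zero_iff] at hy
    have h1 : x + t • y - x₀ = (x - x₀) + t • y := by abel
    rw [h1]
    have h2 : ‖t • y‖ ≤ ‖y‖ := by
      rw [norm_smul, Real.norm_eq_abs]
      exact mul_le_of_le_one_left (norm_nonneg _) ht
    have h3 := norm_add_le (x - x₀) (t • y)
    linarith
  have hstep : ∀ y ∈ ball (0 : Fin n → ℝ) r, ∀ᵐ x : Fin n → ℝ, x ∈ ball x₀ r →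
      u (cx x + g • cx y) = 0 := by
    intro y hy
    by_cases hy0 : y = 0
    · subst hy0
      filter_upwards [hzero] with x hx hxb
      have h1 : cx x + g • cx (0 : Fin n → ℝ) = cx x := by
        funext i
        simp [cx]
      rw [h1]
      apply hx
      have := hB2 x hxb 0 hy 0 (by simp)
      simpa using this
    · have hcy : cx y ≠ 0 := by
        intro h
        apply hy0
        rw [← norm_eq_zero, ← r9_cx_norm, h, norm_zero]
      have h1 : ∀ t : ℝ, ∀ᵐ x : Fin n → ℝ, x + t • y ∉ N := by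
        intro t
        rw [ae_iff]
        have : {x : Fin n → ℝ | ¬ (x + t • y ∉ N)} = (fun x => x + t • y) ⁻¹' N := by
          ext x
          simp
        rw [this, measure_preimage_add_right]
        exact hN0
      have hm : MeasurableSet {p : (Fin n → ℝ) × ℝ | p.1 + p.2 • y ∉ N} := by
        have hc : Continuous fun p : (Fin n → ℝ) × ℝ => p.1 + p.2 • y := by fun_prop
        exact (hc.measurable hNm).compl
      have h2 : ∀ᵐ x : Fin n → ℝ, ∀ᵐ t : ℝ, x + t • y ∉ N :=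
        (Measure.ae_ae_comm (μ := (volume : Measure (Fin n → ℝ)))
          (ν := (volume : Measure ℝ)) (p := fun x t => x + t • y ∉ N) hm).2 (ae_of_all _ h1)
      filter_upwards [h2] with x hx hxb
      refine halfdisc_zero hμ he hu (x := cx x) (y := cx y) hcy
        (fun z hz _ => hin x hxb y hy z hz) ?_
      filter_upwards [hx] with t ht htI
      have hmem : x + t • y ∈ B := hB2 x hxb y hy t (abs_le.2 ⟨htI.1.le, htI.2.le⟩)
      have h3 : cx x + (t : ℂ) • cx y = cx (x + t • y) := by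
        rw [r9_cx_add, r9_cx_smul]
      rw [h3]
      by_contra hne
      exact ht ⟨hmem, fun h => hne ((hGz _ (hBe _ hmem)).1 h)⟩
  -- the linear isomorphism
  set L := r9_L n g (ne_of_gt hg0.2) with hL
  have hLapp : ∀ p, L p = cx p.2 + g • cx p.1 := fun p => rfl
  let Lc : ((Fin n → ℝ) × (Fin n → ℝ)) ≃L[ℝ] (Fin n → ℂ) := L.toContinuousLinearEquiv
  have hLc : ∀ p, Lc p = L p := fun p => rfl
  set T : Set ((Fin n → ℝ) × (Fin n → ℝ)) :=
    (ball (0 : Fin n → ℝ) r ×ˢ ball x₀ r) ∩ {p | G (Lc p) ≠ 0} with hT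
  have hTm : MeasurableSet T := by
    refine (measurableSet_ball.prod measurableSet_ball).inter ?_
    exact (hG.comp Lc.continuous.measurable) (measurableSet_singleton 0).compl
  have hgn : ‖g‖ ≤ 1 := (gh_maps (ζ := 0) (by simp)).1.le
  have hT0 : ((volume : Measure (Fin n → ℝ)).prod (volume : Measure (Fin n → ℝ))) T = 0 := by
    rw [Measure.measure_prod_null hTm]
    refine ae_of_all _ fun y => ?_
    by_cases hy : y ∈ ball (0 : Fin n → ℝ) r
    · refine measure_mono_null ?_ (ae_iff.1 (hstep y hy))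
      rintro x ⟨⟨-, hxb⟩, hx⟩
      simp only [mem_ofPred_eq, Classical.not_imp]
      refine ⟨hxb, fun h => hx ?_⟩
      rw [hLc, hLapp]
      exact (hGz _ (hin x hxb y hy g hgn)).2 h
    · have : Prod.mk y ⁻¹' T = ∅ := by
        ext x
        simp only [hT, mem_preimage, mem_inter_iff, mem_prod, mem_empty_iff_false, iff_false]
        rintro ⟨⟨h, -⟩, -⟩
        exact hy h
      simp [this]
  -- the open set
  set W : Set (Fin n → ℂ) := Lc '' (ball (0 : Fin n → ℝ) r ×ˢ ball x₀ r) with hW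
  have hWo : IsOpen W := Lc.toHomeomorph.isOpenMap _ (isOpen_ball.prod isOpen_ball)
  have hWn : W.Nonempty := ⟨Lc (0, x₀), (0, x₀), ⟨mem_ball_self hrpos, mem_ball_self hrpos⟩, rfl⟩
  have hWt : W ⊆ e.target := by
    rintro _ ⟨⟨y, x⟩, ⟨hy, hx⟩, rfl⟩
    exact hin x hx y hy g hgn
  have hSnull : (Measure.addHaar : Measure (Fin n → ℂ)) (Lc '' T) = 0 := by
    have h0 : Measure.IsAddHaarMeasure
        ((volume : Measure (Fin n → ℝ)).prod (volume : Measure (Fin n → ℝ))) :=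
      Measure.prod.instIsAddHaarMeasure _ _
    have h1 : Measure.IsAddHaarMeasure
        (Measure.map Lc ((volume : Measure (Fin n → ℝ)).prod (volume : Measure (Fin n → ℝ)))) :=
      Lc.isAddHaarMeasure_map _
    have h2 : (Measure.addHaar : Measure (Fin n → ℂ)) ≪
        (Measure.map Lc ((volume : Measure (Fin n → ℝ)).prod (volume : Measure (Fin n → ℝ)))) :=
      Measure.absolutelyContinuous_isAddHaarMeasure _ _
    apply h2
    have h3 : MeasurableSet (Lc '' T) := by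
      exact Lc.toHomeomorph.toMeasurableEquiv.measurableEmbedding.measurableSet_image.2 hTm
    rw [Measure.map_apply Lc.continuous.measurable h3, preimage_image_eq _ Lc.injective]
    exact hT0
  have hint : ∫⁻ w in W, ENNReal.ofReal (u w) ∂Measure.addHaar = 0 := by
    apply lintegral_eq_zero_of_ae_eq_zero
    rw [Filter.EventuallyEq, ae_restrict_iff' hWo.measurableSet, ae_iff]
    refine measure_mono_null ?_ hSnull
    intro w hw
    simp only [mem_ofPred_eq, Classical.not_imp] at hw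
    obtain ⟨⟨p, hp, rfl⟩, hne⟩ := hw
    refine ⟨p, ⟨hp, ?_⟩, rfl⟩
    intro h
    apply hne
    have := (hGz _ (hWt ⟨p, hp, rfl⟩)).1 h
    simp [this]
  refine hfull (e.symm '' W) (e.isOpen_image_symm_of_subset_target hWo hWt) (hWn.image _) ?_
  rw [hu.meas W hWt hWo.measurableSet, hint]

end C

section C

variable {n : ℕ} {X : Type*} [TopologicalSpace X] [ChartedSpace (Fin n → ℂ) X]
  [IsManifold 𝓘(ℂ, Fin n → ℂ) ω X] [MeasurableSpace X] [BorelSpace X]
  {M : Type*} [TopologicalSpace M] [ChartedSpace (Fin n → ℝ) M]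
  [IsManifold 𝓘(ℝ, Fin n → ℝ) ∞ M] [MeasurableSpace M] [BorelSpace M]

set_option linter.unusedSectionVars false

theorem cx_isometry : Isometry (cx : (Fin n → ℝ) → (Fin n → ℂ)) :=
  Isometry.piMap (fun _ => (Complex.ofReal : ℝ → ℂ)) (fun _ => Complex.isometry_ofReal)

/-- R10, one chart -/
theorem real_bound_chart {ι : M → X} (hι : TotallyReal n ι) (C : ℝ≥0∞) (hC : C ≠ ⊤) (x : M) :
    ∃ (W : Set M) (Λ : Measure M), W ∈ 𝓝 x ∧ Λ univ < ⊤ ∧
      ∀ μ : Measure X, PshDensities (Fin n → ℂ) μ → μ univ ≤ C → ∀ m : Measure M,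
        RealTrace n ι μ m → ∀ s : Set M, MeasurableSet s → m (s ∩ W) ≤ Λ s := by
  obtain ⟨c, e, hxc, hA⟩ := hι x
  have hxt : cx (c x) ∈ e.target := by
    obtain ⟨h1, h2⟩ := hA.maps x hxc
    rw [← h2]
    exact e.map_source h1
  have hct : c x ∈ c.target := c.map_source hxc
  obtain ⟨r₀, hr₀, hball⟩ := Metric.isOpen_iff.1 e.open_target (cx (c x)) hxt
  obtain ⟨r₁, hr₁, hball1⟩ := Metric.isOpen_iff.1 c.open_target (c x) hct
  obtain ⟨r, hr, hrr0, hrr1⟩ : ∃ r : ℝ, 0 < r ∧ 2 * r ≤ r₀ ∧ r ≤ r₁ := by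
    refine ⟨min (r₀ / 2) r₁, lt_min (by positivity) hr₁, ?_, min_le_right _ _⟩
    have := min_le_left (r₀ / 2) r₁
    linarith
  have hb2 : ball (cx (c x)) (2 * r) ⊆ e.target := (ball_subset_ball hrr0).trans hball
  have hb1 : ball (c x) r ⊆ c.target := (ball_subset_ball hrr1).trans hball1
  have hO : IsOpen (c.source ∩ c ⁻¹' ball (c x) r) := c.isOpen_inter_preimage isOpen_ball
  have hxO : x ∈ c.source ∩ c ⁻¹' ball (c x) r := ⟨hxc, mem_ball_self hr⟩
  have hpos : (Measure.addHaar : Measure (Fin n → ℂ)) (ball (0 : Fin n → ℂ) r) ≠ 0 :=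
    (measure_ball_pos _ _ hr).ne'
  have hfin : (Measure.addHaar : Measure (Fin n → ℂ)) (ball (0 : Fin n → ℂ) r) ≠ ⊤ :=
    measure_ball_lt_top.ne
  have hcont : ContinuousOn c.symm (ball (c x) r) := c.continuousOn_symm.mono hb1
  have hae : AEMeasurable c.symm ((volume : Measure (Fin n → ℝ)).restrict (ball (c x) r)) :=
    hcont.aemeasurable measurableSet_ball
  set K : ℝ≥0∞ := C / (Measure.addHaar : Measure (Fin n → ℂ)) (ball (0 : Fin n → ℂ) r) with hK
  refine ⟨c.source ∩ c ⁻¹' ball (c x) r,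
    (K ^ (1 / 2 : ℝ)) • Measure.map c.symm ((volume : Measure (Fin n → ℝ)).restrict (ball (c x) r)),
    hO.mem_nhds hxO, ?_, ?_⟩
  · rw [Measure.smul_apply, smul_eq_mul]
    refine ENNReal.mul_lt_top
      (ENNReal.rpow_lt_top_of_nonneg (by norm_num) (ENNReal.div_lt_top hC hpos).ne) ?_
    rw [Measure.map_apply_of_aemeasurable hae MeasurableSet.univ, preimage_univ,
      Measure.restrict_apply_univ]
    exact measure_ball_lt_top
  · intro μ hμp hμC m hm s hs
    obtain ⟨u, hu, hμ⟩ := hμp e hA.hol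
    have hsub : s ∩ (c.source ∩ c ⁻¹' ball (c x) r) ⊆
        c.symm '' (ball (c x) r ∩ c.symm ⁻¹' s) := by
      rintro y ⟨hys, hy1, hy2⟩
      refine ⟨c y, ⟨hy2, ?_⟩, c.left_inv hy1⟩
      rw [mem_preimage, c.left_inv hy1]
      exact hys
    have hmeas : MeasurableSet (ball (c x) r ∩ c.symm ⁻¹' s) := by
      have h1 : Measurable ((ball (c x) r).domRestrict c.symm) :=
        (continuousOn_iff_continuous_domRestrict.1 hcont).measurable
      have h2 := measurableSet_ball.subtype_image (h1 hs)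
      convert h2 using 1
      ext y
      simp only [mem_inter_iff, mem_preimage, mem_image, Subtype.exists,
        exists_and_right, exists_eq_right]
      constructor
      · rintro ⟨h3, h4⟩
        exact ⟨h3, h4⟩
      · rintro ⟨h3, h4⟩
        exact ⟨h3, h4⟩
    have hle : ∀ y ∈ ball (c x) r ∩ c.symm ⁻¹' s,
        ENNReal.ofReal (u (cx y)) ^ (1 / 2 : ℝ) ≤ K ^ (1 / 2 : ℝ) := by
      rintro y ⟨hy, -⟩
      apply ENNReal.rpow_le_rpow _ (by norm_num)
      have hby : ball (cx y) r ⊆ e.target := by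
        refine Subset.trans ?_ hb2
        refine (ball_subset_ball' ?_)
        have h1 := mem_ball.1 hy
        have h2 : dist (cx y) (cx (c x)) = dist y (c x) := cx_isometry.dist_eq _ _
        rw [h2]
        linarith
      rw [hK, ENNReal.le_div_iff_mul_le (Or.inl hpos) (Or.inl hfin)]
      refine (hu.ball_le e.open_target hby).trans ?_
      rw [← hμ _ hby measurableSet_ball]
      exact (measure_mono (subset_univ _)).trans hμC
    calc m (s ∩ (c.source ∩ c ⁻¹' ball (c x) r))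
        ≤ m (c.symm '' (ball (c x) r ∩ c.symm ⁻¹' s)) := measure_mono hsub
      _ ≤ ∫⁻ y in ball (c x) r ∩ c.symm ⁻¹' s, ENNReal.ofReal (u (cx y)) ^ (1 / 2 : ℝ) :=
          hm c e hA u ⟨hu, hμ⟩ _ (inter_subset_left.trans hb1) hmeas
      _ ≤ ∫⁻ _ in ball (c x) r ∩ c.symm ⁻¹' s, K ^ (1 / 2 : ℝ) :=
          setLIntegral_mono' hmeas hle
      _ = K ^ (1 / 2 : ℝ) * volume (ball (c x) r ∩ c.symm ⁻¹' s) := setLIntegral_const _ _
      _ = _ := by
          rw [Measure.smul_apply, smul_eq_mul, Measure.map_apply_of_aemeasurable hae hs,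
            Measure.restrict_apply' measurableSet_ball, inter_comm]

/-- R10 (uses ExpPsh.ball_le; like exists_bound in Supp.lean) -/
theorem real_bound [T2Space M] [CompactSpace M] {ι : M → X} (hι : TotallyReal n ι) (C : ℝ≥0∞)
    (hC : C ≠ ⊤) : ∃ Λ : Measure M, IsFiniteMeasure Λ ∧ ∀ μ : Measure X,
      PshDensities (Fin n → ℂ) μ → μ univ ≤ C → ∀ m : Measure M, RealTrace n ι μ m → m ≤ Λ := by
  choose W L hW hL h using fun x : M => real_bound_chart hι C hC x
  obtain ⟨t, ht⟩ := CompactSpace.elim_nhds_subcover W hW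
  refine ⟨∑ x ∈ t, L x, ⟨?_⟩, ?_⟩
  · rw [Measure.finsetSum_apply]
    exact ENNReal.sum_lt_top.2 fun x _ => hL x
  · intro μ hμ hμC m hm
    rw [Measure.le_iff]
    intro s hs
    have hcov : s ⊆ ⋃ x ∈ t, s ∩ W x := by
      intro y hy
      have : y ∈ ⋃ x ∈ t, W x := by rw [ht]; trivial
      simp only [mem_iUnion, exists_prop] at this ⊢
      obtain ⟨x, hx, hyx⟩ := this
      exact ⟨x, hx, hy, hyx⟩
    calc m s ≤ m (⋃ x ∈ t, s ∩ W x) := measure_mono hcov
      _ ≤ ∑ x ∈ t, m (s ∩ W x) := measure_biUnion_finset_le t _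
      _ ≤ ∑ x ∈ t, L x s := Finset.sum_le_sum fun x _ => h x μ hμ hμC m hm s hs
      _ = (∑ x ∈ t, L x) s := (Measure.finsetSum_apply _ _ _).symm

end C

section B

variable {n : ℕ} {X : Type*} [TopologicalSpace X] [ChartedSpace (Fin n → ℂ) X]
  [IsManifold 𝓘(ℂ, Fin n → ℂ) ω X] [MeasurableSpace X] [BorelSpace X]
  {M : Type*} [TopologicalSpace M] [ChartedSpace (Fin n → ℝ) M]
  [MeasurableSpace M] [BorelSpace M]

omit [IsManifold 𝓘(ℂ, Fin n → ℂ) ω X] [MeasurableSpace X] [BorelSpace X] [MeasurableSpace M]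
  [BorelSpace M] in
/-- Composing an adapted pair of charts with a homeomorphism `F` of the ambient manifold and its
restriction `f`. -/
theorem Adapted.comp_homeo {ι : M → X} {F : X ≃ₜ X}
    (hF : ContMDiff 𝓘(ℂ, Fin n → ℂ) 𝓘(ℂ, Fin n → ℂ) ω F)
    (hF' : ContMDiff 𝓘(ℂ, Fin n → ℂ) 𝓘(ℂ, Fin n → ℂ) ω F.symm) {f : M ≃ₜ M}
    (hf : ContMDiff 𝓘(ℝ, Fin n → ℝ) 𝓘(ℝ, Fin n → ℝ) 1 f)
    (hf' : ContMDiff 𝓘(ℝ, Fin n → ℝ) 𝓘(ℝ, Fin n → ℝ) 1 f.symm) (hFf : ∀ y, F (ι y) = ι (f y))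
    {c : OpenPartialHomeomorph M (Fin n → ℝ)} {e : OpenPartialHomeomorph X (Fin n → ℂ)}
    (h : Adapted ι c e) :
    Adapted ι (f.toOpenPartialHomeomorph.trans c) (F.toOpenPartialHomeomorph.trans e) := by
  have hctgt : (f.toOpenPartialHomeomorph.trans c).target = c.target := by
    rw [OpenPartialHomeomorph.trans_target]
    simp
  have hcsrc : (f.toOpenPartialHomeomorph.trans c).source = f ⁻¹' c.source := by
    rw [OpenPartialHomeomorph.trans_source]
    simp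
  have hetgt : (F.toOpenPartialHomeomorph.trans e).target = e.target := by
    rw [OpenPartialHomeomorph.trans_target]
    simp
  have hesrc : (F.toOpenPartialHomeomorph.trans e).source = F ⁻¹' e.source := by
    rw [OpenPartialHomeomorph.trans_source]
    simp
  refine ⟨⟨?_, ?_⟩, ?_, ?_, ?_⟩
  · have h1 : ContMDiffOn 𝓘(ℂ, Fin n → ℂ) 𝓘(ℂ, Fin n → ℂ) ω (e ∘ F) (F ⁻¹' e.source) :=
      h.hol.hol.comp hF.contMDiffOn (fun x hx => hx)
    rw [hesrc]
    exact h1
  · have h1 : ContMDiffOn 𝓘(ℂ, Fin n → ℂ) 𝓘(ℂ, Fin n → ℂ) ω (F.symm ∘ e.symm) e.target :=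
      hF'.comp_contMDiffOn h.hol.hol_symm
    rw [hetgt]
    exact h1
  · have h1 : ContMDiffOn 𝓘(ℝ, Fin n → ℝ) 𝓘(ℝ, Fin n → ℝ) 1 (c ∘ f) (f ⁻¹' c.source) :=
      h.smooth.comp hf.contMDiffOn (fun x hx => hx)
    rw [hcsrc]
    exact h1
  · have h1 : ContMDiffOn 𝓘(ℝ, Fin n → ℝ) 𝓘(ℝ, Fin n → ℝ) 1 (f.symm ∘ c.symm) c.target :=
      hf'.comp_contMDiffOn h.smooth_symm
    rw [hctgt]
    exact h1
  · intro y hy
    rw [hcsrc] at hy
    obtain ⟨h1, h2⟩ := h.maps (f y) hy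
    rw [hesrc]
    refine ⟨?_, ?_⟩
    · show F (ι y) ∈ e.source
      rw [hFf]
      exact h1
    · show e (F (ι y)) = cx (c (f y))
      rw [hFf]
      exact h2

/-- R11 -/
theorem RealTrace.map_hol {ι : M → X} {F : X ≃ₜ X}
    (hF : ContMDiff 𝓘(ℂ, Fin n → ℂ) 𝓘(ℂ, Fin n → ℂ) ω F)
    (hF' : ContMDiff 𝓘(ℂ, Fin n → ℂ) 𝓘(ℂ, Fin n → ℂ) ω F.symm) {f : M ≃ₜ M}
    (hf : ContMDiff 𝓘(ℝ, Fin n → ℝ) 𝓘(ℝ, Fin n → ℝ) 1 f)
    (hf' : ContMDiff 𝓘(ℝ, Fin n → ℝ) 𝓘(ℝ, Fin n → ℝ) 1 f.symm) (hFf : ∀ y, F (ι y) = ι (f y))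
    {μ : Measure X} {m : Measure M} (h : RealTrace n ι μ m) :
    RealTrace n ι (μ.map F) (m.map f) := by
  intro c e hce u hu s hs hsm
  have hctgt : (f.toOpenPartialHomeomorph.trans c).target = c.target := by
    rw [OpenPartialHomeomorph.trans_target]
    simp
  have hetgt : (F.toOpenPartialHomeomorph.trans e).target = e.target := by
    rw [OpenPartialHomeomorph.trans_target]
    simp
  have hd : Dens μ (F.toOpenPartialHomeomorph.trans e) u := by
    refine ⟨?_, ?_⟩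
    · rw [hetgt]
      exact hu.psh
    · intro t ht htm
      rw [hetgt] at ht
      rw [← hu.meas t ht htm]
      have e1 : (μ.map F) (e.symm '' t) = μ (F ⁻¹' (e.symm '' t)) :=
        F.toMeasurableEquiv.map_apply _
      rw [e1]
      congr 1
      have e3 : (F.toOpenPartialHomeomorph.trans e).symm '' t = F.symm '' (e.symm '' t) := by
        rw [← image_comp]
        rfl
      rw [e3]
      exact F.symm.image_eq_preimage_symm _
  have hmain := h (f.toOpenPartialHomeomorph.trans c) (F.toOpenPartialHomeomorph.trans e)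
    (hce.comp_homeo hF hF' hf hf' hFf) u hd s (hctgt.symm ▸ hs) hsm
  have e1 : (m.map f) (c.symm '' s) = m (f ⁻¹' (c.symm '' s)) :=
    f.toMeasurableEquiv.map_apply _
  have e3 : (f.toOpenPartialHomeomorph.trans c).symm '' s = f.symm '' (c.symm '' s) := by
    rw [← image_comp]
    rfl
  have e4 : f.symm '' (c.symm '' s) = f ⁻¹' (c.symm '' s) :=
    f.symm.image_eq_preimage_symm _
  rw [e1, ← e4, ← e3]
  exact hmain

end B

section C

variable {n : ℕ} {X : Type*} [TopologicalSpace X] [ChartedSpace (Fin n → ℂ) X]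
  [IsManifold 𝓘(ℂ, Fin n → ℂ) ω X] [MeasurableSpace X] [BorelSpace X]

variable {M : Type*} [TopologicalSpace M] [ChartedSpace (Fin n → ℝ) M]
  [IsManifold 𝓘(ℝ, Fin n → ℝ) ∞ M] [MeasurableSpace M] [BorelSpace M]

/-- `cx` as a continuous linear map -/
noncomputable def R12_cxL (n : ℕ) : (Fin n → ℝ) →L[ℝ] (Fin n → ℂ) :=
  ContinuousLinearMap.pi fun i => Complex.ofRealCLM.comp (ContinuousLinearMap.proj i)

theorem R12_cxL_apply {n : ℕ} (v : Fin n → ℝ) : R12_cxL n v = cx v := by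
  funext i
  simp [R12_cxL, cx]

theorem R12_cx_hasFDeriv {n : ℕ} (x : Fin n → ℝ) : HasFDerivAt (cx (n := n)) (R12_cxL n) x := by
  have h : (cx (n := n)) = R12_cxL n := by
    funext v
    exact (R12_cxL_apply v).symm
  rw [h]
  exact (R12_cxL n).hasFDerivAt

/-- images under inverse charts are measurable -/
theorem R12_meas {Y : Type*} [TopologicalSpace Y] [MeasurableSpace Y] [BorelSpace Y] {Z : Type*}
    [TopologicalSpace Z] [MeasurableSpace Z] [BorelSpace Z] [Nonempty Z]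
    (c : OpenPartialHomeomorph Y Z) {s : Set Z} (hs : s ⊆ c.target) (hsm : MeasurableSet s) :
    MeasurableSet (c.symm '' s) := by
  classical
  have h1 : c.symm '' s = c.source ∩ c ⁻¹' s := by
    rw [c.symm_image_eq_source_inter_preimage hs]
  obtain ⟨z⟩ := (inferInstance : Nonempty Z)
  have h2 : Measurable (c.source.piecewise c (fun _ => z)) :=
    c.continuousOn.measurable_piecewise continuousOn_const c.open_source.measurableSet
  have h3 : c.source ∩ c ⁻¹' s = c.source ∩ (c.source.piecewise c (fun _ => z)) ⁻¹' s := by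
    ext y
    constructor
    · rintro ⟨a, b⟩
      exact ⟨a, by rwa [mem_preimage, piecewise_eq_of_mem _ _ _ a]⟩
    · rintro ⟨a, b⟩
      exact ⟨a, by rwa [mem_preimage, piecewise_eq_of_mem _ _ _ a] at b⟩
  rw [h1, h3]
  exact c.open_source.measurableSet.inter (h2 hsm)

omit [BorelSpace X] [IsManifold 𝓘(ℝ, Fin n → ℝ) ∞ M] [MeasurableSpace M] [BorelSpace M] in
/-- the pointwise identity -/
theorem R12_point {ι : M → X} {μ : Measure X} {c₀ c : OpenPartialHomeomorph M (Fin n → ℝ)}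
    {e₀ e : OpenPartialHomeomorph X (Fin n → ℂ)} (h₀ : Adapted ι c₀ e₀) (h : Adapted ι c e)
    {u₀ u : (Fin n → ℂ) → ℝ} (hu₀ : Dens μ e₀ u₀) (hu : Dens μ e u) {x : Fin n → ℝ}
    (hx : x ∈ c₀.target) (hx' : c₀.symm x ∈ c.source)
    (hd : DifferentiableAt ℝ (c ∘ c₀.symm) x) :
    u₀ (cx x) = (fderiv ℝ (c ∘ c₀.symm) x).det ^ 2 * u (cx (c (c₀.symm x))) := by
  have hy : c₀.symm x ∈ c₀.source := c₀.map_target hx
  obtain ⟨a1, a2⟩ := h₀.maps _ hy
  obtain ⟨b1, b2⟩ := h.maps _ hx'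
  rw [c₀.right_inv hx] at a2
  have key := dens_eq h.hol h₀.hol hu hu₀ b1 a1
  rw [a2, b2] at key
  rw [key]
  congr 1
  -- the map `T`
  set T : (Fin n → ℂ) → (Fin n → ℂ) := e ∘ e₀.symm with hT
  have hTd : DifferentiableAt ℂ T (cx x) := by
    have h1 : ContMDiffOn 𝓘(ℂ, Fin n → ℂ) 𝓘(ℂ, Fin n → ℂ) ω T
        (e₀.target ∩ e₀.symm ⁻¹' e.source) :=
      h.hol.hol.comp' h₀.hol.hol_symm
    have h2 : ContDiffOn ℂ ω T (e₀.target ∩ e₀.symm ⁻¹' e.source) :=
      contMDiffOn_iff_contDiffOn.mp h1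
    have hopen : IsOpen (e₀.target ∩ e₀.symm ⁻¹' e.source) :=
      e₀.symm.isOpen_inter_preimage e.open_source
    have hmem : cx x ∈ e₀.target ∩ e₀.symm ⁻¹' e.source := by
      refine ⟨?_, ?_⟩
      · rw [← a2]; exact e₀.map_source a1
      · rw [mem_preimage, ← a2, e₀.left_inv a1]; exact b1
    exact (h2.differentiableOn (by simp)).differentiableAt (hopen.mem_nhds hmem)
  have hopen2 : IsOpen (c₀.target ∩ c₀.symm ⁻¹' c.source) :=
    c₀.symm.isOpen_inter_preimage c.open_source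
  have hev : (T ∘ cx) =ᶠ[𝓝 x] (cx ∘ (c ∘ c₀.symm)) := by
    filter_upwards [hopen2.mem_nhds ⟨hx, hx'⟩] with z hz
    have hz1 := h₀.maps _ (c₀.map_target hz.1)
    have hz2 := h.maps _ hz.2
    rw [c₀.right_inv hz.1] at hz1
    show e (e₀.symm (cx z)) = cx (c (c₀.symm z))
    rw [← hz1.2, e₀.left_inv hz1.1, hz2.2]
  have hR : HasFDerivAt T ((fderiv ℂ T (cx x)).restrictScalars ℝ) (cx x) :=
    hTd.hasFDerivAt.restrictScalars ℝ
  have h1 : HasFDerivAt (T ∘ cx) (((fderiv ℂ T (cx x)).restrictScalars ℝ).comp (R12_cxL n)) x :=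
    hR.comp x (R12_cx_hasFDeriv x)
  have h2 : HasFDerivAt (cx ∘ (c ∘ c₀.symm))
      ((R12_cxL n).comp (fderiv ℝ (c ∘ c₀.symm) x)) x :=
    (R12_cx_hasFDeriv _).comp x hd.hasFDerivAt
  have h3 := h1.unique (h2.congr_of_eventuallyEq hev)
  have h4 : ∀ v, fderiv ℂ T (cx x) (cx v) = cx (fderiv ℝ (c ∘ c₀.symm) x v) := by
    intro v
    have := congrArg (fun L : (Fin n → ℝ) →L[ℝ] (Fin n → ℂ) => L v) h3
    simpa [R12_cxL_apply] using this
  rw [hR.fderiv]
  exact det_real _ _ h4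

/-- R12 (uses R2, R3) -/
theorem trace_of_chart {ι : M → X} {μ : Measure X} {c₀ : OpenPartialHomeomorph M (Fin n → ℝ)}
    {e₀ : OpenPartialHomeomorph X (Fin n → ℂ)} (h₀ : Adapted ι c₀ e₀) {u₀ : (Fin n → ℂ) → ℝ}
    (hu₀ : Dens μ e₀ u₀) :
    RealTrace n ι μ (Measure.map c₀.symm ((volume.restrict c₀.target).withDensity
      fun x => ENNReal.ofReal (u₀ (cx x)) ^ (1 / 2 : ℝ))) := by
  intro c e h u hu s hs hsm
  have hcm := R12_meas c hs hsm
  by_cases hae : AEMeasurable c₀.symm ((volume.restrict c₀.target).withDensity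
      fun x => ENNReal.ofReal (u₀ (cx x)) ^ (1 / 2 : ℝ))
  swap
  · rw [Measure.map_of_not_aemeasurable hae]
    simp
  rw [Measure.map_apply_of_aemeasurable hae hcm, withDensity_apply',
    Measure.restrict_restrict' c₀.open_target.measurableSet]
  set A : Set (Fin n → ℝ) := c₀.symm ⁻¹' (c.symm '' s) ∩ c₀.target with hA
  have hsub : A ⊆ c₀.target ∩ c₀.symm ⁻¹' c.source := by
    rintro x ⟨⟨y, hy, hyx⟩, hx⟩
    refine ⟨hx, ?_⟩
    rw [mem_preimage, ← hyx]
    exact c.map_target (hs hy)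
  have hAm : MeasurableSet A := by
    have h1 : A = c₀ '' (c₀.source ∩ (c.symm '' s)) := by
      ext x
      constructor
      · rintro ⟨h1, h2⟩
        exact ⟨c₀.symm x, ⟨c₀.map_target h2, h1⟩, c₀.right_inv h2⟩
      · rintro ⟨y, ⟨h1, h2⟩, rfl⟩
        exact ⟨by rwa [mem_preimage, c₀.left_inv h1], c₀.map_source h1⟩
    rcases A.eq_empty_or_nonempty with h2 | ⟨x, hx⟩
    · rw [h2]; exact MeasurableSet.empty
    · have : Nonempty M := ⟨c₀.symm x⟩
      rw [h1]
      exact R12_meas c₀.symm inter_subset_left (c₀.open_source.measurableSet.inter hcm)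
  have hopen2 : IsOpen (c₀.target ∩ c₀.symm ⁻¹' c.source) :=
    c₀.symm.isOpen_inter_preimage c.open_source
  have hC1 : ContDiffOn ℝ 1 (c ∘ c₀.symm) (c₀.target ∩ c₀.symm ⁻¹' c.source) :=
    contMDiffOn_iff_contDiffOn.mp (h.smooth.comp' h₀.smooth_symm)
  have hdiff : ∀ x ∈ A, DifferentiableAt ℝ (c ∘ c₀.symm) x := fun x hx =>
    (hC1.differentiableOn (by norm_num)).differentiableAt (hopen2.mem_nhds (hsub hx))
  have hinj : InjOn (c ∘ c₀.symm) A := by
    intro x hx y hy hxy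
    have h1 := c.injOn (hsub hx).2 (hsub hy).2 hxy
    exact c₀.symm.injOn (hsub hx).1 (hsub hy).1 h1
  have hmaps : (c ∘ c₀.symm) '' A ⊆ s := by
    rintro _ ⟨x, ⟨⟨y, hy, hyx⟩, hx⟩, rfl⟩
    show c (c₀.symm x) ∈ s
    rw [← hyx, c.right_inv (hs hy)]
    exact hy
  calc ∫⁻ x in A, ENNReal.ofReal (u₀ (cx x)) ^ (1 / 2 : ℝ)
      = ∫⁻ x in A, ENNReal.ofReal |(fderiv ℝ (c ∘ c₀.symm) x).det| *
          (ENNReal.ofReal (u (cx ((c ∘ c₀.symm) x))) ^ (1 / 2 : ℝ)) := by
        refine setLIntegral_congr_fun hAm fun x hx => ?_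
        have h1 := R12_point h₀ h hu₀ hu (hsub hx).1 (hsub hx).2 (hdiff x hx)
        show ENNReal.ofReal (u₀ (cx x)) ^ (1 / 2 : ℝ) = _
        rw [h1, ENNReal.ofReal_mul (sq_nonneg _), ENNReal.mul_rpow_of_nonneg _ _ (by norm_num),
          ENNReal.ofReal_rpow_of_nonneg (sq_nonneg _) (by norm_num), ← Real.sqrt_eq_rpow,
          Real.sqrt_sq_eq_abs]
        rfl
    _ = ∫⁻ x in (c ∘ c₀.symm) '' A, ENNReal.ofReal (u (cx x)) ^ (1 / 2 : ℝ) :=
        (lintegral_image_eq_lintegral_abs_det_fderiv_mul volume hAm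
          (fun x hx => (hdiff x hx).hasFDerivAt.hasFDerivWithinAt) hinj
          (fun x => ENNReal.ofReal (u (cx x)) ^ (1 / 2 : ℝ))).symm
    _ ≤ ∫⁻ x in s, ENNReal.ofReal (u (cx x)) ^ (1 / 2 : ℝ) := lintegral_mono_set hmaps

end C

section C

variable {n : ℕ} {X : Type*} [TopologicalSpace X] [ChartedSpace (Fin n → ℂ) X]
  [IsManifold 𝓘(ℂ, Fin n → ℂ) ω X] [MeasurableSpace X] [BorelSpace X]

variable {M : Type*} [TopologicalSpace M] [ChartedSpace (Fin n → ℝ) M]
  [IsManifold 𝓘(ℝ, Fin n → ℝ) ∞ M] [MeasurableSpace M] [BorelSpace M]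

/-- R13 (uses R9, R12) -/
theorem exists_trace [NeZero n] {ι : M → X} (hι : TotallyReal n ι) {μ : Measure X}
    (hμ : PshDensities (Fin n → ℂ) μ) (hfull : ∀ U : Set X, IsOpen U → U.Nonempty → μ U ≠ 0)
    {V : Set M} (hV : IsOpen V) (hVn : V.Nonempty) :
    ∃ m : Measure M, RealTrace n ι μ m ∧ m V ≠ 0 := by
  obtain ⟨x, hx⟩ := hVn
  obtain ⟨c₀, e₀, hxc, h₀⟩ := hι x
  obtain ⟨u₀, hu₀, hm₀⟩ := hμ e₀ h₀.hol
  have hd : Dens μ e₀ u₀ := ⟨hu₀, hm₀⟩
  refine ⟨_, trace_of_chart h₀ hd, ?_⟩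
  intro h0
  obtain ⟨B, hB⟩ : ∃ B : Set (Fin n → ℝ), B = c₀.target ∩ c₀.symm ⁻¹' V := ⟨_, rfl⟩
  have hBo : IsOpen B := hB ▸ c₀.isOpen_inter_preimage_symm hV
  have hBt : B ⊆ c₀.target := hB ▸ inter_subset_left
  have hBV : B ⊆ c₀.symm ⁻¹' V := hB ▸ inter_subset_right
  have hBn : B.Nonempty := by
    rw [hB]
    refine ⟨c₀ x, c₀.map_source hxc, ?_⟩
    rw [mem_preimage, c₀.left_inv hxc]
    exact hx
  have hcxt : ∀ y ∈ c₀.target, cx y ∈ e₀.target := by
    intro y hy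
    obtain ⟨h1, h2⟩ := h₀.maps (c₀.symm y) (c₀.map_target hy)
    rw [c₀.right_inv hy] at h2
    rw [← h2]
    exact e₀.map_source h1
  refine not_ae_zero hμ hfull h₀.hol hd hBo hBn (fun y hy => hcxt y (hBt hy)) ?_
  have hcx : Continuous (cx : (Fin n → ℝ) → (Fin n → ℂ)) :=
    continuous_pi fun i => Complex.continuous_ofReal.comp (continuous_apply i)
  have h1 : Measurable ((e₀.target.indicator fun x => ENNReal.ofReal (u₀ x)) ∘
      (cx : (Fin n → ℝ) → (Fin n → ℂ))) :=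
    (hu₀.measurable_ind e₀.open_target).comp hcx.measurable
  have h2 : ∀ y ∈ B, ((e₀.target.indicator fun x => ENNReal.ofReal (u₀ x)) ∘
      (cx : (Fin n → ℝ) → (Fin n → ℂ))) y = ENNReal.ofReal (u₀ (cx y)) := by
    intro y hy
    rw [Function.comp_apply, indicator_of_mem (hcxt y (hBt hy))]
  have hae : AEMeasurable c₀.symm ((volume.restrict c₀.target).withDensity
      fun x => ENNReal.ofReal (u₀ (cx x)) ^ (1 / 2 : ℝ)) :=
    (c₀.continuousOn_symm.aemeasurable c₀.open_target.measurableSet).mono_ac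
      (withDensity_absolutelyContinuous _ _)
  rw [Measure.map_apply_of_aemeasurable hae hV.measurableSet] at h0
  have h3 := measure_mono_null hBV h0
  rw [withDensity_apply _ hBo.measurableSet, Measure.restrict_restrict hBo.measurableSet,
    inter_eq_self_of_subset_left hBt] at h3
  have h4 : AEMeasurable (fun y : Fin n → ℝ => ENNReal.ofReal (u₀ (cx y)) ^ (1 / 2 : ℝ))
      (volume.restrict B) := by
    refine ⟨fun y => (((e₀.target.indicator fun x => ENNReal.ofReal (u₀ x)) ∘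
      (cx : (Fin n → ℝ) → (Fin n → ℂ))) y) ^ (1 / 2 : ℝ), h1.pow_const _, ?_⟩
    filter_upwards [ae_restrict_mem hBo.measurableSet] with y hy
    rw [h2 y hy]
  rw [lintegral_eq_zero_iff' h4] at h3
  have h5 := (ae_restrict_iff' hBo.measurableSet).1 h3
  filter_upwards [h5] with y hy hyB
  have h6 := hy hyB
  simp only [Pi.zero_apply] at h6
  rw [ENNReal.rpow_eq_zero_iff] at h6
  rcases h6 with ⟨h6, _⟩ | ⟨_, h6⟩
  · exact le_antisymm (ENNReal.ofReal_eq_zero.1 h6) (hu₀.nonneg _ (hcxt y (hBt hyB)))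
  · norm_num at h6

end C

section C

variable {n : ℕ} {X : Type*} [TopologicalSpace X] [ChartedSpace (Fin n → ℂ) X]
  [IsManifold 𝓘(ℂ, Fin n → ℂ) ω X] [MeasurableSpace X] [BorelSpace X]

variable {M : Type*} [TopologicalSpace M] [ChartedSpace (Fin n → ℝ) M]
  [IsManifold 𝓘(ℝ, Fin n → ℝ) ∞ M] [MeasurableSpace M] [BorelSpace M]

/-- R14 -/
theorem exists_invariant_real [NeZero n] [SecondCountableTopology X] [ConnectedSpace X]
    [T2Space M] [CompactSpace M] {ι : M → X} (hι : TotallyReal n ι) {F : X ≃ₜ X}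
    (hF : ContMDiff 𝓘(ℂ, Fin n → ℂ) 𝓘(ℂ, Fin n → ℂ) ω F)
    (hF' : ContMDiff 𝓘(ℂ, Fin n → ℂ) 𝓘(ℂ, Fin n → ℂ) ω F.symm) {f : M ≃ₜ M}
    (hf : ContMDiff 𝓘(ℝ, Fin n → ℝ) 𝓘(ℝ, Fin n → ℝ) 1 f)
    (hf' : ContMDiff 𝓘(ℝ, Fin n → ℝ) 𝓘(ℝ, Fin n → ℝ) 1 f.symm) (hFf : ∀ y, F (ι y) = ι (f y))
    {μ : Measure X} [IsFiniteMeasure μ] (hne : μ ≠ 0) (hμ : PshDensities (Fin n → ℂ) μ) :
    ∃ ν : Measure M, IsFiniteMeasure ν ∧ ν.map f = ν ∧
      ∀ U : Set M, IsOpen U → U.Nonempty → ν U ≠ 0 := by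
  obtain ⟨Λ, hΛ, hb⟩ := real_bound hι (μ univ) (measure_ne_top μ univ)
  set P : Set (Measure M) := {m | ∃ m2 : Measure X, PshDensities (Fin n → ℂ) m2 ∧
    m2 univ ≤ μ univ ∧ RealTrace n ι m2 m} with hP
  have hle : sSup P ≤ Λ := sSup_le fun m hm => by
    obtain ⟨m2, h1, h2, h3⟩ := hm
    exact hb m2 h1 h2 m h3
  have hmf : Measurable f := f.continuous.measurable
  have hmf' : Measurable f.symm := f.symm.continuous.measurable
  have key : ∀ (G : X ≃ₜ X) (g : M ≃ₜ M), ContMDiff 𝓘(ℂ, Fin n → ℂ) 𝓘(ℂ, Fin n → ℂ) ω G →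
      ContMDiff 𝓘(ℂ, Fin n → ℂ) 𝓘(ℂ, Fin n → ℂ) ω G.symm →
      ContMDiff 𝓘(ℝ, Fin n → ℝ) 𝓘(ℝ, Fin n → ℝ) 1 g →
      ContMDiff 𝓘(ℝ, Fin n → ℝ) 𝓘(ℝ, Fin n → ℝ) 1 g.symm →
      (∀ y, G.symm (ι y) = ι (g.symm y)) → ∀ m ∈ P, m ≤ (sSup P).map g := by
    intro G g hG hG' hg hg' hGg m hm
    obtain ⟨m2, hm1, hm2, hm3⟩ := hm
    have hmg : Measurable g := g.continuous.measurable
    have hmg' : Measurable g.symm := g.symm.continuous.measurable
    have hmG' : Measurable G.symm := G.symm.continuous.measurable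
    have h1 : m.map g.symm ∈ P := by
      refine ⟨m2.map G.symm, hm1.map_hol (f := G.symm) hG' hG, ?_, ?_⟩
      · rw [Measure.map_apply hmG' MeasurableSet.univ, preimage_univ]
        exact hm2
      · exact RealTrace.map_hol (F := G.symm) (f := g.symm) hG' hG hg' hg hGg hm3
    have h2 : (m.map g.symm).map g ≤ (sSup P).map g := Measure.map_mono (le_sSup h1) hmg
    have h3 : (m.map g.symm).map g = m := by
      rw [Measure.map_map hmg hmg']
      have : (g ∘ g.symm : M → M) = id := funext fun x => g.apply_symm_apply x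
      rw [this, Measure.map_id]
    rwa [h3] at h2
  have hFf' : ∀ y, F.symm (ι y) = ι (f.symm y) := by
    intro y
    rw [Homeomorph.symm_apply_eq, hFf, f.apply_symm_apply]
  have h1 : sSup P ≤ (sSup P).map f := sSup_le (key F f hF hF' hf hf' hFf')
  have h2 : sSup P ≤ (sSup P).map f.symm :=
    sSup_le (key F.symm f.symm hF' hF hf' hf hFf)
  have h3 : (sSup P).map f ≤ sSup P := by
    have h4 : (sSup P).map f ≤ ((sSup P).map f.symm).map f := Measure.map_mono h2 hmf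
    rw [Measure.map_map hmf hmf'] at h4
    have : (f ∘ f.symm : M → M) = id := funext fun x => f.apply_symm_apply x
    rwa [this, Measure.map_id] at h4
  refine ⟨sSup P, ⟨(hle univ).trans_lt (measure_lt_top Λ univ)⟩, le_antisymm h3 h1, ?_⟩
  intro U hU hUn h0
  obtain ⟨m, hm1, hm2⟩ := exists_trace hι hμ (fun V hV hVn => hμ.full_support_sc hne V hV hVn) hU hUn
  have hmem : m ∈ P := ⟨μ, hμ, le_rfl, hm1⟩
  exact hm2 (le_antisymm ((le_sSup hmem U).trans h0.le) zero_le)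

end C

section C

variable {n : ℕ} {X : Type*} [TopologicalSpace X] [ChartedSpace (Fin n → ℂ) X]
  [IsManifold 𝓘(ℂ, Fin n → ℂ) ω X] [MeasurableSpace X] [BorelSpace X]

variable {M : Type*} [TopologicalSpace M] [ChartedSpace (Fin n → ℝ) M]
  [IsManifold 𝓘(ℝ, Fin n → ℝ) ∞ M] [MeasurableSpace M] [BorelSpace M]

open Pool.Agent.H721R2 Pool.Agent.H789R2.AN

/-- final -/
theorem main_real [NeZero n] [SecondCountableTopology X] [ConnectedSpace X] [T2Space M]
    [CompactSpace M] [ConnectedSpace M] (μ : Measure X) [IsFiniteMeasure μ] (hne : μ ≠ 0)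
    (hμ : PshDensities (Fin n → ℂ) μ) (ι : M → X) (hι : TotallyReal n ι) (F : X ≃ₜ X)
    (hF : ContMDiff 𝓘(ℂ, Fin n → ℂ) 𝓘(ℂ, Fin n → ℂ) ω F)
    (hF' : ContMDiff 𝓘(ℂ, Fin n → ℂ) 𝓘(ℂ, Fin n → ℂ) ω F.symm)
    (f : Diffeomorph 𝓘(ℝ, Fin n → ℝ) 𝓘(ℝ, Fin n → ℝ) M M 1) (hFf : ∀ y, F (ι y) = ι (f y))
    (Es Eu : ∀ x : M, Submodule ℝ (TangentSpace 𝓘(ℝ, Fin n → ℝ) x)) (hA : IsAnosov f Es Eu) :
    TopTransitive f := by
  obtain ⟨ν, hν, hinv, hpos⟩ := exists_invariant_real (f := f.toHomeomorph) hι hF hF'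
    f.contMDiff f.symm.contMDiff hFf hne hμ
  exact transitive_of_measure f Es Eu hA ν hinv hpos

end C

end Pool.Agent.H789R2.PE
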