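import Pool.Agent.H789R2.PE.Main

set_option autoImplicit false

open scoped Manifold ContDiff Topology ENNReal
open Set Filter MeasureTheory Metric

namespace Pool.Agent.H789R2.PE

/-- The inclusion of `ℝⁿ` in `ℂⁿ`. -/
def cx {n : ℕ} (x : Fin n → ℝ) : Fin n → ℂ := fun i => (x i : ℂ)

/-- `u` is the (pointwise defined) density `exp φ`, `φ` plurisubharmonic, of `μ` in the chart
`e`. -/
structure Dens {E : Type*} [NormedAddCommGroup E] [NormedSpace ℂ E] [FiniteDimensional ℂ E]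
    [MeasurableSpace E] [BorelSpace E] {X : Type*} [TopologicalSpace X] [MeasurableSpace X]
    (μ : Measure X) (e : OpenPartialHomeomorph X E) (u : E → ℝ) : Prop where
  psh : ExpPsh e.target u
  meas : ∀ s ⊆ e.target, MeasurableSet s →
    μ (e.symm '' s) = ∫⁻ x in s, ENNReal.ofReal (u x) ∂Measure.addHaar

section

variable {n : ℕ} {X : Type*} [TopologicalSpace X] [ChartedSpace (Fin n → ℂ) X]
  {M : Type*} [TopologicalSpace M] [ChartedSpace (Fin n → ℝ) M]

/-- The chart `c` of `M` and the holomorphic chart `e` of `X` represent `ι : M → X` as the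
inclusion of `ℝⁿ` in `ℂⁿ`. -/
structure Adapted (ι : M → X) (c : OpenPartialHomeomorph M (Fin n → ℝ))
    (e : OpenPartialHomeomorph X (Fin n → ℂ)) : Prop where
  hol : HolChart e
  smooth : ContMDiffOn 𝓘(ℝ, Fin n → ℝ) 𝓘(ℝ, Fin n → ℝ) 1 c c.source
  smooth_symm : ContMDiffOn 𝓘(ℝ, Fin n → ℝ) 𝓘(ℝ, Fin n → ℝ) 1 c.symm c.target
  maps : ∀ y ∈ c.source, ι y ∈ e.source ∧ e (ι y) = cx (c y)

/-- `ι : M → X` is locally, in suitable charts, the inclusion of `ℝⁿ` in `ℂⁿ`: a real analytic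
totally real immersion of a manifold of real dimension `n = dim X`. -/
def TotallyReal (n : ℕ) {X : Type*} [TopologicalSpace X] [ChartedSpace (Fin n → ℂ) X]
    {M : Type*} [TopologicalSpace M] [ChartedSpace (Fin n → ℝ) M] (ι : M → X) : Prop :=
  ∀ x : M, ∃ (c : OpenPartialHomeomorph M (Fin n → ℝ)) (e : OpenPartialHomeomorph X (Fin n → ℂ)),
    x ∈ c.source ∧ Adapted ι c e

/-- The measure `m` on `M` is at most the square root of the density of `μ`. -/
def RealTrace (n : ℕ) {X : Type*} [TopologicalSpace X] [ChartedSpace (Fin n → ℂ) X]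
    {M : Type*} [TopologicalSpace M] [ChartedSpace (Fin n → ℝ) M] [MeasurableSpace X]
    [MeasurableSpace M] (ι : M → X) (μ : Measure X) (m : Measure M) : Prop :=
  ∀ (c : OpenPartialHomeomorph M (Fin n → ℝ)) (e : OpenPartialHomeomorph X (Fin n → ℂ)),
    Adapted ι c e → ∀ u : (Fin n → ℂ) → ℝ, Dens μ e u → ∀ s ⊆ c.target, MeasurableSet s →
    m (c.symm '' s) ≤ ∫⁻ x in s, ENNReal.ofReal (u (cx x)) ^ (1 / 2 : ℝ)

end

/-- The square root of `i (1 + ζ) / (1 - ζ)`. -/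
noncomputable def gq (ζ : ℂ) : ℂ := (Complex.I * (1 + ζ) / (1 - ζ)) ^ (1 / 2 : ℂ)

/-- The conformal map of the unit disc onto the upper half of the unit disc. -/
noncomputable def gh (ζ : ℂ) : ℂ := (gq ζ - 1) / (gq ζ + 1)

/-- The inverse of `gh`. -/
noncomputable def ghi (z : ℂ) : ℂ :=
  (((1 + z) / (1 - z)) ^ 2 - Complex.I) / (((1 + z) / (1 - z)) ^ 2 + Complex.I)

section

open Pool.Agent.H789R2.AN

/-- The map `f : M → M` is a `C¹` Anosov diffeomorphism. -/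
def AnosovMap (E : Type*) [NormedAddCommGroup E] [NormedSpace ℝ E] {M : Type*}
    [TopologicalSpace M] [ChartedSpace E M] [IsManifold 𝓘(ℝ, E) 1 M] (f : M → M) : Prop :=
  ∃ (g : Diffeomorph 𝓘(ℝ, E) 𝓘(ℝ, E) M M 1)
    (Es Eu : ∀ x : M, Submodule ℝ (TangentSpace 𝓘(ℝ, E) x)), f = g ∧ IsAnosov g Es Eu

end

/-- The map `F : X → X` is an automorphism (biholomorphic map) of `X`. -/
def HolAut (n : ℕ) {X : Type*} [TopologicalSpace X] [ChartedSpace (Fin n → ℂ) X]
    (F : X → X) : Prop :=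
  ∃ G : X ≃ₜ X, F = G ∧ ContMDiff 𝓘(ℂ, Fin n → ℂ) 𝓘(ℂ, Fin n → ℂ) ω G ∧
    ContMDiff 𝓘(ℂ, Fin n → ℂ) 𝓘(ℂ, Fin n → ℂ) ω G.symm

end Pool.Agent.H789R2.PE
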