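import Pool.Agent.H789R2.PE.TRDefs

set_option autoImplicit false

open scoped Manifold ContDiff Topology ENNReal
open Set Filter MeasureTheory Metric

namespace Pool.Agent.H789R2.PE

section A

variable {E : Type*} [NormedAddCommGroup E] [NormedSpace ℂ E] [FiniteDimensional ℂ E]
  [MeasurableSpace E] [BorelSpace E]
  {X : Type*} [TopologicalSpace X] [ChartedSpace E X] [IsManifold 𝓘(ℂ, E) ω X]
  [MeasurableSpace X]

/-- R1 -/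
theorem dens_le {μ : Measure X} {e e' : OpenPartialHomeomorph X E} (he : HolChart e)
    (he' : HolChart e') {u u' : E → ℝ} (hu : Dens μ e u) (hu' : Dens μ e' u') {p : X}
    (hp : p ∈ e.source) (hp' : p ∈ e'.source) :
    ENNReal.ofReal (u' (e' p)) ≤
      ENNReal.ofReal |(fderiv ℝ (e ∘ e'.symm) (e' p)).det| * ENNReal.ofReal (u (e p)) := by
  sorry

/-- R2 (uses R1) -/
theorem dens_eq {μ : Measure X} {e e' : OpenPartialHomeomorph X E} (he : HolChart e)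
    (he' : HolChart e') {u u' : E → ℝ} (hu : Dens μ e u) (hu' : Dens μ e' u') {p : X}
    (hp : p ∈ e.source) (hp' : p ∈ e'.source) :
    u' (e' p) = |(fderiv ℝ (e ∘ e'.symm) (e' p)).det| * u (e p) := by
  sorry

/-- R6 -/
theorem straighten {e : OpenPartialHomeomorph X E} (he : HolChart e) {x y : E} (hy : y ≠ 0)
    (hd : ∀ z : ℂ, ‖z‖ ≤ 1 → 0 ≤ z.im → x + z • y ∈ e.target) :
    ∃ e' : OpenPartialHomeomorph X E, HolChart e' ∧ ∀ ζ : ℂ, ‖ζ‖ < 1 → ζ • y ∈ e'.target ∧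
      e'.symm (ζ • y) = e.symm (x + gh ζ • y) ∧
      |(fderiv ℝ (e ∘ e'.symm) (ζ • y)).det| = ‖deriv gh ζ‖ ^ 2 := by
  sorry

/-- R7 (uses R2, R4, R6) -/
theorem halfdisc_submean {μ : Measure X} (hμ : PshDensities E μ)
    {e : OpenPartialHomeomorph X E} (he : HolChart e) {u : E → ℝ} (hu : Dens μ e u) {x y : E}
    (hy : y ≠ 0) (hd : ∀ z : ℂ, ‖z‖ ≤ 1 → 0 ≤ z.im → x + z • y ∈ e.target) {ρ : ℝ} (hρ : 0 < ρ)
    (hρ1 : ρ < 1) (h0 : u (x + gh 0 • y) ≠ 0) :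
    (∀ᵐ t : ℝ, u (x + gh (circleMap 0 ρ t) • y) ≠ 0) ∧
    CircleIntegrable (fun ζ => Real.log (u (x + gh ζ • y))) 0 ρ ∧
    Real.log (u (x + gh 0 • y)) ≤
      Real.circleAverage (fun ζ => Real.log (u (x + gh ζ • y))) 0 ρ := by
  sorry

/-- R8 (uses R4, R5, R7) -/
theorem halfdisc_zero {μ : Measure X} (hμ : PshDensities E μ)
    {e : OpenPartialHomeomorph X E} (he : HolChart e) {u : E → ℝ} (hu : Dens μ e u) {x y : E}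
    (hy : y ≠ 0) (hd : ∀ z : ℂ, ‖z‖ ≤ 1 → 0 ≤ z.im → x + z • y ∈ e.target)
    (h0 : ∀ᵐ t : ℝ, t ∈ Ioo (-1 : ℝ) 1 → u (x + (t : ℂ) • y) = 0) : u (x + gh 0 • y) = 0 := by
  sorry

end A

section B

/-- R3 -/
theorem det_real {n : ℕ} (L : (Fin n → ℂ) →L[ℂ] (Fin n → ℂ)) (A : (Fin n → ℝ) →L[ℝ] (Fin n → ℝ))
    (h : ∀ v, L (cx v) = cx (A v)) : |(L.restrictScalars ℝ).det| = A.det ^ 2 := by
  sorry

/-- R4 -/
theorem gh_maps {ζ : ℂ} (hζ : ‖ζ‖ < 1) : ‖gh ζ‖ < 1 ∧ 0 < (gh ζ).im ∧ ghi (gh ζ) = ζ := by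
  sorry

theorem ghi_maps {z : ℂ} (hz : ‖z‖ < 1) (hz' : 0 < z.im) : ‖ghi z‖ < 1 ∧ gh (ghi z) = z := by
  sorry

theorem gh_diff : DifferentiableOn ℂ gh (ball 0 1) := by
  sorry

theorem ghi_diff : DifferentiableOn ℂ ghi {z : ℂ | ‖z‖ < 1 ∧ 0 < z.im} := by
  sorry

theorem gh_zero : (gh 0).re = 0 ∧ 0 < (gh 0).im := by
  sorry

/-- R5 -/
theorem gh_boundary {N : Set ℝ} (hN : volume N = 0) :
    ∀ᵐ t : ℝ, t ∈ Ioo Real.pi (2 * Real.pi) → ∃ τ ∈ Ioo (-1 : ℝ) 1, τ ∉ N ∧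
      Tendsto (fun ρ : ℝ => gh (circleMap 0 ρ t)) (𝓝[<] 1) (𝓝 (τ : ℂ)) := by
  sorry

end B

section C

variable {n : ℕ} {X : Type*} [TopologicalSpace X] [ChartedSpace (Fin n → ℂ) X]
  [IsManifold 𝓘(ℂ, Fin n → ℂ) ω X] [MeasurableSpace X] [BorelSpace X]

/-- R9 (uses R4, R8) -/
theorem not_ae_zero [NeZero n] {μ : Measure X} (hμ : PshDensities (Fin n → ℂ) μ)
    (hfull : ∀ U : Set X, IsOpen U → U.Nonempty → μ U ≠ 0)
    {e : OpenPartialHomeomorph X (Fin n → ℂ)} (he : HolChart e) {u : (Fin n → ℂ) → ℝ}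
    (hu : Dens μ e u) {B : Set (Fin n → ℝ)} (hB : IsOpen B) (hBn : B.Nonempty)
    (hBe : ∀ x ∈ B, cx x ∈ e.target) : ¬ ∀ᵐ x : Fin n → ℝ, x ∈ B → u (cx x) = 0 := by
  sorry

variable {M : Type*} [TopologicalSpace M] [ChartedSpace (Fin n → ℝ) M]
  [IsManifold 𝓘(ℝ, Fin n → ℝ) ∞ M] [MeasurableSpace M] [BorelSpace M]

/-- R10 (uses ExpPsh.ball_le; like exists_bound in Supp.lean) -/
theorem real_bound [T2Space M] [CompactSpace M] {ι : M → X} (hι : TotallyReal n ι) (C : ℝ≥0∞)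
    (hC : C ≠ ⊤) : ∃ Λ : Measure M, IsFiniteMeasure Λ ∧ ∀ μ : Measure X,
      PshDensities (Fin n → ℂ) μ → μ univ ≤ C → ∀ m : Measure M, RealTrace n ι μ m → m ≤ Λ := by
  sorry

/-- R11 -/
theorem RealTrace.map_hol {ι : M → X} {F : X ≃ₜ X}
    (hF : ContMDiff 𝓘(ℂ, Fin n → ℂ) 𝓘(ℂ, Fin n → ℂ) ω F)
    (hF' : ContMDiff 𝓘(ℂ, Fin n → ℂ) 𝓘(ℂ, Fin n → ℂ) ω F.symm) {f : M ≃ₜ M}
    (hf : ContMDiff 𝓘(ℝ, Fin n → ℝ) 𝓘(ℝ, Fin n → ℝ) 1 f)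
    (hf' : ContMDiff 𝓘(ℝ, Fin n → ℝ) 𝓘(ℝ, Fin n → ℝ) 1 f.symm) (hFf : ∀ y, F (ι y) = ι (f y))
    {μ : Measure X} {m : Measure M} (h : RealTrace n ι μ m) :
    RealTrace n ι (μ.map F) (m.map f) := by
  sorry

/-- R12 (uses R2, R3) -/
theorem trace_of_chart {ι : M → X} {μ : Measure X} {c₀ : OpenPartialHomeomorph M (Fin n → ℝ)}
    {e₀ : OpenPartialHomeomorph X (Fin n → ℂ)} (h₀ : Adapted ι c₀ e₀) {u₀ : (Fin n → ℂ) → ℝ}
    (hu₀ : Dens μ e₀ u₀) :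
    RealTrace n ι μ (Measure.map c₀.symm ((volume.restrict c₀.target).withDensity
      fun x => ENNReal.ofReal (u₀ (cx x)) ^ (1 / 2 : ℝ))) := by
  sorry

/-- R13 (uses R9, R12) -/
theorem exists_trace [NeZero n] {ι : M → X} (hι : TotallyReal n ι) {μ : Measure X}
    (hμ : PshDensities (Fin n → ℂ) μ) (hfull : ∀ U : Set X, IsOpen U → U.Nonempty → μ U ≠ 0)
    {V : Set M} (hV : IsOpen V) (hVn : V.Nonempty) :
    ∃ m : Measure M, RealTrace n ι μ m ∧ m V ≠ 0 := by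
  sorry

/-- R14 (uses PshDensities.full_support, PshDensities.map_hol, R10, R11, R13; like
exists_invariant in Main.lean) -/
theorem exists_invariant_real [NeZero n] [T2Space X] [CompactSpace X] [ConnectedSpace X]
    [T2Space M] [CompactSpace M] {ι : M → X} (hι : TotallyReal n ι) {F : X ≃ₜ X}
    (hF : ContMDiff 𝓘(ℂ, Fin n → ℂ) 𝓘(ℂ, Fin n → ℂ) ω F)
    (hF' : ContMDiff 𝓘(ℂ, Fin n → ℂ) 𝓘(ℂ, Fin n → ℂ) ω F.symm) {f : M ≃ₜ M}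
    (hf : ContMDiff 𝓘(ℝ, Fin n → ℝ) 𝓘(ℝ, Fin n → ℝ) 1 f)
    (hf' : ContMDiff 𝓘(ℝ, Fin n → ℝ) 𝓘(ℝ, Fin n → ℝ) 1 f.symm) (hFf : ∀ y, F (ι y) = ι (f y))
    {μ : Measure X} [IsFiniteMeasure μ] (hne : μ ≠ 0) (hμ : PshDensities (Fin n → ℂ) μ) :
    ∃ ν : Measure M, IsFiniteMeasure ν ∧ ν.map f = ν ∧
      ∀ U : Set M, IsOpen U → U.Nonempty → ν U ≠ 0 := by
  sorry

open Pool.Agent.H721R2 Pool.Agent.H789R2.AN

/-- final -/
theorem main_real [NeZero n] [T2Space X] [CompactSpace X] [ConnectedSpace X] [T2Space M]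
    [CompactSpace M] [ConnectedSpace M] (μ : Measure X) [IsFiniteMeasure μ] (hne : μ ≠ 0)
    (hμ : PshDensities (Fin n → ℂ) μ) (ι : M → X) (hι : TotallyReal n ι) (F : X ≃ₜ X)
    (hF : ContMDiff 𝓘(ℂ, Fin n → ℂ) 𝓘(ℂ, Fin n → ℂ) ω F)
    (hF' : ContMDiff 𝓘(ℂ, Fin n → ℂ) 𝓘(ℂ, Fin n → ℂ) ω F.symm)
    (f : Diffeomorph 𝓘(ℝ, Fin n → ℝ) 𝓘(ℝ, Fin n → ℝ) M M 1) (hFf : ∀ y, F (ι y) = ι (f y))
    (Es Eu : ∀ x : M, Submodule ℝ (TangentSpace 𝓘(ℝ, Fin n → ℝ) x)) (hA : IsAnosov f Es Eu) :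
    TopTransitive f := by
  obtain ⟨ν, hν, hinv, hpos⟩ := exists_invariant_real (f := f.toHomeomorph) hι hF hF'
    f.contMDiff f.symm.contMDiff hFf hne hμ
  exact transitive_of_measure f Es Eu hA ν hinv hpos

end C

end Pool.Agent.H789R2.PE
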